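import Pool.Agent.Helper80K4.Defs
import Pool.Agent.NPC.Dec
import Pool.Agent.H601R2.PP

/-!
# Reductions between search problems
-/

namespace Pool.Agent.Helper80K4

open Pool.Agent.NPC Pool.Agent.H642R2.TMSim

/-- A polynomial-time function applied to the code of a value. -/
theorem poly_call {γ β : Type} [TEnc γ] [TEnc β] {f : List Bool → List Bool} (hf : PolyTime f)
    {red : γ → β} (hred : Poly red) : Poly (fun c => unbits (List Bool) (f (bits (red c)))) := by
  have h1 : PC (bits : γ → List Bool) (bits : β → List Bool) red := hred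
  have h2 : PC (bits : γ → List Bool) (id : List Bool → List Bool) (fun c => bits (red c)) := h1
  have h3 : PC (bits : γ → List Bool) (id : List Bool → List Bool) (fun c => f (bits (red c))) :=
    PC.comp (polyTime_toPC hf) h2
  have h4 : Poly (fun c => f (bits (red c))) :=
    PC.comp (f := fun c => f (bits (red c))) (g := fun x => x) PC.rawIn h3
  exact Poly.comp poly_unbits h4

/-- A solver given by a typed polynomial-time function. -/
theorem solvable_of_poly {α γ : Type} [TEnc α] [TEnc γ] [TDec γ] {data : α → γ}
    (hdata : ∀ a, toT a = toT (data a)) {V : α → Prop} {R : α → List Bool → Prop}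
    {g : γ → List Bool} (hg : Poly g) (h : ∀ a, V a → R a (g (data a))) : Solvable V R := by
  refine ⟨_, polyTime_opt (Poly.optMap (o := unbits γ) (f := fun _ c => g c) poly_unbits
    (hg.comp (Poly.snd Poly.id))), fun a ha => ⟨g (data a), ?_, h a ha⟩⟩
  have e : bits a = bits (data a) := by unfold bits; rw [hdata]
  rw [e, unbits_bits]
  rfl

/-- Reductions. -/
theorem Solvable.of_red {α β γ : Type} [TEnc α] [TEnc β] [TEnc γ] [TDec γ] {data : α → γ}
    (hdata : ∀ a, toT a = toT (data a)) {V : α → Prop} {R : α → List Bool → Prop}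
    {V' : β → Prop} {R' : β → List Bool → Prop} (hS : Solvable V' R') {red : γ → β}
    (hred : Poly red) {post : γ → List Bool → List Bool}
    (hpost : Poly (fun p : γ × List Bool => post p.1 p.2))
    (hV : ∀ a, V a → V' (red (data a)))
    (hR : ∀ a, V a → ∀ y, R' (red (data a)) y → R a (post (data a) y)) : Solvable V R := by
  obtain ⟨f, hf, hf'⟩ := hS
  have h1 := poly_call hf hred
  have h2 : Poly (fun c : γ => post c ((unbits (List Bool) (f (bits (red c)))).getD [])) :=
    hpost.comp (Poly.pair Poly.id (Poly.optGetD h1 (NPC.Poly.const [])))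
  refine solvable_of_poly hdata h2 fun a ha => ?_
  obtain ⟨y, hy, hy'⟩ := hf' _ (hV a ha)
  rw [hy, unbits_bits]
  exact hR a ha y hy'

/-- the number of ones -/
@[fun_prop] theorem poly_toNat {α : Type} [TEnc α] {b : α → Bool} (hb : Poly b) :
    Poly (fun a => (b a).toNat) :=
  (Poly.cond hb (NPC.Poly.const 1) (NPC.Poly.const 0)).congr fun a => by cases b a <;> rfl

end Pool.Agent.Helper80K4
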