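import Pool.Agent.Helper80K4.Sem2
import Pool.Agent.Helper80K4.Search

/-!
# The reduction of Circuit-FLIP to maps given by ANDs of three literals
-/

namespace Pool.Agent.Helper80K4

open Pool.Agent.NPC

/-- the data of a circuit -/
abbrev CData := List Unit × List (ℕ × ℕ × ℕ) × List ℕ

/-- the data of a circuit -/
def cdata (C : Circuit) : CData := (List.replicate C.inputs (), codes C, C.outputs)

theorem toT_cdata (C : Circuit) : toT C = toT (cdata C) := by
  change toT (List.replicate C.inputs (), C.gates, C.outputs) = _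
  unfold cdata codes
  have : toT C.gates = toT (C.gates.map Gate.code) := by
    change T.ofList (C.gates.map toT) = T.ofList ((C.gates.map Gate.code).map toT)
    rw [List.map_map]
    rfl
  change T.node _ (T.node (toT C.gates) _) = T.node _ (T.node (toT (C.gates.map Gate.code)) _)
  rw [this]

section poly

variable {α : Type} [TEnc α]

theorem uQ {c : α → CData} (hc : Poly c) :
    UPoly (fun a => bs (c a).1.length (c a).2.1 (c a).2.2 (c a).1.length) := by
  unfold bs bl
  have h1 : UPoly (fun a => (c a).1.length) := UPoly.length (Poly.fst hc)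
  have h2 : UPoly (fun a => (c a).2.1.length) := UPoly.length (Poly.fst (Poly.snd hc))
  have h3 : UPoly (fun a => (c a).2.2.length) := UPoly.length (Poly.snd (Poly.snd hc))
  exact ((h1.add h2).add (UPoly.const 1)).add (h1.mul
    ((h2.add ((UPoly.const 4).mul h3)).add (UPoly.const 4)))

theorem uSize {c : α → CData} (hc : Poly c) :
    UPoly (fun a => (dat (c a).1.length (c a).2.1 (c a).2.2).N) := by
  change UPoly (fun a => bs (c a).1.length (c a).2.1 (c a).2.2 (c a).1.length +
    ((c a).2.1.length + 5 * (c a).2.2.length))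
  have h2 : UPoly (fun a => (c a).2.1.length) := UPoly.length (Poly.fst (Poly.snd hc))
  have h3 : UPoly (fun a => (c a).2.2.length) := UPoly.length (Poly.snd (Poly.snd hc))
  exact (uQ hc).add (h2.add ((UPoly.const 5).mul h3))

theorem poly_bs {c : α → CData} {t : α → ℕ} (hc : Poly c) (ht : Poly t) :
    Poly (fun a => bs (c a).1.length (c a).2.1 (c a).2.2 (t a)) := by
  unfold bs bl
  fun_prop

theorem poly_bl {c : α → CData} (hc : Poly c) :
    Poly (fun a => bl (c a).2.1 (c a).2.2) := by
  unfold bl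
  fun_prop

theorem poly_tau {c : α → CData} {K t j : α → ℕ} (hc : Poly c) (hK : Poly K) (ht : Poly t)
    (hj : Poly j) : Poly (fun a => tau (c a).1.length (K a) (t a) (j a)) := by
  unfold tau
  fun_prop

theorem poly_ktt {k : α → ℕ} (hk : Poly k) : Poly (fun a => ktt (k a)) := by
  unfold ktt
  fun_prop

theorem poly_cv_id {k : α → ℕ × ℕ × ℕ} (hk : Poly k) : Poly (fun a => cv (fun j => j) (k a)) := by
  unfold cv
  exact Poly.pair (by fun_prop) (Poly.pair (by fun_prop) (poly_ktt (by fun_prop)))

theorem poly_cv_tau {c : α → CData} {K t : α → ℕ} {k : α → ℕ × ℕ × ℕ} (hc : Poly c) (hK : Poly K)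
    (ht : Poly t) (hk : Poly k) :
    Poly (fun a => cv (tau (c a).1.length (K a) (t a)) (k a)) := by
  unfold cv
  exact Poly.pair (poly_tau hc hK ht (by fun_prop)) (Poly.pair (poly_tau hc hK ht (by fun_prop))
    (poly_ktt (by fun_prop)))

theorem poly_bg {c : α → CData} {t K u : α → ℕ} (hc : Poly c) (ht : Poly t) (hK : Poly K)
    (hu : Poly u) :
    Poly (fun a => bg (c a).1.length (c a).2.1 (c a).2.2 (t a) (K a) (u a)) := by
  unfold bg
  refine Poly.ite (by fun_prop) (by fun_prop) (Poly.ite (by fun_prop) ?_ ?_)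
  · exact poly_cv_tau hc hK ht (by fun_prop)
  · refine Poly.ite (by fun_prop) ?_ (Poly.ite (by fun_prop) (by fun_prop)
      (Poly.ite (by fun_prop) (by fun_prop) (by fun_prop)))
    refine Poly.ite (by fun_prop) (by fun_prop) (Poly.ite (by fun_prop) (by fun_prop)
      (Poly.ite (by fun_prop) (by fun_prop) (by fun_prop)))

theorem poly_nxn {c : α → CData} {i : α → ℕ} (hc : Poly c) (hi : Poly i) :
    Poly (fun a => nxn (c a).1.length (c a).2.1 (c a).2.2 (i a)) := by
  unfold nxn
  exact Poly.add (poly_bs hc hi) (by fun_prop)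

theorem poly_tau2 {c : α → CData} {Q j : α → ℕ} (hc : Poly c) (hQ : Poly Q) (hj : Poly j) :
    Poly (fun a => tau2 (c a).1.length (c a).2.1 (c a).2.2 (Q a) (j a)) := by
  unfold tau2
  exact Poly.ite (by fun_prop) (poly_nxn hc hj) (by fun_prop)

theorem poly_cv_tau2 {c : α → CData} {Q : α → ℕ} {k : α → ℕ × ℕ × ℕ} (hc : Poly c) (hQ : Poly Q)
    (hk : Poly k) :
    Poly (fun a => cv (tau2 (c a).1.length (c a).2.1 (c a).2.2 (Q a)) (k a)) := by
  unfold cv
  exact Poly.pair (poly_tau2 hc hQ (by fun_prop)) (Poly.pair (poly_tau2 hc hQ (by fun_prop))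
    (poly_ktt (by fun_prop)))

theorem poly_fg {c : α → CData} {Q u : α → ℕ} (hc : Poly c) (hQ : Poly Q) (hu : Poly u) :
    Poly (fun a => fg (c a).1.length (c a).2.1 (c a).2.2 (Q a) (u a)) := by
  unfold fg
  refine Poly.ite (by fun_prop) (poly_cv_tau2 hc hQ (by fun_prop)) ?_
  refine Poly.ite (by fun_prop) (by fun_prop) (Poly.ite (by fun_prop) (by fun_prop)
    (Poly.ite (by fun_prop) (by fun_prop) (Poly.ite (by fun_prop) (by fun_prop) (by fun_prop))))

theorem poly_gt {c : α → CData} {i : α → ℕ} (hc : Poly c) (hi : Poly i) :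
    Poly (fun a => gt (c a).1.length (c a).2.1 (c a).2.2 (i a)) := by
  unfold gt
  have hbl := poly_bl hc
  have hQ := (uQ hc).toPoly
  have ht : Poly (fun a => (i a - ((c a).1.length + (c a).2.1.length + 1)) /
      bl (c a).2.1 (c a).2.2) := Poly.div (by fun_prop) hbl
  refine Poly.ite (by fun_prop) (poly_cv_id (by fun_prop)) (Poly.ite (by fun_prop) (by fun_prop)
    (Poly.ite (Poly.decide_lt hi hQ) ?_ ?_))
  · exact poly_bg hc ht (poly_bs hc ht) (Poly.mod (by fun_prop) hbl)
  · exact poly_fg hc hQ (Poly.sub hi hQ)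

theorem poly_pos {b r : α → Bool} {i : α → ℕ} (hb : Poly b) (hr : Poly r) (hi : Poly i) :
    Poly (fun a => pos (b a) (r a) (i a)) := by
  unfold pos
  fun_prop

theorem poly_conj3 {f g h : α → ℕ} (hf : Poly f) (hg : Poly g) (hh : Poly h) (u v w : Bool) :
    Poly (fun a => conj3 (f a) u (g a) v (h a) w) := by
  unfold conj3
  fun_prop

theorem poly_ev {t : α → TT} (ht : Poly t) (u v : Bool) :
    Poly (fun a => (t a).ev u v) := by
  unfold TT.ev
  fun_prop

theorem poly_g1 {c : α → CData} {i : α → ℕ} (hc : Poly c) (hi : Poly i) :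
    Poly (fun a => (dat (c a).1.length (c a).2.1 (c a).2.2).g1 (i a)) := by
  have hg := poly_gt hc hi
  have hK : ∀ b u v : Bool, Poly (fun a => (dat (c a).1.length (c a).2.1 (c a).2.2).bK b (i a) u v) := by
    intro b u v
    unfold Dat.bK
    refine poly_conj3 (poly_pos (NPC.Poly.const _) (NPC.Poly.const _) (Poly.fst hg))
      (poly_pos (NPC.Poly.const _) (NPC.Poly.const _) (Poly.fst (Poly.snd hg)))
      (poly_pos (NPC.Poly.const _) (Poly.not (poly_ev (Poly.snd (Poly.snd hg)) u v)) hi) _ _ _
  have hP : ∀ b : Bool, Poly (fun a => Dat.bP b (i a)) := fun b =>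
    poly_conj3 (poly_pos (NPC.Poly.const _) (NPC.Poly.const _) hi)
      (poly_pos (NPC.Poly.const _) (NPC.Poly.const _) hi)
      (poly_pos (NPC.Poly.const _) (NPC.Poly.const _) hi) _ _ _
  have hU : ∀ b : Bool, Poly (fun a => Dat.bU b (i a)) := fun b =>
    poly_conj3 (NPC.Poly.const _)
      (poly_pos (NPC.Poly.const _) (NPC.Poly.const _) hi)
      (poly_pos (NPC.Poly.const _) (NPC.Poly.const _) hi) _ _ _
  have hm : ∀ b : Bool, Poly (fun a => (dat (c a).1.length (c a).2.1 (c a).2.2).mono b (i a)) := by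
    intro b
    unfold Dat.mono
    refine Poly.cons (hP b) (Poly.ite ?_ (NPC.Poly.const _) ?_)
    · exact Poly.decide_lt hi (Poly.length (Poly.fst hc))
    · exact Poly.cons (hK b _ _) (Poly.cons (hK b _ _) (Poly.cons (hK b _ _)
        (Poly.cons (hK b _ _) (NPC.Poly.const _))))
  unfold Dat.g1
  exact Poly.append (Poly.append (hm _) (hm _)) (Poly.cons (hU _) (Poly.cons (hU _)
    (NPC.Poly.const _)))

theorem poly_L1 {c : α → CData} (hc : Poly c) :
    Poly (fun a => (dat (c a).1.length (c a).2.1 (c a).2.2).L1) := by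
  unfold Dat.L1
  refine Poly.flatMap (F := fun a i => (dat (c a).1.length (c a).2.1 (c a).2.2).g1 i)
    (uSize hc).range ?_
  exact poly_g1 (c := fun p : α × ℕ => c p.1) (by fun_prop) (by fun_prop)

theorem poly_L2 {c : α → CData} (hc : Poly c) :
    Poly (fun a => (dat (c a).1.length (c a).2.1 (c a).2.2).L2) := by
  have hN := (uSize hc).toPoly
  have hN' : Poly (fun p : α × ℕ => (dat (c p.1).1.length (c p.1).2.1 (c p.1).2.2).N) :=
    hN.comp (by fun_prop)
  have hQ : Poly (fun p : α × ℕ => bs (c p.1).1.length (c p.1).2.1 (c p.1).2.2 (c p.1).1.length) :=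
    (uQ hc).toPoly.comp (by fun_prop)
  have hcp : Poly (fun p : α × ℕ => (dat (c p.1).1.length (c p.1).2.1 (c p.1).2.2).cp p.2) := by
    unfold Dat.cp
    exact Poly.add (Poly.add (NPC.Poly.const _) (Poly.mul (NPC.Poly.const _) hN')) (by fun_prop)
  have hhp : Poly (fun p : α × ℕ => (dat (c p.1).1.length (c p.1).2.1 (c p.1).2.2).hp p.2) := by
    unfold Dat.hp
    exact Poly.add (Poly.add (Poly.add (NPC.Poly.const _) (Poly.mul (NPC.Poly.const _) hN'))
      (by fun_prop)) (NPC.Poly.const _)
  have hout : Poly (fun p : α × ℕ => (dat (c p.1).1.length (c p.1).2.1 (c p.1).2.2).out p.2) := by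
    change Poly (fun p : α × ℕ => (c p.1).2.2.getD ((c p.1).2.2.length - 1 - p.2) 0)
    fun_prop
  have hmu : Poly (fun p : α × ℕ => (dat (c p.1).1.length (c p.1).2.1 (c p.1).2.2).mu p.2) := by
    change Poly (fun p : α × ℕ => bs _ _ _ _ + _)
    exact Poly.add hQ (by fun_prop)
  have h1 : ∀ b, Poly (fun p : α × ℕ =>
      (dat (c p.1).1.length (c p.1).2.1 (c p.1).2.2).bk b p.2) := fun b =>
    poly_conj3 (NPC.Poly.const _) hcp (poly_pos (NPC.Poly.const _) (NPC.Poly.const _) hout) _ _ _
  have h2 : ∀ b, Poly (fun p : α × ℕ =>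
      (dat (c p.1).1.length (c p.1).2.1 (c p.1).2.2).bi b p.2) := fun b =>
    poly_conj3 (NPC.Poly.const _) hhp (poly_pos (NPC.Poly.const _) (NPC.Poly.const _) hmu) _ _ _
  have h3 : Poly (fun p : α × ℕ =>
      (dat (c p.1).1.length (c p.1).2.1 (c p.1).2.2).ba p.2) := poly_conj3 hcp hhp hhp _ _ _
  have h4 : ∀ b, Poly (fun p : α × ℕ =>
      (dat (c p.1).1.length (c p.1).2.1 (c p.1).2.2).bt b p.2) := fun b =>
    poly_conj3 (NPC.Poly.const _) hhp (poly_pos (NPC.Poly.const _) (NPC.Poly.const _) hout) _ _ _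
  have h5 : Poly (fun p : α × ℕ =>
      (dat (c p.1).1.length (c p.1).2.1 (c p.1).2.2).bc p.2) := poly_conj3 hcp hcp hcp _ _ _
  have h6 : Poly (fun p : α × ℕ =>
      (dat (c p.1).1.length (c p.1).2.1 (c p.1).2.2).bh p.2) := poly_conj3 hhp hhp hhp _ _ _
  unfold Dat.L2
  refine Poly.flatMap (F := fun a i => (dat (c a).1.length (c a).2.1 (c a).2.2).g2 i)
    (UPoly.length (Poly.snd (Poly.snd hc))).range ?_
  unfold Dat.g2
  exact Poly.cons (h1 _) (Poly.cons (h1 _) (Poly.cons (h2 _) (Poly.cons (h2 _) (Poly.cons h3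
    (Poly.cons (h4 _) (Poly.cons (h4 _) (Poly.cons h5 (Poly.cons h6 (NPC.Poly.const _)))))))))

theorem poly_g3 {c : α → CData} {i : α → ℕ} (hc : Poly c) (hi : Poly i) :
    Poly (fun a => (dat (c a).1.length (c a).2.1 (c a).2.2).g3 (i a)) := by
  have hW : ∀ b r : Bool, Poly (fun a => (dat (c a).1.length (c a).2.1 (c a).2.2).bW b (i a) r) := by
    intro b r
    unfold Dat.bW
    refine poly_conj3 (NPC.Poly.const _) (poly_pos (NPC.Poly.const _) (NPC.Poly.const _) hi)
      (poly_pos (NPC.Poly.const _) (NPC.Poly.const _) ?_) _ _ _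
    exact poly_nxn hc hi
  unfold Dat.g3
  exact Poly.cons (hW _ _) (Poly.cons (hW _ _) (Poly.cons (hW _ _) (Poly.cons (hW _ _)
    (NPC.Poly.const _))))

theorem poly_L3 {c : α → CData} (hc : Poly c) :
    Poly (fun a => (dat (c a).1.length (c a).2.1 (c a).2.2).L3) := by
  unfold Dat.L3
  refine Poly.flatMap (F := fun a i => (dat (c a).1.length (c a).2.1 (c a).2.2).g3 i)
    (UPoly.length (Poly.fst hc)).range ?_
  exact poly_g3 (c := fun p : α × ℕ => c p.1) (by fun_prop) (by fun_prop)

theorem poly_L4 {c : α → CData} (hc : Poly c) :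
    Poly (fun a => (dat (c a).1.length (c a).2.1 (c a).2.2).L4) := by
  unfold Dat.L4
  have h1 := uSize hc
  have h2 : UPoly (fun a => (dat (c a).1.length (c a).2.1 (c a).2.2).N - 1) :=
    UPoly.of_le (Poly.sub h1.toPoly (NPC.Poly.const 1)) h1 (fun a => Nat.sub_le _ _)
  refine Poly.flatMap (F := fun _ i => Dat.g4 i) h2.range ?_
  have hD : ∀ b r : Bool, Poly (fun p : α × ℕ => Dat.bD b p.2 r) := fun b r =>
    poly_conj3 (poly_pos (NPC.Poly.const _) (NPC.Poly.const _) (by fun_prop))
      (poly_pos (NPC.Poly.const _) (NPC.Poly.const _) (by fun_prop))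
      (poly_pos (NPC.Poly.const _) (NPC.Poly.const _) (by fun_prop)) _ _ _
  unfold Dat.g4
  exact Poly.cons (hD _ _) (Poly.cons (hD _ _) (Poly.cons (hD _ _) (Poly.cons (hD _ _)
    (NPC.Poly.const _))))

theorem poly_L5 {c : α → CData} (hc : Poly c) :
    Poly (fun a => (dat (c a).1.length (c a).2.1 (c a).2.2).L5) := by
  unfold Dat.L5
  refine Poly.flatMap (F := fun _ i => Dat.g5 i) (uSize hc).range ?_
  have hZ : ∀ b : Bool, Poly (fun p : α × ℕ => Dat.bZ b p.2) := fun b =>
    poly_conj3 (poly_pos (NPC.Poly.const _) (NPC.Poly.const _) (by fun_prop))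
      (poly_pos (NPC.Poly.const _) (NPC.Poly.const _) (by fun_prop))
      (poly_pos (NPC.Poly.const _) (NPC.Poly.const _) (by fun_prop)) _ _ _
  unfold Dat.g5
  exact Poly.cons (hZ _) (Poly.cons (hZ _) (NPC.Poly.const _))

theorem poly_all {c : α → CData} (hc : Poly c) :
    Poly (fun a => (dat (c a).1.length (c a).2.1 (c a).2.2).all) := by
  unfold Dat.all
  exact Poly.append (poly_L1 hc) (Poly.append (poly_L2 hc) (Poly.append (poly_L3 hc)
    (Poly.append (poly_L4 hc) (poly_L5 hc))))

end poly

/-- the reduction -/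
def red3 (c : CData) : ConjMap :=
  if c.1.length = 0 then ⟨0, []⟩ else (dat c.1.length c.2.1 c.2.2).map

theorem poly_conjMap {α : Type} [TEnc α] {n : α → ℕ} {o : α → List Cj} (hn : UPoly n)
    (ho : Poly o) : Poly (fun a => (⟨n a, o a⟩ : ConjMap)) :=
  Poly.of_toT ((Poly.toT' (Poly.pair hn ho)).congr fun _ => rfl)

theorem poly_red3 : Poly red3 := by
  unfold red3 Dat.map
  refine Poly.ite (by fun_prop) (NPC.Poly.const _) (poly_conjMap ?_
    (Poly.reverse (poly_all Poly.id)))
  exact ((UPoly.const 1).add ((UPoly.const 4).mul (uSize Poly.id))).add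
    ((UPoly.const 2).mul (UPoly.length (Poly.snd (Poly.snd Poly.id))))

/-- the solution -/
def post3 (c : CData) (y : List Bool) : List Bool :=
  if c.1.length = 0 then [] else
    (List.range c.1.length).map fun i => rl y (y.getD 0 false) true i

theorem poly_post3 : Poly (fun p : CData × List Bool => post3 p.1 p.2) := by
  unfold post3
  refine Poly.ite (by fun_prop) (NPC.Poly.const _) ?_
  refine NPC.Poly.map (F := fun (p : CData × List Bool) i => rl p.2 (p.2.getD 0 false) true i)
    (UPoly.length (by fun_prop)).range ?_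
  unfold rl
  exact Poly.getD (by fun_prop) (poly_pos (Poly.getD (by fun_prop) (NPC.Poly.const _)
    (NPC.Poly.const _)) (NPC.Poly.const _) (by fun_prop)) (NPC.Poly.const _)

theorem red3_cdata {C : Circuit} (hn : 0 < C.inputs) : red3 (cdata C) = (datC C).map := by
  unfold red3 cdata datC
  simp only [List.length_replicate]
  rw [if_neg (by omega)]

theorem conj3_valid {a b c : ℕ} {u v w : Bool} {n : ℕ} (ha : a < n) (hb : b < n) (hc : c < n) :
    (conj3 a u b v c w).length ≤ 3 ∧ ∀ p ∈ (conj3 a u b v c w), p.1 < n := by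
  unfold conj3
  refine ⟨le_rfl, ?_⟩
  simp [ha, hb, hc]

theorem map_valid {d : Dat} (hok : d.Ok) : ConjMap.Valid 3 d.map := by
  intro T hT
  have hT' : T ∈ d.all := List.mem_reverse.1 hT
  unfold Dat.all at hT'
  have hle := hok.le
  have hl : 0 < d.len := by unfold Dat.len; omega
  change _ ∧ ∀ p ∈ T, p.1 < d.len
  simp only [List.mem_append] at hT'
  rcases hT' with h | h | h | h | h
  · unfold Dat.L1 at h
    obtain ⟨j, hj, h⟩ := List.mem_flatMap.1 h
    have hj := List.mem_range.1 hj
    rcases mem_g1 h with ⟨b, h⟩ | ⟨b, rfl⟩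
    · rcases mem_mono h with rfl | ⟨hn, α, β, rfl⟩
      · exact conj3_valid (pos_len hj) (pos_len hj) (pos_len hj)
      · have h1 := hok.ref1 j hn hj
        have h2 := hok.ref2 j hn hj
        exact conj3_valid (pos_len (by omega)) (pos_len (by omega)) (pos_len hj)
    · exact conj3_valid hl (pos_len hj) (pos_len hj)
  · unfold Dat.L2 at h
    obtain ⟨j, hj, h⟩ := List.mem_flatMap.1 h
    have hj := List.mem_range.1 hj
    have ho := hok.out j hj
    have hm := hok.mu j hj
    rcases mem_g2 h with ⟨b', rfl⟩ | ⟨b', rfl⟩ | rfl | ⟨b', rfl⟩ | rfl | rfl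
    · exact conj3_valid hl (cp_len hj) (pos_len ho)
    · exact conj3_valid hl (hp_len hj) (pos_len hm)
    · exact conj3_valid (cp_len hj) (hp_len hj) (hp_len hj)
    · exact conj3_valid hl (hp_len hj) (pos_len ho)
    · exact conj3_valid (cp_len hj) (cp_len hj) (cp_len hj)
    · exact conj3_valid (hp_len hj) (hp_len hj) (hp_len hj)
  · unfold Dat.L3 at h
    obtain ⟨j, hj, h⟩ := List.mem_flatMap.1 h
    have hj := List.mem_range.1 hj
    obtain ⟨b, r, rfl⟩ := mem_g3.1 h
    exact conj3_valid hl (pos_len (by omega)) (pos_len (hok.nx j hj))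
  · unfold Dat.L4 at h
    obtain ⟨j, hj, h⟩ := List.mem_flatMap.1 h
    have hj := List.mem_range.1 hj
    obtain ⟨b, r, rfl⟩ := mem_g4.1 h
    exact conj3_valid (pos_len (by omega)) (pos_len (by omega)) (pos_len (by omega))
  · unfold Dat.L5 at h
    obtain ⟨j, hj, h⟩ := List.mem_flatMap.1 h
    have hj := List.mem_range.1 hj
    obtain ⟨b, rfl⟩ := mem_g5.1 h
    exact conj3_valid (pos_len (by omega)) (pos_len (by omega)) (pos_len (by omega))

/-- a circuit without inputs has no gates -/
theorem no_inputs {C : Circuit} (hC : C.Valid) (hn : C.inputs = 0) :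
    C.gates = [] ∧ C.outputs = [] := by
  have h1 : C.gates = [] := by
    cases hg : C.gates with
    | nil => rfl
    | cons g gs =>
      exfalso
      have h2 := hC.1 0 g (by rw [hg]; rfl)
      rw [hn] at h2
      cases g with
      | and a b => have := h2 a (by simp [Gate.reads]); omega
      | or a b => have := h2 a (by simp [Gate.reads]); omega
      | not a => have := h2 a (by simp [Gate.reads]); omega
  refine ⟨h1, ?_⟩
  cases ho : C.outputs with
  | nil => rfl
  | cons o os =>
    exfalso
    have := hC.2 o (by rw [ho]; simp)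
    rw [h1] at this
    simp at this
    omega

/-- Circuit-FLIP reduces to maps given by ANDs of three literals. -/
theorem hard (h : ConjFlip 3) : CircuitFlip := by
  refine Solvable.of_red toT_cdata h poly_red3 poly_post3 ?_ ?_
  · intro C hC
    by_cases hn : C.inputs = 0
    · have : red3 (cdata C) = ⟨0, []⟩ := by
        unfold red3 cdata
        simp only [List.length_replicate]
        rw [if_pos hn]
      rw [this]
      intro T hT
      simp at hT
    · rw [red3_cdata (by omega)]
      exact map_valid (datC_ok hC (by omega))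
  · intro C hC y hy
    by_cases hn : C.inputs = 0
    · have : post3 (cdata C) y = [] := by
        unfold post3 cdata
        simp only [List.length_replicate]
        rw [if_pos hn]
      rw [this]
      exact ⟨by simp [hn], fun i hi => by omega⟩
    · rw [red3_cdata (by omega)] at hy
      have hok := datC_ok hC (by omega)
      obtain ⟨v, w, h1, h2, h3, h4, h5⟩ := locMin hy hok
      have := sem_main hC h2 h3 h4 h5
      have e : post3 (cdata C) y = (List.range C.inputs).map v := by
        unfold post3 cdata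
        simp only [List.length_replicate]
        rw [if_neg hn]
        refine List.map_congr_left fun i hi => ?_
        have hle := hok.le
        have hi := List.mem_range.1 hi
        exact (h1 i (lt_of_lt_of_le hi hle)).symm
      rw [e]
      exact this

end Pool.Agent.Helper80K4
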