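import Pool.Agent.Helper80K4.Defs

/-!
# The cost of a local map with the most significant bits first, and the analysis of local minima
-/

namespace Pool.Agent.Helper80K4

/-! ### Values of bit vectors, the most significant bit first -/

/-- the number with the given binary digits, the most significant digit first -/
def mv : List Bool → ℕ
  | [] => 0
  | b :: l => b.toNat * 2 ^ l.length + mv l

theorem cost_append_one (y : List Bool) (b : Bool) :
    cost (y ++ [b]) = cost y + b.toNat * 2 ^ (y.length + 1) := by
  unfold cost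
  rw [List.length_append, List.length_singleton, Finset.sum_range_succ]
  congr 1
  · refine Finset.sum_congr rfl fun j hj => ?_
    rw [List.getD_append _ _ _ _ (Finset.mem_range.1 hj)]
  · rw [List.getD_append_right _ _ _ _ (le_refl _)]
    simp

theorem cost_reverse (l : List Bool) : cost l.reverse = 2 * mv l := by
  induction l with
  | nil => rfl
  | cons b l ih =>
    rw [List.reverse_cons, cost_append_one, ih, mv, List.length_reverse]
    ring

theorem mv_lt (l : List Bool) : mv l < 2 ^ l.length := by
  induction l with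
  | nil => simp [mv]
  | cons b l ih =>
    rw [mv, List.length_cons, pow_succ]
    have : b.toNat ≤ 1 := Bool.toNat_le b
    nlinarith

theorem mv_append (l l' : List Bool) : mv (l ++ l') = mv l * 2 ^ l'.length + mv l' := by
  induction l with
  | nil => simp [mv]
  | cons b l ih =>
    rw [List.cons_append, mv, mv, ih, List.length_append, pow_add]
    ring

theorem mv_mono {β : Type} (f g : β → Bool) (P : List β) (h : ∀ t ∈ P, f t = true → g t = true) :
    mv (P.map f) ≤ mv (P.map g) := by
  induction P with
  | nil => simp [mv]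
  | cons b l ih =>
    have h1 := ih fun t ht => h t (List.mem_cons_of_mem _ ht)
    have h2 := h b List.mem_cons_self
    simp only [List.map_cons, mv, List.length_map]
    cases hf : f b
    · simp only [Bool.toNat_false]
      nlinarith [Nat.zero_le ((g b).toNat * 2 ^ l.length)]
    · rw [h2 hf]
      omega

theorem improve {β : Type} (f g : β → Bool) (P Q S : List β)
    (hP : ∀ t ∈ P, f t = true → g t = true) (hQ : mv (Q.map f) < mv (Q.map g)) :
    mv ((P ++ Q ++ S).map f) < mv ((P ++ Q ++ S).map g) := by
  simp only [List.map_append, mv_append, List.length_map]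
  have h1 := mv_mono f g P hP
  have h2 := mv_lt (S.map f)
  rw [List.length_map] at h2
  have h3 : mv (P.map f) * 2 ^ Q.length + mv (Q.map f) + 1 ≤
      mv (P.map g) * 2 ^ Q.length + mv (Q.map g) := by
    have := Nat.mul_le_mul_right (2 ^ Q.length) h1
    omega
  have h4 := Nat.mul_le_mul_right (2 ^ S.length) h3
  rw [add_mul, one_mul] at h4
  omega

theorem improve_one {β : Type} (f g : β → Bool) (P S : List β) (o : β)
    (hP : ∀ t ∈ P, f t = true → g t = true) (h1 : f o = false) (h2 : g o = true) :
    mv ((P ++ o :: S).map f) < mv ((P ++ o :: S).map g) := by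
  have := improve f g P [o] S hP (by simp [mv, h1, h2])
  simpa using this

theorem range_flatMap_split {β : Type} (g : ℕ → List β) {N i : ℕ} (h : i < N) :
    ∃ R, (List.range N).flatMap g = (List.range i).flatMap g ++ g i ++ R := by
  obtain ⟨k, rfl⟩ : ∃ k, N = i + 1 + k := ⟨N - (i + 1), by omega⟩
  rw [List.range_add, List.flatMap_append, List.range_succ, List.flatMap_append]
  exact ⟨_, by simp; rfl⟩

/-! ### Bits which are conjunctions of three literals -/

/-- an AND of literals -/
abbrev Cj := List (ℕ × Bool)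

/-- its value -/
abbrev Cj.eval (x : List Bool) (T : Cj) : Bool := conj x T

/-- the conjunction of three literals -/
def conj3 (a : ℕ) (u : Bool) (b : ℕ) (v : Bool) (c : ℕ) (w : Bool) : Cj :=
  [(a, u), (b, v), (c, w)]

theorem conj3_eval (x : List Bool) (a : ℕ) (u : Bool) (b : ℕ) (v : Bool) (c : ℕ) (w : Bool) :
    (conj3 a u b v c w).eval x = true ↔
      x.getD a false = u ∧ x.getD b false = v ∧ x.getD c false = w := by
  unfold conj3 Cj.eval conj
  simp only [List.all_cons, List.all_nil, Bool.and_true, Bool.and_eq_true, beq_iff_eq]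

/-! ### The map -/

/-- a truth table with two inputs -/
abbrev TT := Bool × Bool × Bool × Bool

/-- the value -/
def TT.ev (t : TT) (α β : Bool) : Bool := cond α (cond β t.2.2.2 t.2.2.1) (cond β t.2.1 t.1)

/-- The data of the construction: `n` inputs, `N` nodes, gates, `m` output nodes (the most
significant one first) with `m` further nodes `mu`, and nodes which give the next vector. -/
structure Dat where
  n : ℕ
  N : ℕ
  m : ℕ
  gate : ℕ → ℕ × ℕ × TT
  out : ℕ → ℕ
  mu : ℕ → ℕ
  nx : ℕ → ℕ

/-- validity -/
structure Dat.Ok (d : Dat) : Prop where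
  le : d.n ≤ d.N
  ref1 : ∀ i, d.n ≤ i → i < d.N → (d.gate i).1 < i
  ref2 : ∀ i, d.n ≤ i → i < d.N → (d.gate i).2.1 < i
  out : ∀ r < d.m, d.out r < d.N
  mu : ∀ r < d.m, d.mu r < d.N
  nx : ∀ i < d.n, d.nx i < d.N

/-- the position of the rail `r` of the node `i` of the block `b` -/
def pos (b r : Bool) (i : ℕ) : ℕ := 1 + 4 * i + 2 * b.toNat + r.toNat

theorem pos_inj {b r b' r' : Bool} {i i' : ℕ} (h : pos b r i = pos b' r' i') :
    b = b' ∧ r = r' ∧ i = i' := by
  unfold pos at h
  cases b <;> cases r <;> cases b' <;> cases r' <;> simp at h ⊢ <;> omega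

theorem pos_ne_zero (b r : Bool) (i : ℕ) : pos b r i ≠ 0 := by unfold pos; omega

theorem pos_lt {b r : Bool} {i N : ℕ} (h : i < N) : pos b r i < 1 + 4 * N := by
  unfold pos
  have := Bool.toNat_le b
  have := Bool.toNat_le r
  omega

namespace Dat

variable (d : Dat)

/-- both rails -/
def bP (b : Bool) (i : ℕ) : Cj :=
  conj3 (pos b true i) true (pos b true i) true (pos b false i) true

/-- the gate `i` is wrong, its inputs being `α` and `β` -/
def bK (b : Bool) (i : ℕ) (α β : Bool) : Cj :=
  conj3 (pos b α (d.gate i).1) true (pos b β (d.gate i).2.1) true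
    (pos b (!((d.gate i).2.2.ev α β)) i) true

/-- the holder is undefined -/
def bU (b : Bool) (i : ℕ) : Cj := conj3 0 b (pos b true i) false (pos b false i) false

/-- the follower is not the next vector -/
def bW (b : Bool) (i : ℕ) (r : Bool) : Cj :=
  conj3 0 b (pos (!b) r i) true (pos b (!r) (d.nx i)) true

/-- a defined node after an undefined one -/
def bD (b : Bool) (i : ℕ) (r : Bool) : Cj :=
  conj3 (pos b r (i + 1)) true (pos b true i) false (pos b false i) false

/-- undefined -/
def bZ (b : Bool) (i : ℕ) : Cj :=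
  conj3 (pos b true i) false (pos b true i) false (pos b false i) false

/-- the monotone bits of a node -/
def mono (b : Bool) (i : ℕ) : List Cj :=
  bP b i :: if i < d.n then [] else
    [d.bK b i false false, d.bK b i false true, d.bK b i true false, d.bK b i true true]

/-- the bits of level 1 of a node -/
def g1 (i : ℕ) : List Cj := (d.mono false i ++ d.mono true i) ++ [bU false i, bU true i]

/-- the bits of level 3 of an input -/
def g3 (i : ℕ) : List Cj :=
  [d.bW false i false, d.bW false i true, d.bW true i false, d.bW true i true]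

/-- the bits of level 4 of a node -/
def g4 (i : ℕ) : List Cj := [bD false i false, bD false i true, bD true i false, bD true i true]

/-- the bits of level 5 of a node -/
def g5 (i : ℕ) : List Cj := [bZ false i, bZ true i]

/-- the position of the register bit `r` -/
def cp (r : ℕ) : ℕ := 1 + 4 * d.N + 2 * r

/-- the position of the marker `r` -/
def hp (r : ℕ) : ℕ := 1 + 4 * d.N + 2 * r + 1

/-- the register is smaller than the value of the holder -/
def bk (b : Bool) (r : ℕ) : Cj := conj3 0 b (d.cp r) false (pos b true (d.out r)) true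

/-- the marker is not allowed -/
def bi (b : Bool) (r : ℕ) : Cj := conj3 0 b (d.hp r) true (pos b true (d.mu r)) true

/-- the visible value -/
def ba (r : ℕ) : Cj := conj3 (d.cp r) true (d.hp r) false (d.hp r) false

/-- the holder should change -/
def bt (b : Bool) (r : ℕ) : Cj := conj3 0 b (d.hp r) true (pos b true (d.out r)) true

/-- the register bit -/
def bc (r : ℕ) : Cj := conj3 (d.cp r) true (d.cp r) true (d.cp r) true

/-- the marker -/
def bh (r : ℕ) : Cj := conj3 (d.hp r) true (d.hp r) true (d.hp r) true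

/-- the bits of level 2 for a place of the register -/
def g2 (r : ℕ) : List Cj :=
  [d.bk false r, d.bk true r, d.bi false r, d.bi true r, d.ba r, d.bt false r, d.bt true r,
    d.bc r, d.bh r]

/-- level 1 -/
def L1 : List Cj := (List.range d.N).flatMap d.g1
/-- level 2 -/
def L2 : List Cj := (List.range d.m).flatMap d.g2
/-- level 3 -/
def L3 : List Cj := (List.range d.n).flatMap d.g3
/-- level 4 -/
def L4 : List Cj := (List.range (d.N - 1)).flatMap g4
/-- level 5 -/
def L5 : List Cj := (List.range d.N).flatMap g5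

/-- all bits, the most significant one first -/
def all : List Cj := d.L1 ++ (d.L2 ++ (d.L3 ++ (d.L4 ++ d.L5)))

/-- the number of input bits -/
def len : ℕ := 1 + 4 * d.N + 2 * d.m

/-- the map -/
def map : ConjMap := ⟨d.len, d.all.reverse⟩

end Dat

/-- the rail `r` of node `i` of block `b` -/
def rl (x : List Bool) (b r : Bool) (i : ℕ) : Bool := x.getD (pos b r i) false

/-- `x'` is better than `x` -/
def Better (d : Dat) (x' x : List Bool) : Prop :=
  mv (d.all.map (Cj.eval x')) < mv (d.all.map (Cj.eval x))

theorem not_better {d : Dat} {x : List Bool} (h : IsLocalMin d.map.inputs d.map.eval x) {k : ℕ}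
    (hk : k < d.len) : ¬ Better d (x.modify k not) x := by
  have h1 := h.2 k hk
  unfold ConjMap.eval Dat.map at h1
  simp only [List.map_reverse, cost_reverse] at h1
  change ¬ (mv (d.all.map (conj (x.modify k not))) < mv (d.all.map (conj x)))
  omega

/-! ### Flips -/

theorem getD_modify {x : List Bool} {k : ℕ} (hk : k < x.length) (j : ℕ) :
    (x.modify k not).getD j false = if j = k then !(x.getD j false) else x.getD j false := by
  rw [List.getD_eq_getElem?_getD, List.getElem?_modify, List.getD_eq_getElem?_getD]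
  by_cases h : j = k
  · subst h
    simp [hk]
  · rw [if_neg h]
    have : ¬ (k = j) := fun h' => h h'.symm
    simp [this]

theorem pos_len {d : Dat} {b r : Bool} {i : ℕ} (h : i < d.N) : pos b r i < d.len := by
  have := pos_lt (b := b) (r := r) h
  unfold Dat.len
  omega

theorem cp_len {d : Dat} {r : ℕ} (h : r < d.m) : d.cp r < d.len := by
  unfold Dat.len Dat.cp
  omega

theorem hp_len {d : Dat} {r : ℕ} (h : r < d.m) : d.hp r < d.len := by
  unfold Dat.len Dat.hp
  omega

theorem rl_flip {d : Dat} {x : List Bool} (hx : x.length = d.len) {b r : Bool} {i : ℕ}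
    (hi : i < d.N) (b' r' : Bool) (i' : ℕ) :
    rl (x.modify (pos b r i) not) b' r' i' =
      if b' = b ∧ r' = r ∧ i' = i then !(rl x b r i) else rl x b' r' i' := by
  unfold rl
  rw [getD_modify (by rw [hx]; exact pos_len hi)]
  by_cases h : pos b' r' i' = pos b r i
  · rw [if_pos h, if_pos (pos_inj h), h]
  · rw [if_neg h, if_neg]
    rintro ⟨rfl, rfl, rfl⟩
    exact h rfl

theorem s_flip {d : Dat} {x : List Bool} (hx : x.length = d.len) {b r : Bool} {i : ℕ}
    (hi : i < d.N) : (x.modify (pos b r i) not).getD 0 false = x.getD 0 false := by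
  rw [getD_modify (by rw [hx]; exact pos_len hi), if_neg (pos_ne_zero _ _ _).symm]

/-- other places, when a rail is flipped -/
theorem o_flip {d : Dat} {x : List Bool} (hx : x.length = d.len) {b r : Bool} {i : ℕ}
    (hi : i < d.N) {k : ℕ} (hk : 1 + 4 * d.N ≤ k) :
    (x.modify (pos b r i) not).getD k false = x.getD k false := by
  have := pos_lt (b := b) (r := r) hi
  rw [getD_modify (by rw [hx]; exact pos_len hi), if_neg (by omega)]

/-- rails, when another place is flipped -/
theorem rl_flipo {d : Dat} {x : List Bool} {k : ℕ} (hkx : k < x.length)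
    (hk : k = 0 ∨ 1 + 4 * d.N ≤ k) {b r : Bool} {i : ℕ} (hi : i < d.N) :
    rl (x.modify k not) b r i = rl x b r i := by
  have h1 := pos_lt (b := b) (r := r) hi
  have h2 := pos_ne_zero b r i
  unfold rl
  rw [getD_modify hkx, if_neg (by omega)]

/-! ### The values of the bits -/

theorem eP {x : List Bool} {b : Bool} {i : ℕ} :
    (Dat.bP b i).eval x = true ↔ rl x b true i = true ∧ rl x b false i = true := by
  unfold Dat.bP
  rw [conj3_eval]
  unfold rl
  tauto

theorem eK {d : Dat} {x : List Bool} {b : Bool} {i : ℕ} {α β : Bool} :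
    (d.bK b i α β).eval x = true ↔ rl x b α (d.gate i).1 = true ∧
      rl x b β (d.gate i).2.1 = true ∧ rl x b (!((d.gate i).2.2.ev α β)) i = true :=
  conj3_eval _ _ _ _ _ _ _

theorem eU {x : List Bool} {b : Bool} {i : ℕ} :
    (Dat.bU b i).eval x = true ↔ x.getD 0 false = b ∧ rl x b true i = false ∧
      rl x b false i = false := conj3_eval _ _ _ _ _ _ _

theorem eW {d : Dat} {x : List Bool} {b : Bool} {i : ℕ} {r : Bool} :
    (d.bW b i r).eval x = true ↔ x.getD 0 false = b ∧ rl x (!b) r i = true ∧
      rl x b (!r) (d.nx i) = true := conj3_eval _ _ _ _ _ _ _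

theorem eD {x : List Bool} {b : Bool} {i : ℕ} {r : Bool} :
    (Dat.bD b i r).eval x = true ↔ rl x b r (i + 1) = true ∧ rl x b true i = false ∧
      rl x b false i = false := conj3_eval _ _ _ _ _ _ _

theorem eZ {x : List Bool} {b : Bool} {i : ℕ} :
    (Dat.bZ b i).eval x = true ↔ rl x b true i = false ∧ rl x b false i = false := by
  unfold Dat.bZ
  rw [conj3_eval]
  unfold rl
  tauto

theorem ek {d : Dat} {x : List Bool} {b : Bool} {r : ℕ} :
    (d.bk b r).eval x = true ↔ x.getD 0 false = b ∧ x.getD (d.cp r) false = false ∧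
      rl x b true (d.out r) = true := conj3_eval _ _ _ _ _ _ _

theorem ei {d : Dat} {x : List Bool} {b : Bool} {r : ℕ} :
    (d.bi b r).eval x = true ↔ x.getD 0 false = b ∧ x.getD (d.hp r) false = true ∧
      rl x b true (d.mu r) = true := conj3_eval _ _ _ _ _ _ _

theorem ea {d : Dat} {x : List Bool} {r : ℕ} :
    (d.ba r).eval x = true ↔ x.getD (d.cp r) false = true ∧ x.getD (d.hp r) false = false := by
  unfold Dat.ba
  rw [conj3_eval]
  tauto

theorem et {d : Dat} {x : List Bool} {b : Bool} {r : ℕ} :
    (d.bt b r).eval x = true ↔ x.getD 0 false = b ∧ x.getD (d.hp r) false = true ∧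
      rl x b true (d.out r) = true := conj3_eval _ _ _ _ _ _ _

theorem ec {d : Dat} {x : List Bool} {r : ℕ} :
    (d.bc r).eval x = true ↔ x.getD (d.cp r) false = true := by
  unfold Dat.bc
  rw [conj3_eval]
  tauto

theorem eh {d : Dat} {x : List Bool} {r : ℕ} :
    (d.bh r).eval x = true ↔ x.getD (d.hp r) false = true := by
  unfold Dat.bh
  rw [conj3_eval]
  tauto

theorem mem_g2 {d : Dat} {r : ℕ} {T : Cj} (h : T ∈ d.g2 r) :
    (∃ b, T = d.bk b r) ∨ (∃ b, T = d.bi b r) ∨ T = d.ba r ∨ (∃ b, T = d.bt b r) ∨
      T = d.bc r ∨ T = d.bh r := by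
  unfold Dat.g2 at h
  simp only [List.mem_cons, List.not_mem_nil, or_false] at h
  rcases h with h | h | h | h | h | h | h | h | h
  · exact Or.inl ⟨_, h⟩
  · exact Or.inl ⟨_, h⟩
  · exact Or.inr (Or.inl ⟨_, h⟩)
  · exact Or.inr (Or.inl ⟨_, h⟩)
  · tauto
  · exact Or.inr (Or.inr (Or.inr (Or.inl ⟨_, h⟩)))
  · exact Or.inr (Or.inr (Or.inr (Or.inl ⟨_, h⟩)))
  · tauto
  · tauto

theorem mem_mono {d : Dat} {b : Bool} {i : ℕ} {T : Cj} (h : T ∈ d.mono b i) :
    T = Dat.bP b i ∨ (d.n ≤ i ∧ ∃ α β, T = d.bK b i α β) := by
  unfold Dat.mono at h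
  rcases List.mem_cons.1 h with h | h
  · exact Or.inl h
  · right
    split_ifs at h with h1
    · simp at h
    · refine ⟨by omega, ?_⟩
      simp only [List.mem_cons, List.not_mem_nil, or_false] at h
      rcases h with h | h | h | h
      · exact ⟨_, _, h⟩
      · exact ⟨_, _, h⟩
      · exact ⟨_, _, h⟩
      · exact ⟨_, _, h⟩

theorem bK_mem {d : Dat} {b : Bool} {i : ℕ} (hi : d.n ≤ i) (α β : Bool) :
    d.bK b i α β ∈ d.mono b i := by
  unfold Dat.mono
  rw [if_neg (by omega)]
  cases α <;> cases β <;> simp

/-- all bits of level 1 -/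
theorem mem_g1 {d : Dat} {i : ℕ} {T : Cj} (h : T ∈ d.g1 i) :
    (∃ b, T ∈ d.mono b i) ∨ ∃ b, T = Dat.bU b i := by
  unfold Dat.g1 at h
  simp only [List.mem_append, List.mem_cons, List.not_mem_nil, or_false] at h
  rcases h with (h | h) | (h | h)
  · exact Or.inl ⟨_, h⟩
  · exact Or.inl ⟨_, h⟩
  · exact Or.inr ⟨_, h⟩
  · exact Or.inr ⟨_, h⟩

theorem mem_g3 {d : Dat} {i : ℕ} {T : Cj} : T ∈ d.g3 i ↔ ∃ b r, T = d.bW b i r := by
  unfold Dat.g3
  simp only [List.mem_cons, List.not_mem_nil, or_false]
  constructor
  · rintro (h | h | h | h) <;> exact ⟨_, _, h⟩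
  · rintro ⟨b, r, h⟩
    cases b <;> cases r <;> simp [h]

theorem mem_g4 {i : ℕ} {T : Cj} : T ∈ Dat.g4 i ↔ ∃ b r, T = Dat.bD b i r := by
  unfold Dat.g4
  simp only [List.mem_cons, List.not_mem_nil, or_false]
  constructor
  · rintro (h | h | h | h) <;> exact ⟨_, _, h⟩
  · rintro ⟨b, r, h⟩
    cases b <;> cases r <;> simp [h]

theorem mem_g5 {i : ℕ} {T : Cj} : T ∈ Dat.g5 i ↔ ∃ b, T = Dat.bZ b i := by
  unfold Dat.g5
  simp only [List.mem_cons, List.not_mem_nil, or_false]
  constructor
  · rintro (h | h) <;> exact ⟨_, h⟩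
  · rintro ⟨b, h⟩
    cases b <;> simp [h]

end Pool.Agent.Helper80K4
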