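import Mathlib
import Pool.Agent.NPC.Defs

/-!
# Local search: definitions

Circuit-FLIP and its restriction to maps of bounded locality.
-/

namespace Pool.Agent.Helper80K4

open Pool.Agent.NPC

/-- The cost of a vector `(y_1, ..., y_m)` of output bits: the sum of the numbers `y_j 2^j`. -/
def cost (y : List Bool) : ℕ := ∑ j ∈ Finset.range y.length, (y.getD j false).toNat * 2 ^ (j + 1)

/-- `x` is a local minimum of the cost of the map `F` on the vectors of `n` bits, under changing
one bit. -/
def IsLocalMin (n : ℕ) (F : List Bool → List Bool) (x : List Bool) : Prop :=
  x.length = n ∧ ∀ i < n, cost (F x) ≤ cost (F (x.modify i not))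

/-- A search problem is solvable in polynomial time: `V` is the set of its instances and `R a x`
says that the bit vector `x` is a solution of the instance `a`. A single function, computable in
polynomial time by a Turing machine, gives (the code of) a solution for (the code of) each
instance. -/
def Solvable {α : Type} [TEnc α] (V : α → Prop) (R : α → List Bool → Prop) : Prop :=
  ∃ f : List Bool → List Bool, PolyTime f ∧ ∀ a, V a → ∃ x : List Bool, f (bits a) = bits x ∧ R a x

/-! ### Circuits -/

/-- A gate: an AND, OR or NOT of nodes. -/
inductive Gate : Type
  | and (a b : ℕ) : Gate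
  | or (a b : ℕ) : Gate
  | not (a : ℕ) : Gate

/-- The value of a gate if `v` lists the values of the nodes. -/
def Gate.eval (v : List Bool) : Gate → Bool
  | .and a b => v.getD a false && v.getD b false
  | .or a b => v.getD a false || v.getD b false
  | .not a => !v.getD a false

/-- The nodes which a gate reads. -/
def Gate.reads : Gate → List ℕ
  | .and a b => [a, b]
  | .or a b => [a, b]
  | .not a => [a]

/-- A code of a gate by three numbers. -/
def Gate.code : Gate → ℕ × ℕ × ℕ
  | .and a b => (0, a, b)
  | .or a b => (1, a, b)
  | .not a => (2, a, 0)

theorem Gate.code_injective : Function.Injective Gate.code := by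
  intro g h
  cases g <;> cases h <;> simp [Gate.code]

instance : TEnc Gate := ⟨fun g => toT g.code, fun _ _ h => Gate.code_injective (TEnc.inj h)⟩

/-- A Boolean circuit. The nodes are numbered: `0, ..., inputs - 1` are the inputs, then come the
gates in the given order. The list `outputs` gives the numbers of the output nodes. -/
structure Circuit : Type where
  inputs : ℕ
  gates : List Gate
  outputs : List ℕ

/-- The code of a circuit; the number of inputs is written in unary. -/
instance : TEnc Circuit := ⟨fun C => toT (List.replicate C.inputs (), C.gates, C.outputs), by
  rintro ⟨n, g, o⟩ ⟨n', g', o'⟩ h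
  have h1 := TEnc.inj h
  simp only [Prod.mk.injEq] at h1
  have h2 := congrArg List.length h1.1
  simp only [List.length_replicate] at h2
  rw [h2, h1.2.1, h1.2.2]⟩

namespace Circuit

/-- The values of all nodes, on the input vector `x`. -/
def nodes (C : Circuit) (x : List Bool) : List Bool :=
  C.gates.foldl (fun v g => v ++ [g.eval v]) x

/-- The map computed by the circuit. -/
def eval (C : Circuit) (x : List Bool) : List Bool :=
  C.outputs.map fun o => (C.nodes x).getD o false

/-- A valid circuit: each gate reads inputs or earlier gates, and the outputs are gates. -/
def Valid (C : Circuit) : Prop :=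
  (∀ i g, C.gates[i]? = some g → ∀ a ∈ g.reads, a < C.inputs + i) ∧
  ∀ o ∈ C.outputs, C.inputs ≤ o ∧ o < C.inputs + C.gates.length

end Circuit

/-- Circuit-FLIP is solvable in polynomial time. -/
def CircuitFlip : Prop :=
  Solvable Circuit.Valid fun C => IsLocalMin C.inputs C.eval

/-! ### Maps of bounded locality -/

/-- The position of a vector of bits in a truth table: the number with these binary digits, the
least significant digit first. -/
def index : List Bool → ℕ
  | [] => 0
  | b :: l => b.toNat + 2 * index l

/-- An output bit: the list of the input bits which it reads, and its truth table. -/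
abbrev Bit := List ℕ × List Bool

/-- The value of an output bit. -/
def Bit.eval (x : List Bool) (T : Bit) : Bool :=
  T.2.getD (index (T.1.map fun i => x.getD i false)) false

/-- A map given bit by bit: the number of input bits and the list of the output bits. -/
structure LocalMap : Type where
  inputs : ℕ
  outs : List Bit

/-- The code of a map; the number of inputs is written in unary. -/
instance : TEnc LocalMap := ⟨fun M => toT (List.replicate M.inputs (), M.outs), by
  rintro ⟨n, o⟩ ⟨n', o'⟩ h
  have h1 := TEnc.inj h
  simp only [Prod.mk.injEq] at h1
  have h2 := congrArg List.length h1.1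
  simp only [List.length_replicate] at h2
  rw [h2, h1.2]⟩

/-- The map. -/
def LocalMap.eval (M : LocalMap) (x : List Bool) : List Bool := M.outs.map (Bit.eval x)

/-- The map has locality `k`: each output bit reads at most `k` input bits, and its truth table
has the right length. -/
def LocalMap.Valid (k : ℕ) (M : LocalMap) : Prop :=
  ∀ T ∈ M.outs, T.1.length ≤ k ∧ T.2.length = 2 ^ T.1.length ∧ ∀ i ∈ T.1, i < M.inputs

/-- A map each of whose output bits is an AND of literals: the number of input bits and the list of
the output bits. An output bit is a list of pairs `(i, b)`, and its value is 1 if and only if the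
input bit `i` is equal to `b` for each of these pairs. -/
structure ConjMap : Type where
  inputs : ℕ
  outs : List (List (ℕ × Bool))

/-- The code of such a map; the number of inputs is written in unary. -/
instance : TEnc ConjMap := ⟨fun M => toT (List.replicate M.inputs (), M.outs), by
  rintro ⟨n, o⟩ ⟨n', o'⟩ h
  have h1 := TEnc.inj h
  simp only [Prod.mk.injEq] at h1
  have h2 := congrArg List.length h1.1
  simp only [List.length_replicate] at h2
  rw [h2, h1.2]⟩

/-- The value of an AND of literals. -/
def conj (x : List Bool) (T : List (ℕ × Bool)) : Bool := T.all fun p => x.getD p.1 false == p.2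

/-- The map. -/
def ConjMap.eval (M : ConjMap) (x : List Bool) : List Bool := M.outs.map (conj x)

/-- Each output bit is an AND of at most `k` literals. -/
def ConjMap.Valid (k : ℕ) (M : ConjMap) : Prop :=
  ∀ T ∈ M.outs, T.length ≤ k ∧ ∀ p ∈ T, p.1 < M.inputs

/-- Circuit-FLIP for maps whose output bits are ANDs of at most `k` literals is solvable in
polynomial time. -/
def ConjFlip (k : ℕ) : Prop :=
  Solvable (ConjMap.Valid k) fun M => IsLocalMin M.inputs M.eval

/-- Circuit-FLIP for maps of locality `k` is solvable in polynomial time. -/
def LocalFlip (k : ℕ) : Prop :=
  Solvable (LocalMap.Valid k) fun M => IsLocalMin M.inputs M.eval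

end Pool.Agent.Helper80K4
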