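import Mathlib
import Pool.Agent.H601R2.PP

/-!
# Reachability and 2-SAT in polynomial time
-/

namespace Pool.Agent.Helper80K4

open Relation Pool.Agent.NPC

/-! ### Reachability in a list -/

section

variable {X : Type} [DecidableEq X]

/-- one round -/
def rnd (R : X → X → Bool) (S L : List X) : List X :=
  S.filter (fun y => decide (y ∈ L) || L.any (fun z => R z y))

/-- the members of `S` reachable from `x` in `k` rounds -/
def rit (R : X → X → Bool) (S : List X) (x : X) (k : ℕ) : List X :=
  (rnd R S)^[k] (S.filter (fun y => decide (y = x)))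

/-- the members of `S` reachable from `x` -/
def rch (R : X → X → Bool) (S : List X) (x : X) : List X :=
  (fun L => rnd R S L)^[S.length] (S.filter (fun y => decide (y = x)))

variable {R : X → X → Bool} {S : List X} {x y : X}

theorem rch_eq : rch R S x = rit R S x S.length := rfl

theorem rit_succ (k : ℕ) : rit R S x (k + 1) = rnd R S (rit R S x k) := by
  unfold rit
  rw [Function.iterate_succ', Function.comp_apply]

theorem mem_rnd {L : List X} : y ∈ rnd R S L ↔ y ∈ S ∧ (y ∈ L ∨ ∃ z ∈ L, R z y = true) := by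
  unfold rnd
  simp only [List.mem_filter, Bool.or_eq_true, decide_eq_true_eq, List.any_eq_true]

theorem mem_rit_zero : y ∈ rit R S x 0 ↔ y ∈ S ∧ y = x := by
  unfold rit
  simp only [Function.iterate_zero, id_eq, List.mem_filter, decide_eq_true_eq]

theorem rit_sound (k : ℕ) : ∀ y ∈ rit R S x k,
    x ∈ S ∧ y ∈ S ∧ ReflTransGen (fun a b => R a b = true ∧ b ∈ S) x y := by
  induction k with
  | zero =>
    intro y hy
    obtain ⟨h1, rfl⟩ := mem_rit_zero.1 hy
    exact ⟨h1, h1, .refl⟩
  | succ k ih =>
    intro y hy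
    rw [rit_succ, mem_rnd] at hy
    obtain ⟨hyS, hy | ⟨z, hz, hzy⟩⟩ := hy
    · exact ih y hy
    · obtain ⟨h1, _, h3⟩ := ih z hz
      exact ⟨h1, hyS, h3.tail ⟨hzy, hyS⟩⟩

theorem rit_step (k : ℕ) : ∀ y ∈ rit R S x k, y ∈ rit R S x (k + 1) := by
  intro y hy
  rw [rit_succ, mem_rnd]
  exact ⟨(rit_sound k y hy).2.1, Or.inl hy⟩

/-- the round number `k` is stable -/
def Rst (R : X → X → Bool) (S : List X) (x : X) (k : ℕ) : Prop :=
  ∀ y ∈ rit R S x (k + 1), y ∈ rit R S x k

theorem rst_succ {k : ℕ} (h : Rst R S x k) : Rst R S x (k + 1) := by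
  intro y hy
  rw [rit_succ, mem_rnd] at hy
  rw [rit_succ, mem_rnd]
  obtain ⟨hyS, hy | ⟨z, hz, hzy⟩⟩ := hy
  · exact ⟨hyS, Or.inl (h y hy)⟩
  · exact ⟨hyS, Or.inr ⟨z, h z hz, hzy⟩⟩

theorem rit_card (hx : x ∈ S) (k : ℕ) : Rst R S x k ∨ k + 1 ≤ (rit R S x k).toFinset.card := by
  induction k with
  | zero =>
    right
    have : x ∈ (rit R S x 0).toFinset := by
      rw [List.mem_toFinset, mem_rit_zero]
      exact ⟨hx, rfl⟩
    exact Finset.card_pos.2 ⟨x, this⟩
  | succ k ih =>
    by_cases hst : Rst R S x k
    · exact Or.inl (rst_succ hst)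
    · right
      rcases ih with h | h
      · exact absurd h hst
      · have hlt : (rit R S x k).toFinset ⊂ (rit R S x (k + 1)).toFinset := by
          rw [Finset.ssubset_iff_subset_ne]
          refine ⟨fun y hy => ?_, fun he => hst fun y hy => ?_⟩
          · rw [List.mem_toFinset] at hy ⊢
            exact rit_step k y hy
          · rw [← List.mem_toFinset, ← he, List.mem_toFinset] at hy
            exact hy
        have := Finset.card_lt_card hlt
        omega

theorem rit_stable (hx : x ∈ S) : Rst R S x S.length := by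
  rcases rit_card (R := R) hx S.length with h | h
  · exact h
  · exfalso
    have h1 : (rit R S x S.length).toFinset ⊆ S.toFinset := by
      intro y hy
      rw [List.mem_toFinset] at hy ⊢
      exact (rit_sound _ y hy).2.1
    have h2 := Finset.card_le_card h1
    have h3 := S.toFinset_card_le
    omega

theorem rit_mono (k : ℕ) : ∀ y ∈ rit R S x 0, y ∈ rit R S x k := by
  induction k with
  | zero => exact fun y hy => hy
  | succ k ih => exact fun y hy => rit_step k y (ih y hy)

theorem mem_rch : y ∈ rch R S x ↔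
    x ∈ S ∧ ReflTransGen (fun a b => R a b = true ∧ b ∈ S) x y := by
  rw [rch_eq]
  constructor
  · intro h
    exact ⟨(rit_sound _ y h).1, (rit_sound _ y h).2.2⟩
  · rintro ⟨hx, h⟩
    induction h with
    | refl => exact rit_mono _ _ (mem_rit_zero.2 ⟨hx, rfl⟩)
    | tail _ hbc ih =>
      apply rit_stable hx
      rw [rit_succ, mem_rnd]
      exact ⟨hbc.2, Or.inr ⟨_, ih, hbc.1⟩⟩

end

theorem sz_filter_le {α : Type} [TEnc α] (l : List α) (p : α → Bool) :
    sz (l.filter p) ≤ sz l := by
  induction l with
  | nil => simp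
  | cons a l ih =>
    rw [List.filter_cons]
    split_ifs
    · rw [sz_list_cons, sz_list_cons]; omega
    · rw [sz_list_cons]; omega

theorem poly_rch {α X : Type} [TEnc α] [TEnc X] [DecidableEq X] {R : α → X → X → Bool}
    {S : α → List X} {x : α → X}
    (hR : Poly (fun p : α × X × X => R p.1 p.2.1 p.2.2)) (hS : Poly S) (hx : Poly x) :
    Poly (fun a => rch (R a) (S a) (x a)) := by
  obtain ⟨q, hq⟩ := hS.sz_le
  unfold rch rnd
  refine NPC.Poly.iterLen (l := S) (s := fun a => (S a).filter (fun y => decide (y = x a)))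
    (F := fun a L => (S a).filter (fun y => decide (y ∈ L) || L.any (fun z => R a z y)))
    hS ?_ ?_ q ?_
  · fun_prop
  · fun_prop
  · intro a k _
    cases k with
    | zero => exact (sz_filter_le _ _).trans (hq a)
    | succ k =>
      rw [Function.iterate_succ', Function.comp_apply]
      exact (sz_filter_le _ _).trans (hq a)

/-! ### 2-SAT -/

/-- a literal: a variable and the value which makes the literal true -/
abbrev Lit := ℕ × Bool

/-- the negation -/
def ng (x : Lit) : Lit := (x.1, !x.2)

theorem ng_ng (x : Lit) : ng (ng x) = x := by unfold ng; simp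

theorem ng_ne (x : Lit) : ng x ≠ x := by
  unfold ng
  intro h
  have := congrArg Prod.snd h
  simp at this

/-- a clause of two literals is satisfied -/
def Sat (α : ℕ → Bool) (c : Lit × Lit) : Prop := α c.1.1 = c.1.2 ∨ α c.2.1 = c.2.2

/-- the literals -/
def lits (n : ℕ) : List Lit := (List.range (n + 1)).flatMap fun i => [(i, false), (i, true)]

theorem mem_lits {n : ℕ} {x : Lit} : x ∈ lits n ↔ x.1 ≤ n := by
  unfold lits
  rw [List.mem_flatMap]
  constructor
  · rintro ⟨i, hi, hx⟩
    have := List.mem_range.1 hi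
    simp only [List.mem_cons, List.not_mem_nil, or_false] at hx
    rcases hx with rfl | rfl <;> simp only <;> omega
  · intro h
    refine ⟨x.1, List.mem_range.2 (by omega), ?_⟩
    obtain ⟨i, b⟩ := x
    cases b <;> simp

/-- an implication between literals -/
def imp (cl : List (Lit × Lit)) (x y : Lit) : Bool :=
  decide ((ng x, y) ∈ cl) || decide ((y, ng x) ∈ cl)

/-- the test -/
def sat2 (n : ℕ) (cl : List (Lit × Lit)) : Bool :=
  (lits n).all fun x => !(decide (ng x ∈ rch (imp cl) (lits n) x) &&
    decide (x ∈ rch (imp cl) (lits n) (ng x)))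

end Pool.Agent.Helper80K4
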