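import Pool.Agent.Helper80K4.Core
import Pool.Agent.Helper80K4.Reach
import Pool.Agent.Helper80K4.Search
import Pool.Agent.R553.HP.TwoSat

/-!
# Maps of locality two: a lexicographic minimum by 2-SAT
-/

namespace Pool.Agent.Helper80K4

open Relation Pool.Agent.NPC Pool.Agent.R553.HP

theorem imp_iff {cl : List (Lit × Lit)} {x y : Lit} :
    imp cl x y = true ↔ (ng x, y) ∈ cl ∨ (y, ng x) ∈ cl := by
  unfold imp
  rw [Bool.or_eq_true, decide_eq_true_eq, decide_eq_true_eq]

theorem sat2_iff {n : ℕ} {cl : List (Lit × Lit)} (hcl : ∀ c ∈ cl, c.1.1 ≤ n ∧ c.2.1 ≤ n) :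
    sat2 n cl = true ↔ ∃ α : ℕ → Bool, ∀ c ∈ cl, Sat α c := by
  have h1 := twoSat (S := lits n) (neg := ng) (r := fun x y => imp cl x y = true)
    (fun x hx => by rw [mem_lits] at hx ⊢; exact hx) (fun x _ => ng_ng x) (fun x _ => ng_ne x)
    (by
      intro x _ y _ h
      rw [imp_iff] at h ⊢
      rw [ng_ng]
      tauto)
  have h2 : sat2 n cl = true ↔ ∀ x ∈ lits n, ¬ (Rch (lits n) (fun x y => imp cl x y = true) x (ng x) ∧
      Rch (lits n) (fun x y => imp cl x y = true) (ng x) x) := by
    unfold sat2
    rw [List.all_eq_true]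
    refine forall₂_congr fun x hx => ?_
    have hx' : ng x ∈ lits n := by rw [mem_lits] at hx ⊢; exact hx
    rw [Bool.not_eq_true', Bool.and_eq_false_iff, decide_eq_false_iff_not, decide_eq_false_iff_not,
      mem_rch, mem_rch, not_and_or]
    unfold Rch
    tauto
  rw [h2, ← h1]
  constructor
  · rintro ⟨T, hT1, hT2⟩
    classical
    refine ⟨fun i => decide ((i, true) ∈ T), fun c hc => ?_⟩
    by_contra hcon
    unfold Sat at hcon
    rw [not_or] at hcon
    have key : ∀ l : Lit, l.1 ≤ n → decide ((l.1, true) ∈ T) ≠ l.2 → ng l ∈ T := by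
      rintro ⟨i, b⟩ hi h
      cases b
      · simp only [ne_eq, decide_eq_false_iff_not, not_not] at h
        exact h
      · simp only [ne_eq, decide_eq_true_eq] at h
        have := hT1 (i, true) (mem_lits.2 hi)
        tauto
    have k1 := key c.1 (hcl c hc).1 hcon.1
    have k2 := key c.2 (hcl c hc).2 hcon.2
    refine hT2 (ng c.1) (mem_lits.2 (hcl c hc).1) c.2 (mem_lits.2 (hcl c hc).2) ?_ k1 k2
    rw [imp_iff, ng_ng]
    exact Or.inl hc
  · rintro ⟨α, hα⟩
    refine ⟨{x | α x.1 = x.2}, ?_, ?_⟩
    · intro x _
      simp only [Set.mem_ofPred_eq, ng]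
      cases α x.1 <;> cases x.2 <;> simp
    · intro x _ y _ hxy hx hy
      rw [imp_iff] at hxy
      simp only [Set.mem_ofPred_eq, ng] at hx hy
      have hy' : α y.1 ≠ y.2 := by rw [hy]; cases y.2 <;> simp
      have hx' : α (ng x).1 ≠ (ng x).2 := by
        change α x.1 ≠ !x.2
        rw [hx]; cases x.2 <;> simp
      rcases hxy with h | h
      · rcases hα _ h with h3 | h3
        · exact hx' h3
        · exact hy' h3
      · rcases hα _ h with h3 | h3
        · exact hy' h3
        · exact hx' h3

/-! ### The clauses which say that a bit vanishes -/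

/-- the value of a bit, for an assignment given by a function -/
def bval (α : ℕ → Bool) (T : Bit) : Bool := T.2.getD (index (T.1.map α)) false

/-- the clauses which say that the bit `T` vanishes; `z` is an unused variable -/
def cls (z : ℕ) (T : Bit) : List (Lit × Lit) :=
  if T.1.length = 0 then
    (if T.2.getD 0 false = true then [((z, true), (z, true)), ((z, false), (z, false))] else [])
  else if T.1.length = 1 then
    (if T.2.getD 0 false = true then [((T.1.getD 0 0, true), (T.1.getD 0 0, true))] else []) ++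
    (if T.2.getD 1 false = true then [((T.1.getD 0 0, false), (T.1.getD 0 0, false))] else [])
  else
    (if T.2.getD 0 false = true then [((T.1.getD 0 0, true), (T.1.getD 1 0, true))] else []) ++
    (if T.2.getD 1 false = true then [((T.1.getD 0 0, false), (T.1.getD 1 0, true))] else []) ++
    (if T.2.getD 2 false = true then [((T.1.getD 0 0, true), (T.1.getD 1 0, false))] else []) ++
    (if T.2.getD 3 false = true then [((T.1.getD 0 0, false), (T.1.getD 1 0, false))] else [])

theorem cls_iff {z : ℕ} {T : Bit} (hT : T.1.length ≤ 2) (α : ℕ → Bool) :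
    (∀ c ∈ cls z T, Sat α c) ↔ bval α T = false := by
  obtain ⟨l, t⟩ := T
  match l, hT with
  | [], _ =>
    unfold cls bval Sat
    simp only [List.length_nil, if_true, List.map_nil, index]
    cases t.getD 0 false
    · simp
    · cases hz : α z <;> simp [hz]
  | [a], _ =>
    unfold cls bval Sat
    simp only [List.length_singleton, one_ne_zero, if_false, if_true, List.map_cons, List.map_nil,
      index, List.getD_cons_zero]
    cases ha : α a <;> cases h0 : t.getD 0 false <;> cases h1 : t.getD 1 false <;>
      simp [ha, h0, h1, -List.getD_eq_getElem?_getD]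
  | [a, b], _ =>
    unfold cls bval Sat
    simp only [List.length_cons, List.length_nil, List.map_cons, List.map_nil,
      index, List.getD_cons_zero, List.getD_cons_succ]
    cases ha : α a <;> cases hb : α b <;> cases h0 : t.getD 0 false <;>
      cases h1 : t.getD 1 false <;> cases h2 : t.getD 2 false <;> cases h3 : t.getD 3 false <;>
      simp [ha, hb, h0, h1, h2, h3, -List.getD_eq_getElem?_getD]
  | _ :: _ :: _ :: _, h => simp at h

theorem cls_le {z : ℕ} {T : Bit} (hT : ∀ i ∈ T.1, i < z) : ∀ c ∈ cls z T, c.1.1 ≤ z ∧ c.2.1 ≤ z := by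
  have h : ∀ k, T.1.getD k 0 ≤ z := by
    intro k
    by_cases hk : k < T.1.length
    · rw [List.getD_eq_getElem _ _ hk]
      exact (hT _ (List.getElem_mem hk)).le
    · rw [List.getD_eq_default _ _ (by omega)]
      omega
  intro c hc
  have h0 := h 0
  have h1 := h 1
  unfold cls at hc
  split_ifs at hc <;>
    simp only [List.append_nil, List.nil_append, List.cons_append, List.mem_cons, List.not_mem_nil,
      or_false] at hc <;>
    (try rcases hc with hc | hc | hc | hc) <;> (try rcases hc with hc | hc | hc) <;>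
    (try subst hc) <;> simp only <;> omega

/-! ### The greedy algorithm -/

/-- the greedy algorithm: the bits are made zero if this is possible, in the given order -/
def greedy (z : ℕ) (Ts : List Bit) (Φ : List (Lit × Lit)) : List (Lit × Lit) :=
  Ts.foldl (fun Φ T => if sat2 z (Φ ++ cls z T) = true then Φ ++ cls z T else Φ) Φ

theorem greedy_sub (z : ℕ) (Ts : List Bit) (Φ : List (Lit × Lit)) : Φ ⊆ greedy z Ts Φ := by
  induction Ts generalizing Φ with
  | nil => exact fun _ h => h
  | cons T Ts ih =>
    unfold greedy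
    rw [List.foldl_cons]
    split_ifs
    · exact fun c hc => ih _ (List.mem_append_left _ hc)
    · exact ih _

theorem greedy_sub2 (z : ℕ) (Ts : List Bit) (Φ : List (Lit × Lit)) :
    (greedy z Ts Φ).Sublist (Φ ++ Ts.flatMap (cls z)) := by
  induction Ts generalizing Φ with
  | nil =>
    simp [greedy]
  | cons T Ts ih =>
    unfold greedy
    rw [List.foldl_cons, List.flatMap_cons]
    split_ifs
    · have := ih (Φ ++ cls z T)
      rwa [List.append_assoc] at this
    · refine (ih Φ).trans (List.Sublist.append_left ?_ Φ)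
      exact List.sublist_append_right _ _

/-- the greedy algorithm keeps satisfiability -/
theorem greedy_sat {z : ℕ} {Ts : List Bit} (hT : ∀ T ∈ Ts, T.1.length ≤ 2 ∧ ∀ i ∈ T.1, i < z)
    {Φ : List (Lit × Lit)} (hΦ : ∀ c ∈ Φ, c.1.1 ≤ z ∧ c.2.1 ≤ z)
    (h : ∃ α : ℕ → Bool, ∀ c ∈ Φ, Sat α c) : ∃ α : ℕ → Bool, ∀ c ∈ greedy z Ts Φ, Sat α c := by
  induction Ts generalizing Φ with
  | nil => exact h
  | cons T Ts ih =>
    have hT' := hT T List.mem_cons_self
    have ih' := fun {Φ} => ih (fun T hT'' => hT T (List.mem_cons_of_mem _ hT'')) (Φ := Φ)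
    unfold greedy
    rw [List.foldl_cons]
    have hb : ∀ c ∈ Φ ++ cls z T, c.1.1 ≤ z ∧ c.2.1 ≤ z := by
      intro c hc
      rcases List.mem_append.1 hc with hc | hc
      · exact hΦ c hc
      · exact cls_le hT'.2 c hc
    split_ifs with hs
    · exact ih' hb ((sat2_iff hb).1 hs)
    · exact ih' hΦ h

/-- Solutions of the final clauses are lexicographically minimal. -/
theorem greedy_min {z : ℕ} {Ts : List Bit} (hT : ∀ T ∈ Ts, T.1.length ≤ 2 ∧ ∀ i ∈ T.1, i < z)
    {Φ : List (Lit × Lit)} (hΦ : ∀ c ∈ Φ, c.1.1 ≤ z ∧ c.2.1 ≤ z) {α β : ℕ → Bool}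
    (hα : ∀ c ∈ greedy z Ts Φ, Sat α c) (hβ : ∀ c ∈ Φ, Sat β c) :
    mv (Ts.map (bval α)) ≤ mv (Ts.map (bval β)) := by
  induction Ts generalizing Φ with
  | nil => exact le_rfl
  | cons T Ts ih =>
    have hT' := hT T List.mem_cons_self
    have ih' := fun {Φ} => ih (fun T hT'' => hT T (List.mem_cons_of_mem _ hT'')) (Φ := Φ)
    have hb : ∀ c ∈ Φ ++ cls z T, c.1.1 ≤ z ∧ c.2.1 ≤ z := by
      intro c hc
      rcases List.mem_append.1 hc with hc | hc
      · exact hΦ c hc
      · exact cls_le hT'.2 c hc
    unfold greedy at hα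
    rw [List.foldl_cons] at hα
    rw [List.map_cons, List.map_cons, mv, mv]
    simp only [List.length_map]
    split_ifs at hα with hs
    · have h0 : bval α T = false := (cls_iff hT'.1 α).1 fun c hc =>
        hα c (greedy_sub z Ts _ (List.mem_append_right _ hc))
      rw [h0]
      cases h1 : bval β T
      · have := ih' hb hα (fun c hc => by
          rcases List.mem_append.1 hc with hc | hc
          · exact hβ c hc
          · exact (cls_iff (z := z) hT'.1 β).2 h1 c hc)
        simpa using this
      · have := mv_lt (Ts.map (bval α))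
        rw [List.length_map] at this
        simp only [Bool.toNat_false, Bool.toNat_true]
        omega
    · have hno : ∀ γ : ℕ → Bool, (∀ c ∈ Φ, Sat γ c) → bval γ T = true := by
        intro γ hγ
        by_contra hcon
        rw [Bool.not_eq_true] at hcon
        apply hs
        rw [sat2_iff hb]
        refine ⟨γ, fun c hc => ?_⟩
        rcases List.mem_append.1 hc with hc | hc
        · exact hγ c hc
        · exact (cls_iff (z := z) hT'.1 γ).2 hcon c hc
      rw [hno α (fun c hc => hα c (greedy_sub z Ts _ hc)), hno β hβ]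
      have := ih' hΦ hα hβ
      omega

/-! ### The algorithm -/

/-- the bit which is equal to the input bit `i` -/
def unit (i : ℕ) : Bit := ([i], [false, true])

theorem bval_unit (α : ℕ → Bool) (i : ℕ) : bval α (unit i) = α i := by
  unfold bval unit
  simp only [List.map_cons, List.map_nil, index]
  cases α i <;> rfl

/-- the clauses which are kept -/
def kept (n : ℕ) (o : List Bit) : List (Lit × Lit) :=
  greedy n (o.reverse ++ (List.range n).map unit) []

/-- the solution -/
def solve2 (c : List Unit × List Bit) : List Bool :=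
  (List.range c.1.length).map fun i => !(sat2 c.1.length (kept c.1.length c.2 ++
    cls c.1.length (unit i)))

theorem mv_inj : ∀ l l' : List Bool, l.length = l'.length → mv l = mv l' → l = l'
  | [], [], _, _ => rfl
  | [], _ :: _, h, _ => by simp at h
  | _ :: _, [], h, _ => by simp at h
  | b :: l, b' :: l', h, h' => by
    have hl : l.length = l'.length := by simpa using h
    have h1 := mv_lt l
    have h2 := mv_lt l'
    rw [mv, mv, hl] at h'
    rw [hl] at h1
    have hb : b = b' := by
      cases b <;> cases b' <;> simp at h' ⊢ <;> omega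
    subst hb
    rw [mv_inj l l' hl (by omega)]

theorem bval_congr {α β : ℕ → Bool} {T : Bit} (h : ∀ i ∈ T.1, α i = β i) : bval α T = bval β T := by
  unfold bval
  rw [List.map_congr_left h]

theorem solve2_spec {M : LocalMap} (hM : LocalMap.Valid 2 M) :
    IsLocalMin M.inputs M.eval (solve2 (List.replicate M.inputs (), M.outs)) := by
  obtain ⟨n, o⟩ := M
  have hM' : ∀ T ∈ o, T.1.length ≤ 2 ∧ ∀ i ∈ T.1, i < n := fun T hT =>
    ⟨(hM T hT).1, (hM T hT).2.2⟩
  obtain ⟨Ts, hTs⟩ : ∃ Ts, Ts = o.reverse ++ (List.range n).map unit := ⟨_, rfl⟩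
  have hT : ∀ T ∈ Ts, T.1.length ≤ 2 ∧ ∀ i ∈ T.1, i < n := by
    intro T hT
    rw [hTs] at hT
    rcases List.mem_append.1 hT with h | h
    · exact hM' T (List.mem_reverse.1 h)
    · obtain ⟨i, hi, rfl⟩ := List.mem_map.1 h
      have := List.mem_range.1 hi
      unfold unit
      simp [this]
  have hu : ∀ i < n, unit i ∈ Ts := fun i hi => by
    rw [hTs]
    exact List.mem_append_right _ (List.mem_map.2 ⟨i, List.mem_range.2 hi, rfl⟩)
  obtain ⟨α, hα⟩ : ∃ α : ℕ → Bool, ∀ c ∈ greedy n Ts [], Sat α c :=
    greedy_sat hT (by simp) ⟨fun _ => false, by simp⟩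
  have hb : ∀ c ∈ greedy n Ts [], c.1.1 ≤ n ∧ c.2.1 ≤ n := by
    intro c hc
    have := (greedy_sub2 n Ts []).subset hc
    rw [List.nil_append] at this
    obtain ⟨T, hT', hc'⟩ := List.mem_flatMap.1 this
    exact cls_le (hT T hT').2 c hc'
  have hx : solve2 (List.replicate n (), o) = (List.range n).map α := by
    unfold solve2 kept
    simp only [List.length_replicate]
    rw [← hTs]
    refine List.map_congr_left fun i hi => ?_
    have hi := List.mem_range.1 hi
    have hb' : ∀ c ∈ greedy n Ts [] ++ cls n (unit i), c.1.1 ≤ n ∧ c.2.1 ≤ n := by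
      intro c hc
      rcases List.mem_append.1 hc with hc | hc
      · exact hb c hc
      · exact cls_le (hT _ (hu i hi)).2 c hc
    cases hαi : α i
    · rw [Bool.not_eq_false', sat2_iff hb']
      refine ⟨α, fun c hc => ?_⟩
      rcases List.mem_append.1 hc with hc | hc
      · exact hα c hc
      · exact (cls_iff (z := n) (hT _ (hu i hi)).1 α).2 (by rw [bval_unit, hαi]) c hc
    · rw [Bool.not_eq_true', ← Bool.not_eq_true, sat2_iff hb']
      rintro ⟨β, hβ⟩
      have h1 := greedy_min hT (Φ := []) (by simp) (α := α) (β := β) hα (by simp)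
      have h2 := greedy_min hT (Φ := []) (by simp) (α := β) (β := α)
        (fun c hc => hβ c (List.mem_append_left _ hc)) (by simp)
      have h3 := mv_inj _ _ (by simp) (le_antisymm h1 h2)
      have h4 := List.map_inj_left.1 h3 _ (hu i hi)
      rw [bval_unit, bval_unit, hαi] at h4
      have h5 := (cls_iff (z := n) (hT _ (hu i hi)).1 β).1
        (fun c hc => hβ c (List.mem_append_right _ hc))
      rw [bval_unit, ← h4] at h5
      exact absurd h5 (by simp)
  rw [hx]
  refine ⟨by simp, fun i _ => ?_⟩
  -- compare with any vector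
  have hcost : ∀ y : List Bool, cost (LocalMap.eval ⟨n, o⟩ y) =
      2 * mv (o.reverse.map (bval fun i => y.getD i false)) := by
    intro y
    rw [← cost_reverse, ← List.map_reverse, List.reverse_reverse]
    rfl
  rw [hcost, hcost]
  have e : o.reverse.map (bval fun i => ((List.range n).map α).getD i false) =
      o.reverse.map (bval α) := by
    refine List.map_congr_left fun T hT' => bval_congr fun i hi => ?_
    have := (hM' T (List.mem_reverse.1 hT')).2 i hi
    rw [List.getD_eq_getElem?_getD, List.getElem?_map, List.getElem?_range this]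
    rfl
  rw [e]
  refine Nat.mul_le_mul_left _ (greedy_min (z := n) (Φ := []) ?_ (by simp) ?_ (by simp))
  · intro T hT'
    exact hM' T (List.mem_reverse.1 hT')
  · intro c hc
    refine hα c ?_
    rw [hTs]
    unfold greedy at hc ⊢
    rw [List.foldl_append]
    exact greedy_sub n _ _ hc

/-! ### Polynomial time -/

section

variable {α : Type} [TEnc α]

theorem sz_sublist {β : Type} [TEnc β] {l l' : List β} (h : l.Sublist l') : sz l ≤ sz l' := by
  induction h with
  | slnil => exact le_rfl
  | cons a _ ih => rw [sz_list_cons]; omega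
  | cons_cons a _ ih => rw [sz_list_cons, sz_list_cons]; omega

theorem poly_ng {x : α → Lit} (hx : Poly x) : Poly (fun a => ng (x a)) := by
  unfold ng
  fun_prop

theorem poly_imp {cl : α → List (Lit × Lit)} {x y : α → Lit} (hc : Poly cl) (hx : Poly x)
    (hy : Poly y) : Poly (fun a => imp (cl a) (x a) (y a)) := by
  have := poly_ng hx
  unfold imp
  fun_prop

theorem poly_lits {n : α → ℕ} (hn : UPoly n) : Poly (fun a => lits (n a)) := by
  unfold lits
  have h1 : Poly (fun a => List.range (n a + 1)) := (hn.add (UPoly.const 1)).range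
  exact Poly.flatMap (F := fun _ i => [(i, false), (i, true)]) h1 (by fun_prop)

theorem poly_sat2 {n : α → ℕ} {cl : α → List (Lit × Lit)} (hn : UPoly n) (hc : Poly cl) :
    Poly (fun a => sat2 (n a) (cl a)) := by
  unfold sat2
  refine Poly.all (p := fun a x => !(decide (ng x ∈ rch (imp (cl a)) (lits (n a)) x) &&
    decide (x ∈ rch (imp (cl a)) (lits (n a)) (ng x)))) (poly_lits hn) ?_
  have h1 : Poly (fun p : α × Lit => lits (n p.1)) := (poly_lits hn).comp (by fun_prop)
  have h2 : Poly (fun p : (α × Lit) × Lit × Lit => imp (cl p.1.1) p.2.1 p.2.2) :=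
    poly_imp (by fun_prop) (by fun_prop) (by fun_prop)
  have h3 : Poly (fun p : α × Lit => ng p.2) := poly_ng (by fun_prop)
  refine Poly.not (Poly.and (Poly.dec_mem h3 (poly_rch (R := fun p : α × Lit => imp (cl p.1))
    (S := fun p => lits (n p.1)) (x := fun p => p.2) h2 h1 (by fun_prop)))
    (Poly.dec_mem (by fun_prop) (poly_rch (R := fun p : α × Lit => imp (cl p.1))
    (S := fun p => lits (n p.1)) (x := fun p => ng p.2) h2 h1 h3)))

theorem poly_cls {z : α → ℕ} {T : α → Bit} (hz : Poly z) (hT : Poly T) :
    Poly (fun a => cls (z a) (T a)) := by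
  unfold cls
  fun_prop

theorem poly_greedy {z : α → ℕ} {Ts : α → List Bit} (hz : UPoly z) (hT : Poly Ts) :
    Poly (fun a => greedy (z a) (Ts a) []) := by
  have h1 : Poly (fun a => (Ts a).flatMap (cls (z a))) :=
    Poly.flatMap (F := fun a T => cls (z a) T) hT
      (poly_cls (z := fun p : α × Bit => z p.1) (hz.toPoly.comp (by fun_prop)) (by fun_prop))
  obtain ⟨q, hq⟩ := h1.sz_le
  unfold greedy
  refine Poly.foldl (F := fun a Φ T => if sat2 (z a) (Φ ++ cls (z a) T) = true then
    Φ ++ cls (z a) T else Φ) hT (NPC.Poly.const _) ?_ q ?_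
  · have h2 : Poly (fun p : α × List (Lit × Lit) × Bit => cls (z p.1) p.2.2) :=
      poly_cls (hz.toPoly.comp (by fun_prop)) (by fun_prop)
    have h3 : Poly (fun p : α × List (Lit × Lit) × Bit => p.2.1 ++ cls (z p.1) p.2.2) :=
      Poly.append (by fun_prop) h2
    have h4 := poly_sat2 (n := fun p : α × List (Lit × Lit) × Bit => z p.1)
      (hz.comp (by fun_prop)) h3
    refine Poly.ite ?_ h3 (by fun_prop)
    exact Poly.decide_bool h4
  · intro a k _
    have h5 := greedy_sub2 (z a) ((Ts a).take k) []
    rw [List.nil_append] at h5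
    refine (sz_sublist (h5.trans ?_)).trans (hq a)
    obtain ⟨r, hr⟩ := List.take_prefix k (Ts a)
    conv_rhs => rw [← hr]
    rw [List.flatMap_append]
    exact List.sublist_append_left _ _

theorem poly_solve2 : Poly solve2 := by
  have hn : UPoly (fun p : List Unit × List Bit => p.1.length) := UPoly.length (by fun_prop)
  have hU : Poly (fun p : List Unit × List Bit => (List.range p.1.length).map unit) := by
    refine NPC.Poly.map (F := fun (_ : List Unit × List Bit) i => unit i) hn.range ?_
    unfold unit
    fun_prop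
  have hk : Poly (fun p : List Unit × List Bit => kept p.1.length p.2) := by
    unfold kept
    exact poly_greedy hn (Poly.append (by fun_prop) hU)
  have hu : Poly (fun p : (List Unit × List Bit) × ℕ => unit p.2) := by
    unfold unit
    fun_prop
  unfold solve2
  refine NPC.Poly.map (F := fun (p : List Unit × List Bit) i => !(sat2 p.1.length
    (kept p.1.length p.2 ++ cls p.1.length (unit i)))) hn.range ?_
  refine Poly.not (poly_sat2 (hn.comp (by fun_prop)) (Poly.append (hk.comp (by fun_prop))
    (poly_cls (by fun_prop) hu)))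

end

theorem toT_lmap (M : LocalMap) : toT M = toT (List.replicate M.inputs (), M.outs) := rfl

/-- Maps of locality at most two are easy. -/
theorem easy {k : ℕ} (hk : k ≤ 2) : LocalFlip k := by
  refine solvable_of_poly toT_lmap poly_solve2 fun M hM => ?_
  refine solve2_spec fun T hT => ?_
  obtain ⟨h1, h2⟩ := hM T hT
  exact ⟨by omega, h2⟩

end Pool.Agent.Helper80K4
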