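import Pool.Agent.Helper80K4.Core

/-!
# The analysis of the local minima of the map
-/

namespace Pool.Agent.Helper80K4

section

variable {d : Dat} {x : List Bool}

/-- Improvement at one bit. -/
theorem better_of {x' : List Bool} {P S : List Cj} {o : Cj} (he : d.all = P ++ o :: S)
    (hP : ∀ t ∈ P, t.eval x' = true → t.eval x = true) (h1 : o.eval x' = false)
    (h2 : o.eval x = true) : Better d x' x := by
  unfold Better
  rw [he]
  exact improve_one _ _ P S o hP h1 h2

/-- Monotone bits, when rails are only turned off. -/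
theorem mono_off {x' : List Bool} (h : ∀ b r i, rl x' b r i = true → rl x b r i = true) {b : Bool}
    {i : ℕ} {T : Cj} (hT : T ∈ d.mono b i) (hT' : T.eval x' = true) : T.eval x = true := by
  rcases mem_mono hT with rfl | ⟨_, α, β, rfl⟩
  · rw [eP] at hT' ⊢
    exact ⟨h _ _ _ hT'.1, h _ _ _ hT'.2⟩
  · rw [eK] at hT' ⊢
    exact ⟨h _ _ _ hT'.1, h _ _ _ hT'.2.1, h _ _ _ hT'.2.2⟩

theorem off_le {b r : Bool} {i : ℕ} (hx : x.length = d.len) (hi : i < d.N)
    (hr : rl x b r i = true) (b' r' : Bool) (i' : ℕ)
    (h : rl (x.modify (pos b r i) not) b' r' i' = true) : rl x b' r' i' = true := by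
  rw [rl_flip hx hi] at h
  split_ifs at h with h1
  · rw [hr] at h; simp at h
  · exact h

/-- The bits of level 1 of smaller nodes do not increase when a rail of a node is turned off. -/
theorem g1_off_lt {b r : Bool} {i j : ℕ} (hx : x.length = d.len) (hi : i < d.N)
    (hr : rl x b r i = true) (hj : j ≠ i) {T : Cj} (hT : T ∈ d.g1 j)
    (hT' : T.eval (x.modify (pos b r i) not) = true) : T.eval x = true := by
  rcases mem_g1 hT with ⟨b', hT⟩ | ⟨b', rfl⟩
  · exact mono_off (off_le hx hi hr) hT hT'
  · rw [eU, s_flip hx hi, rl_flip hx hi, rl_flip hx hi] at hT'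
    rw [eU]
    rwa [if_neg (by tauto), if_neg (by tauto)] at hT'

/-- All bits of level 1 do not increase when a rail of the follower is turned off. -/
theorem L1_off {b r : Bool} {i : ℕ} (hx : x.length = d.len) (hi : i < d.N)
    (hr : rl x b r i = true) (hb : b ≠ x.getD 0 false) {T : Cj} (hT : T ∈ d.L1)
    (hT' : T.eval (x.modify (pos b r i) not) = true) : T.eval x = true := by
  unfold Dat.L1 at hT
  obtain ⟨j, _, hT⟩ := List.mem_flatMap.1 hT
  rcases mem_g1 hT with ⟨b', hT⟩ | ⟨b', rfl⟩
  · exact mono_off (off_le hx hi hr) hT hT'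
  · rw [eU, s_flip hx hi, rl_flip hx hi, rl_flip hx hi] at hT'
    rw [eU]
    have h1 : b' ≠ b := fun h => hb (h ▸ hT'.1.symm)
    rwa [if_neg (by tauto), if_neg (by tauto)] at hT'

/-- Level 2 is not changed by a change of the follower. -/
theorem L2_off {b r : Bool} {i : ℕ} (hx : x.length = d.len) (hi : i < d.N)
    (hb : b ≠ x.getD 0 false) {T : Cj} (hT : T ∈ d.L2)
    (hT' : T.eval (x.modify (pos b r i) not) = true) : T.eval x = true := by
  unfold Dat.L2 at hT
  obtain ⟨q, hq, hT⟩ := List.mem_flatMap.1 hT
  have hq := List.mem_range.1 hq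
  have h1 : ∀ k, (x.modify (pos b r i) not).getD (1 + 4 * d.N + k) false =
      x.getD (1 + 4 * d.N + k) false := fun k => o_flip hx hi (by omega)
  have hc : (x.modify (pos b r i) not).getD (d.cp q) false = x.getD (d.cp q) false := h1 _
  have hh : (x.modify (pos b r i) not).getD (d.hp q) false = x.getD (d.hp q) false :=
    h1 (2 * q + 1)
  rcases mem_g2 hT with ⟨b', rfl⟩ | ⟨b', rfl⟩ | rfl | ⟨b', rfl⟩ | rfl | rfl
  · rw [ek, s_flip hx hi, hc, rl_flip hx hi] at hT'
    rw [ek]
    have hbb : b' ≠ b := fun h => hb (h ▸ hT'.1.symm)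
    rwa [if_neg (by tauto)] at hT'
  · rw [ei, s_flip hx hi, hh, rl_flip hx hi] at hT'
    rw [ei]
    have hbb : b' ≠ b := fun h => hb (h ▸ hT'.1.symm)
    rwa [if_neg (by tauto)] at hT'
  · rw [ea, hc, hh] at hT'
    rwa [ea]
  · rw [et, s_flip hx hi, hh, rl_flip hx hi] at hT'
    rw [et]
    have hbb : b' ≠ b := fun h => hb (h ▸ hT'.1.symm)
    rwa [if_neg (by tauto)] at hT'
  · rw [ec, hc] at hT'
    rwa [ec]
  · rw [eh, hh] at hT'
    rwa [eh]

/-- The bits of level 3 do not increase when a rail is turned off. -/
theorem L3_off {b r : Bool} {i : ℕ} (hx : x.length = d.len) (hi : i < d.N)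
    (hr : rl x b r i = true) {T : Cj} (hT : T ∈ d.L3)
    (hT' : T.eval (x.modify (pos b r i) not) = true) : T.eval x = true := by
  unfold Dat.L3 at hT
  obtain ⟨j, _, hT⟩ := List.mem_flatMap.1 hT
  obtain ⟨b', r', rfl⟩ := mem_g3.1 hT
  rw [eW, s_flip hx hi] at hT'
  rw [eW]
  exact ⟨hT'.1, off_le hx hi hr _ _ _ hT'.2.1, off_le hx hi hr _ _ _ hT'.2.2⟩

variable (hmin : IsLocalMin d.map.inputs d.map.eval x) (hok : d.Ok)

include hmin

theorem len : x.length = d.len := hmin.1

/-- Step 1: no monotone bit of level 1. -/
theorem step1 {b : Bool} {i : ℕ} (hi : i < d.N) {T : Cj} (hT : T ∈ d.mono b i) :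
    T.eval x = false := by
  by_contra hT'
  rw [Bool.not_eq_false] at hT'
  have hx := len hmin
  obtain ⟨r, hr, hr'⟩ : ∃ r, rl x b r i = true ∧ T.eval (x.modify (pos b r i) not) = false := by
    rcases mem_mono hT with rfl | ⟨_, α, β, rfl⟩
    · rw [eP] at hT'
      refine ⟨true, hT'.1, ?_⟩
      rw [← Bool.not_eq_true, eP, rl_flip hx hi, if_pos ⟨rfl, rfl, rfl⟩, hT'.1]
      simp
    · rw [eK] at hT'
      refine ⟨_, hT'.2.2, ?_⟩
      rw [← Bool.not_eq_true, eK, rl_flip hx hi _ (!((d.gate i).2.2.ev α β)) i,
        if_pos ⟨rfl, rfl, rfl⟩, hT'.2.2]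
      simp
  obtain ⟨R, hR⟩ := range_flatMap_split d.g1 hi
  obtain ⟨M1, M2, hM⟩ : ∃ M1 M2, d.mono false i ++ d.mono true i = M1 ++ T :: M2 :=
    List.append_of_mem (by cases b <;> simp [hT])
  refine not_better hmin (k := pos b r i) (pos_len hi) (better_of (x := x)
    (P := (List.range i).flatMap d.g1 ++ M1)
    (S := M2 ++ ([Dat.bU false i, Dat.bU true i] ++ (R ++ (d.L2 ++ (d.L3 ++ (d.L4 ++ d.L5))))))
    (o := T) ?_ ?_ hr' hT')
  · unfold Dat.all
    rw [Dat.L1, hR, Dat.g1, hM]
    simp only [List.append_assoc, List.cons_append]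
  · intro t ht ht'
    rcases List.mem_append.1 ht with ht | ht
    · obtain ⟨j, hj, ht⟩ := List.mem_flatMap.1 ht
      exact g1_off_lt hx hi hr (by have := List.mem_range.1 hj; omega) ht ht'
    · have : t ∈ d.mono false i ++ d.mono true i := by rw [hM]; simp [ht]
      rcases List.mem_append.1 this with h | h
      · exact mono_off (off_le hx hi hr) h ht'
      · exact mono_off (off_le hx hi hr) h ht'

include hok

/-- Turning on a rail of a node whose two rails are off: the monotone bits of level 1, provided
that the rail is the right one. -/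
theorem mono_on {b : Bool} {i : ℕ} (hi : i < d.N)
    (hlt : ∀ j < i, rl x b false j = !(rl x b true j))
    (hoff : ∀ r, rl x b r i = false) (r : Bool)
    (hr : d.n ≤ i → r = (d.gate i).2.2.ev (rl x b true (d.gate i).1) (rl x b true (d.gate i).2.1))
    {b' : Bool} {j : ℕ} (hj : j ≤ i ∨ (b' = b → ∀ r, rl x b r j = false)) (hjN : j < d.N)
    {T : Cj} (hT : T ∈ d.mono b' j) : T.eval (x.modify (pos b r i) not) = false := by
  have hx := len hmin
  rw [← Bool.not_eq_true]
  intro hT'
  have h0 := step1 hmin hjN hT
  rw [← Bool.not_eq_true] at h0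
  have hlt' : ∀ j < i, ∀ α, rl x b α j = true → rl x b true j = α := by
    intro j hj α hα
    cases α
    · have := hlt j hj
      rw [hα] at this
      cases h : rl x b true j
      · rfl
      · rw [h] at this; simp at this
    · exact hα
  by_cases hji : i < j
  · -- a larger node
    by_cases hb : b' = b
    · subst hb
      have hoffj : ∀ r', rl (x.modify (pos b' r i) not) b' r' j = false := by
        intro r'
        rw [rl_flip hx hi, if_neg (by omega)]
        rcases hj with hj | hj
        · omega
        · exact hj rfl r'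
      rcases mem_mono hT with rfl | ⟨_, α, β, rfl⟩
      · rw [eP, hoffj] at hT'
        simp at hT'
      · rw [eK, hoffj] at hT'
        simp at hT'
    · apply h0
      rcases mem_mono hT with rfl | ⟨_, α, β, rfl⟩
      · rw [eP, rl_flip hx hi, rl_flip hx hi, if_neg (by tauto), if_neg (by tauto)] at hT'
        rwa [eP]
      · rw [eK, rl_flip hx hi, rl_flip hx hi, rl_flip hx hi, if_neg (by tauto), if_neg (by tauto),
          if_neg (by tauto)] at hT'
        rwa [eK]
  · rcases mem_mono hT with rfl | ⟨hn, α, β, rfl⟩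
    · rw [eP, rl_flip hx hi, rl_flip hx hi] at hT'
      rw [eP] at h0
      by_cases hbj : b' = b ∧ j = i
      · obtain ⟨rfl, rfl⟩ := hbj
        have h1 := hoff true
        have h2 := hoff false
        rw [h1, h2] at hT'
        cases r <;> simp [h1, h2] at hT'
      · rw [if_neg (by tauto), if_neg (by tauto)] at hT'
        exact h0 hT'
    · have ha := hok.ref1 j hn hjN
      have hb := hok.ref2 j hn hjN
      rw [eK, rl_flip hx hi, rl_flip hx hi, rl_flip hx hi] at hT'
      rw [if_neg (by omega), if_neg (by omega)] at hT'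
      by_cases hbj : b' = b ∧ j = i
      · obtain ⟨rfl, rfl⟩ := hbj
        obtain ⟨h1, h2, h3⟩ := hT'
        have e1 := hlt' _ ha α h1
        have e2 := hlt' _ hb β h2
        have hr' := hr hn
        rw [e1, e2] at hr'
        rw [if_neg (by rw [hr']; simp)] at h3
        rw [hoff] at h3
        exact absurd h3 (by simp)
      · rw [if_neg (by tauto)] at hT'
        rw [eK] at h0
        exact h0 hT'

/-- Step 2: the nodes of the holder are defined. -/
theorem step2 (i : ℕ) (hi : i < d.N) :
    rl x (x.getD 0 false) false i = !(rl x (x.getD 0 false) true i) := by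
  have hx := len hmin
  induction i using Nat.strong_induction_on with
  | _ i ih =>
  obtain ⟨b, hb⟩ : ∃ b, b = x.getD 0 false := ⟨_, rfl⟩
  rw [← hb] at ih ⊢
  have h0 := step1 hmin (b := b) hi (T := Dat.bP b i) (by unfold Dat.mono; simp)
  rw [← Bool.not_eq_true, eP] at h0
  by_cases hU : rl x b true i = false ∧ rl x b false i = false
  · exfalso
    obtain ⟨r, hr⟩ : ∃ r : Bool, d.n ≤ i →
        r = (d.gate i).2.2.ev (rl x b true (d.gate i).1) (rl x b true (d.gate i).2.1) :=
      ⟨_, fun _ => rfl⟩
    have hoff : ∀ r, rl x b r i = false := by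
      intro r
      cases r
      · exact hU.2
      · exact hU.1
    obtain ⟨R, hR⟩ := range_flatMap_split d.g1 hi
    obtain ⟨M1, M2, hM⟩ : ∃ M1 M2, [Dat.bU false i, Dat.bU true i] = M1 ++ Dat.bU b i :: M2 :=
      List.append_of_mem (by cases b <;> simp)
    refine not_better hmin (k := pos b r i) (pos_len hi) (better_of (x := x)
      (P := (List.range i).flatMap d.g1 ++ ((d.mono false i ++ d.mono true i) ++ M1))
      (S := M2 ++ (R ++ (d.L2 ++ (d.L3 ++ (d.L4 ++ d.L5)))))
      (o := Dat.bU b i) ?_ ?_ ?_ ?_)
    · unfold Dat.all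
      rw [Dat.L1, hR, Dat.g1, hM]
      simp only [List.append_assoc, List.cons_append]
    · intro t ht ht'
      have hUb : ∀ b' j, b' ≠ b ∨ j ≠ i → t = Dat.bU b' j → t.eval x = true := by
        rintro b' j hbj rfl
        rw [eU, s_flip hx hi, rl_flip hx hi, rl_flip hx hi, if_neg (by tauto),
          if_neg (by tauto)] at ht'
        rwa [eU]
      have hmm : ∀ b' j, j ≤ i → t ∈ d.mono b' j → t.eval x = true := by
        intro b' j hj hm
        have := mono_on hmin hok hi (fun j hj => ih j hj (by omega)) hoff r hr (Or.inl hj)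
          (by omega) hm
        rw [ht'] at this
        exact absurd this (by simp)
      rcases List.mem_append.1 ht with ht | ht
      · obtain ⟨j, hj, ht⟩ := List.mem_flatMap.1 ht
        have hj' := List.mem_range.1 hj
        rcases mem_g1 ht with ⟨b', ht⟩ | ⟨b', ht⟩
        · exact hmm b' j (by omega) ht
        · exact hUb b' j (Or.inr (by omega)) ht
      · rcases List.mem_append.1 ht with ht | ht
        · rcases List.mem_append.1 ht with ht | ht
          · exact hmm _ i le_rfl ht
          · exact hmm _ i le_rfl ht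
        · have ht2 : t ∈ [Dat.bU false i, Dat.bU true i] := by rw [hM]; simp [ht]
          have : ∃ b', t = Dat.bU b' i := by
            simp only [List.mem_cons, List.not_mem_nil, or_false] at ht2
            rcases ht2 with h | h
            · exact ⟨_, h⟩
            · exact ⟨_, h⟩
          obtain ⟨b', hb'⟩ := this
          by_cases hbb : b' = b
          · subst hbb
            rw [hb', eU]
            exact ⟨hb.symm, hU.1, hU.2⟩
          · exact hUb b' i (Or.inl hbb) hb'
    · rw [← Bool.not_eq_true, eU, rl_flip hx hi, rl_flip hx hi]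
      cases r
      · simp [hoff]
      · simp [hoff]
    · rw [eU]
      exact ⟨hb.symm, hU.1, hU.2⟩
  · revert h0 hU
    cases rl x b true i <;> cases rl x b false i <;> simp

/-- Step 3: the follower has no wrong input. -/
theorem step3 {b : Bool} {i : ℕ} {r : Bool} (hi : i < d.n) :
    (d.bW b i r).eval x = false := by
  have hn := hok.le
  by_contra hT
  rw [Bool.not_eq_false] at hT
  have hx := len hmin
  have hiN : i < d.N := by omega
  have hW := eW.1 hT
  have hbb : (!b) ≠ x.getD 0 false := by rw [hW.1]; cases b <;> simp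
  obtain ⟨P3, S3, h3⟩ : ∃ P3 S3, d.L3 = P3 ++ d.bW b i r :: S3 := by
    refine List.append_of_mem ?_
    unfold Dat.L3
    exact List.mem_flatMap.2 ⟨i, List.mem_range.2 hi, mem_g3.2 ⟨b, r, rfl⟩⟩
  refine not_better hmin (k := pos (!b) r i) (pos_len hiN) (better_of (x := x)
    (P := d.L1 ++ (d.L2 ++ P3)) (S := S3 ++ (d.L4 ++ d.L5)) (o := d.bW b i r) ?_ ?_ ?_ hT)
  · unfold Dat.all
    rw [h3]
    simp only [List.append_assoc, List.cons_append]
  · intro t ht ht'
    rcases List.mem_append.1 ht with ht | ht
    · exact L1_off hx hiN hW.2.1 hbb ht ht'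
    · rcases List.mem_append.1 ht with ht | ht
      · exact L2_off hx hiN hbb ht ht'
      · exact L3_off hx hiN hW.2.1 (by rw [h3]; simp [ht]) ht'
  · rw [← Bool.not_eq_true, eW, rl_flip hx hiN (!b) r i, if_pos ⟨rfl, rfl, rfl⟩, hW.2.1]
    simp

/-- Step 4: no defined node after an undefined one. -/
theorem step4 {b : Bool} {i : ℕ} {r : Bool} (hi : i + 1 < d.N) : (Dat.bD b i r).eval x = false := by
  by_contra hT
  rw [Bool.not_eq_false] at hT
  have hx := len hmin
  have hD := eD.1 hT
  have hbb : b ≠ x.getD 0 false := by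
    intro hb
    have h2 := step2 hmin hok i (by omega)
    rw [← hb, hD.2.1, hD.2.2] at h2
    simp at h2
  obtain ⟨R, hR⟩ := range_flatMap_split Dat.g4 (show i < d.N - 1 by omega)
  obtain ⟨M1, M2, hM⟩ : ∃ M1 M2, Dat.g4 i = M1 ++ Dat.bD b i r :: M2 :=
    List.append_of_mem (mem_g4.2 ⟨b, r, rfl⟩)
  refine not_better hmin (k := pos b r (i + 1)) (pos_len hi) (better_of (x := x)
    (P := d.L1 ++ (d.L2 ++ (d.L3 ++ ((List.range i).flatMap Dat.g4 ++ M1))))
    (S := M2 ++ (R ++ d.L5)) (o := Dat.bD b i r) ?_ ?_ ?_ hT)
  · unfold Dat.all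
    rw [show d.L4 = _ from hR, hM]
    simp only [List.append_assoc, List.cons_append]
  · intro t ht ht'
    rcases List.mem_append.1 ht with ht | ht
    · exact L1_off hx hi hD.1 hbb ht ht'
    · rcases List.mem_append.1 ht with ht | ht
      · exact L2_off hx hi hbb ht ht'
      · rcases List.mem_append.1 ht with ht | ht
        · exact L3_off hx hi hD.1 ht ht'
        · have hj : ∃ j ≤ i, t ∈ Dat.g4 j := by
            rcases List.mem_append.1 ht with ht | ht
            · obtain ⟨j, hj, ht⟩ := List.mem_flatMap.1 ht
              exact ⟨j, by have := List.mem_range.1 hj; omega, ht⟩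
            · exact ⟨i, le_rfl, by rw [hM]; simp [ht]⟩
          obtain ⟨j, hj, ht⟩ := hj
          obtain ⟨b', r', rfl⟩ := mem_g4.1 ht
          rw [eD, rl_flip hx hi _ true j, rl_flip hx hi _ false j, if_neg (by omega),
            if_neg (by omega)] at ht'
          rw [eD]
          exact ⟨off_le hx hi hD.1 _ _ _ ht'.1, ht'.2.1, ht'.2.2⟩
  · rw [← Bool.not_eq_true, eD, rl_flip hx hi b r (i + 1), if_pos ⟨rfl, rfl, rfl⟩, hD.1]
    simp

/-- Step 5: the nodes of the follower are defined. -/
theorem step5 (i : ℕ) (hi : i < d.N) :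
    rl x (!(x.getD 0 false)) false i = !(rl x (!(x.getD 0 false)) true i) := by
  have hx := len hmin
  induction i using Nat.strong_induction_on with
  | _ i ih =>
  obtain ⟨s, hs⟩ : ∃ s, s = x.getD 0 false := ⟨_, rfl⟩
  obtain ⟨b, hb⟩ : ∃ b, b = !s := ⟨_, rfl⟩
  rw [← hs, ← hb] at ih ⊢
  have hbs : b ≠ x.getD 0 false := by rw [hb, ← hs]; cases s <;> simp
  have h0 := step1 hmin (b := b) hi (T := Dat.bP b i) (by unfold Dat.mono; simp)
  rw [← Bool.not_eq_true, eP] at h0
  by_cases hU : rl x b true i = false ∧ rl x b false i = false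
  · exfalso
    -- all later nodes are undefined
    have hoffj : ∀ j, i ≤ j → j < d.N → ∀ r, rl x b r j = false := by
      intro j hij
      induction j, hij using Nat.le_induction with
      | base =>
        intro _ r
        cases r
        · exact hU.2
        · exact hU.1
      | succ j hij ihj =>
        intro hj r
        have h1 := ihj (by omega)
        have h2 := step4 hmin hok (b := b) (i := j) (r := r) hj
        rw [← Bool.not_eq_true, eD] at h2
        rw [← Bool.not_eq_true]
        intro h3
        exact h2 ⟨h3, h1 _, h1 _⟩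
    -- the right value
    obtain ⟨r, hr1, hr2⟩ : ∃ r : Bool, (d.n ≤ i →
        r = (d.gate i).2.2.ev (rl x b true (d.gate i).1) (rl x b true (d.gate i).2.1)) ∧
        (i < d.n → rl x s (!r) (d.nx i) = false) := by
      by_cases hn : i < d.n
      · refine ⟨rl x s true (d.nx i), fun h => by omega, fun _ => ?_⟩
        have h2 := step2 hmin hok (d.nx i) (hok.nx i hn)
        rw [← hs] at h2
        cases h3 : rl x s true (d.nx i)
        · simpa using h3
        · rw [h3] at h2
          simpa using h2
      · exact ⟨_, fun _ => rfl, fun h => absurd h hn⟩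
    have hoff := hoffj i le_rfl hi
    obtain ⟨R, hR⟩ := range_flatMap_split Dat.g5 hi
    obtain ⟨M1, M2, hM⟩ : ∃ M1 M2, Dat.g5 i = M1 ++ Dat.bZ b i :: M2 :=
      List.append_of_mem (mem_g5.2 ⟨b, rfl⟩)
    refine not_better hmin (k := pos b r i) (pos_len hi) (better_of (x := x)
      (P := d.L1 ++ (d.L2 ++ (d.L3 ++ (d.L4 ++ ((List.range i).flatMap Dat.g5 ++ M1)))))
      (S := M2 ++ R) (o := Dat.bZ b i) ?_ ?_ ?_ ?_)
    · unfold Dat.all
      rw [show d.L5 = _ from hR, hM]
      simp only [List.append_assoc, List.cons_append]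
    · intro t ht ht'
      rcases List.mem_append.1 ht with ht | ht
      · -- level 1
        unfold Dat.L1 at ht
        obtain ⟨j, hj, ht⟩ := List.mem_flatMap.1 ht
        have hjN := List.mem_range.1 hj
        rcases mem_g1 ht with ⟨b', ht⟩ | ⟨b', rfl⟩
        · have := mono_on hmin hok hi (fun j hj => ih j hj (by omega)) hoff r hr1
            (b' := b') (j := j) (by
              by_cases hij : j ≤ i
              · exact Or.inl hij
              · exact Or.inr fun _ => hoffj j (by omega) hjN) hjN ht
          rw [ht'] at this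
          exact absurd this (by simp)
        · rw [eU, s_flip hx hi, rl_flip hx hi, rl_flip hx hi] at ht'
          rw [eU]
          have h1 : b' ≠ b := fun h => hbs (h ▸ ht'.1.symm)
          rwa [if_neg (by tauto), if_neg (by tauto)] at ht'
      rcases List.mem_append.1 ht with ht | ht
      · exact L2_off hx hi hbs ht ht'
      rcases List.mem_append.1 ht with ht | ht
      · -- level 3
        unfold Dat.L3 at ht
        obtain ⟨j, hj, ht⟩ := List.mem_flatMap.1 ht
        have hjn := List.mem_range.1 hj
        obtain ⟨b', r', rfl⟩ := mem_g3.1 ht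
        rw [eW, s_flip hx hi, rl_flip hx hi, rl_flip hx hi] at ht'
        rw [eW]
        obtain ⟨h1, h2, h3⟩ := ht'
        have hb' : b' ≠ b := fun h => hbs (h ▸ h1.symm)
        rw [if_neg (by tauto)] at h3
        refine ⟨h1, ?_, h3⟩
        split_ifs at h2 with h4
        · exfalso
          obtain ⟨_, rfl, rfl⟩ := h4
          have h5 := hr2 hjn
          rw [hs, h1, h3] at h5
          exact absurd h5 (by simp)
        · exact h2
      rcases List.mem_append.1 ht with ht | ht
      · -- level 4
        unfold Dat.L4 at ht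
        obtain ⟨j, hj, ht⟩ := List.mem_flatMap.1 ht
        have hjn := List.mem_range.1 hj
        obtain ⟨b', r', rfl⟩ := mem_g4.1 ht
        rw [eD, rl_flip hx hi, rl_flip hx hi, rl_flip hx hi] at ht'
        rw [eD]
        by_cases hb' : b' = b
        · subst hb'
          obtain ⟨h1, h2, h3⟩ := ht'
          by_cases hji : j + 1 = i
          · exfalso
            rw [if_neg (by omega)] at h2
            rw [if_neg (by omega)] at h3
            have := ih j (by omega) (by omega)
            rw [h2, h3] at this
            simp at this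
          · rw [if_neg (by omega)] at h1
            by_cases hji' : j = i
            · exfalso
              subst hji'
              rw [hoffj (j + 1) (by omega) (by omega)] at h1
              exact absurd h1 (by simp)
            · rw [if_neg (by omega)] at h2
              rw [if_neg (by omega)] at h3
              exact ⟨h1, h2, h3⟩
        · rwa [if_neg (by tauto), if_neg (by tauto), if_neg (by tauto)] at ht'
      · -- level 5
        have hj : ∃ j b', (b' ≠ b ∨ j ≠ i ∨ (b' = b ∧ j = i)) ∧ t = Dat.bZ b' j := by
          rcases List.mem_append.1 ht with ht | ht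
          · obtain ⟨j, hj, ht⟩ := List.mem_flatMap.1 ht
            obtain ⟨b', h⟩ := mem_g5.1 ht
            exact ⟨j, b', Or.inr (Or.inl (by have := List.mem_range.1 hj; omega)), h⟩
          · have : t ∈ Dat.g5 i := by rw [hM]; simp [ht]
            obtain ⟨b', h⟩ := mem_g5.1 this
            exact ⟨i, b', by tauto, h⟩
        obtain ⟨j, b', _, rfl⟩ := hj
        rw [eZ]
        by_cases hbj : b' = b ∧ j = i
        · obtain ⟨rfl, rfl⟩ := hbj
          exact hU
        · rwa [eZ, rl_flip hx hi, rl_flip hx hi, if_neg (by tauto), if_neg (by tauto)] at ht'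
    · rw [← Bool.not_eq_true, eZ, rl_flip hx hi, rl_flip hx hi]
      cases r
      · simp [hoff]
      · simp [hoff]
    · rw [eZ]
      exact hU
  · revert h0 hU
    cases rl x b true i <;> cases rl x b false i <;> simp

/-- All nodes are defined. -/
theorem defd (b : Bool) (i : ℕ) (hi : i < d.N) : rl x b false i = !(rl x b true i) := by
  by_cases hb : b = x.getD 0 false
  · rw [hb]; exact step2 hmin hok i hi
  · have : b = !(x.getD 0 false) := by
      revert hb
      cases b <;> cases x.getD 0 false <;> simp
    rw [this]; exact step5 hmin hok i hi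

omit hok in
/-- Changing a place of the register or a marker: reduction to the bits of this place. -/
theorem reg {k q : ℕ} (hq : q < d.m) (hk : k = d.cp q ∨ k = d.hp q) (hok : d.Ok)
    {P S : List Cj} {o : Cj} (he : d.g2 q = P ++ o :: S)
    (hP : ∀ t ∈ P, t.eval (x.modify k not) = true → t.eval x = true)
    (h1 : o.eval (x.modify k not) = false) : o.eval x = false := by
  by_contra h2
  rw [Bool.not_eq_false] at h2
  have hx := len hmin
  have hkl : k < d.len := by
    rcases hk with rfl | rfl
    · exact cp_len hq
    · exact hp_len hq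
  have hk' : k = 0 ∨ 1 + 4 * d.N ≤ k := by
    rcases hk with rfl | rfl
    · right; unfold Dat.cp; omega
    · right; unfold Dat.hp; omega
  have hk0 : k ≠ 0 := by
    rcases hk with rfl | rfl
    · unfold Dat.cp; omega
    · unfold Dat.hp; omega
  have hs : (x.modify k not).getD 0 false = x.getD 0 false := by
    rw [getD_modify (by omega), if_neg (fun h => hk0 h.symm)]
  have hrl : ∀ b r i, i < d.N → rl (x.modify k not) b r i = rl x b r i := fun b r i hi =>
    rl_flipo (by omega) hk' hi
  obtain ⟨R, hR⟩ := range_flatMap_split d.g2 hq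
  refine not_better hmin hkl (better_of (x := x)
    (P := d.L1 ++ ((List.range q).flatMap d.g2 ++ P))
    (S := S ++ (R ++ (d.L3 ++ (d.L4 ++ d.L5)))) (o := o) ?_ ?_ h1 h2)
  · unfold Dat.all
    rw [show d.L2 = _ from hR, he]
    simp only [List.append_assoc, List.cons_append]
  · intro t ht ht'
    rcases List.mem_append.1 ht with ht | ht
    · unfold Dat.L1 at ht
      obtain ⟨j, hj, ht⟩ := List.mem_flatMap.1 ht
      have hj := List.mem_range.1 hj
      rcases mem_g1 ht with ⟨b', ht⟩ | ⟨b', rfl⟩
      · rcases mem_mono ht with rfl | ⟨hn, α, β, rfl⟩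
        · rw [eP, hrl _ _ _ hj, hrl _ _ _ hj] at ht'
          rwa [eP]
        · have e1 := hok.ref1 j hn hj
          have e2 := hok.ref2 j hn hj
          rw [eK, hrl _ _ _ (by omega), hrl _ _ _ (by omega), hrl _ _ _ hj] at ht'
          rwa [eK]
      · rw [eU, hs, hrl _ _ _ hj, hrl _ _ _ hj] at ht'
        rwa [eU]
    · rcases List.mem_append.1 ht with ht | ht
      · obtain ⟨j, hj, ht⟩ := List.mem_flatMap.1 ht
        have hj := List.mem_range.1 hj
        have ho := hok.out j (by omega)
        have hm := hok.mu j (by omega)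
        have hcj : (x.modify k not).getD (d.cp j) false = x.getD (d.cp j) false := by
          rw [getD_modify (by omega), if_neg]
          rcases hk with rfl | rfl
          · unfold Dat.cp; omega
          · unfold Dat.cp Dat.hp; omega
        have hhj : (x.modify k not).getD (d.hp j) false = x.getD (d.hp j) false := by
          rw [getD_modify (by omega), if_neg]
          rcases hk with rfl | rfl
          · unfold Dat.cp Dat.hp; omega
          · unfold Dat.hp; omega
        rcases mem_g2 ht with ⟨b', rfl⟩ | ⟨b', rfl⟩ | rfl | ⟨b', rfl⟩ | rfl | rfl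
        · rw [ek, hs, hcj, hrl _ _ _ ho] at ht'
          rwa [ek]
        · rw [ei, hs, hhj, hrl _ _ _ hm] at ht'
          rwa [ei]
        · rw [ea, hcj, hhj] at ht'
          rwa [ea]
        · rw [et, hs, hhj, hrl _ _ _ ho] at ht'
          rwa [et]
        · rw [ec, hcj] at ht'
          rwa [ec]
        · rw [eh, hhj] at ht'
          rwa [eh]
      · exact hP t ht ht'

/-- Step 6: the register dominates the value of the holder. -/
theorem step6 {q : ℕ} (hq : q < d.m) (h : rl x (x.getD 0 false) true (d.out q) = true) :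
    x.getD (d.cp q) false = true := by
  have hx := len hmin
  by_contra hc
  rw [Bool.not_eq_true] at hc
  have hcl := cp_len hq
  have hs : (x.modify (d.cp q) not).getD 0 false = x.getD 0 false := by
    rw [getD_modify (by omega), if_neg (by unfold Dat.cp; omega)]
  have hcq : (x.modify (d.cp q) not).getD (d.cp q) false = true := by
    rw [getD_modify (by omega), if_pos rfl, hc]; rfl
  have key : (d.bk (x.getD 0 false) q).eval x = false := by
    obtain ⟨P, S, hPS⟩ : ∃ P S, [d.bk false q, d.bk true q] = P ++ d.bk (x.getD 0 false) q :: S :=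
      List.append_of_mem (by cases x.getD 0 false <;> simp)
    refine reg hmin hq (Or.inl rfl) hok (P := P) (S := S ++ [d.bi false q, d.bi true q, d.ba q,
      d.bt false q, d.bt true q, d.bc q, d.bh q]) ?_ ?_ ?_
    · unfold Dat.g2
      rw [show ∀ a b : Cj, ∀ l, a :: b :: l = [a, b] ++ l from fun _ _ _ => rfl, hPS]
      simp only [List.append_assoc, List.cons_append]
    · intro t ht ht'
      have : t ∈ [d.bk false q, d.bk true q] := by rw [hPS]; simp [ht]
      have hb : ∃ b, t = d.bk b q := by
        simp only [List.mem_cons, List.not_mem_nil, or_false] at this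
        rcases this with h | h <;> exact ⟨_, h⟩
      obtain ⟨b, rfl⟩ := hb
      rw [ek, hcq] at ht'
      simp at ht'
    · rw [← Bool.not_eq_true, ek, hcq]
      simp
  rw [← Bool.not_eq_true, ek] at key
  exact key ⟨rfl, hc, h⟩

/-- Step 7: no illegal marker. -/
theorem step7 {q : ℕ} (hq : q < d.m) (hh : x.getD (d.hp q) false = true) :
    rl x (x.getD 0 false) true (d.mu q) = false := by
  have hx := len hmin
  by_contra h
  rw [Bool.not_eq_false] at h
  have hcl := hp_len hq
  have hm := hok.mu q hq
  have ho := hok.out q hq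
  have hs : (x.modify (d.hp q) not).getD 0 false = x.getD 0 false := by
    rw [getD_modify (by omega), if_neg (by unfold Dat.hp; omega)]
  have hhq : (x.modify (d.hp q) not).getD (d.hp q) false = false := by
    rw [getD_modify (by omega), if_pos rfl, hh]; rfl
  have hcq : (x.modify (d.hp q) not).getD (d.cp q) false = x.getD (d.cp q) false := by
    rw [getD_modify (by omega), if_neg (by unfold Dat.cp Dat.hp; omega)]
  have hrl : ∀ b r i, i < d.N → rl (x.modify (d.hp q) not) b r i = rl x b r i := fun b r i hi =>
    rl_flipo (by omega) (Or.inr (by unfold Dat.hp; omega)) hi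
  have key : (d.bi (x.getD 0 false) q).eval x = false := by
    obtain ⟨P, S, hPS⟩ : ∃ P S, [d.bk false q, d.bk true q, d.bi false q, d.bi true q] =
        P ++ d.bi (x.getD 0 false) q :: S :=
      List.append_of_mem (by cases x.getD 0 false <;> simp)
    refine reg hmin hq (Or.inr rfl) hok (P := P) (S := S ++ [d.ba q,
      d.bt false q, d.bt true q, d.bc q, d.bh q]) ?_ ?_ ?_
    · unfold Dat.g2
      rw [show ∀ a b c e : Cj, ∀ l, a :: b :: c :: e :: l = [a, b, c, e] ++ l
        from fun _ _ _ _ _ => rfl, hPS]
      simp only [List.append_assoc, List.cons_append]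
    · intro t ht ht'
      have : t ∈ [d.bk false q, d.bk true q, d.bi false q, d.bi true q] := by rw [hPS]; simp [ht]
      have hb : (∃ b, t = d.bk b q) ∨ ∃ b, t = d.bi b q := by
        simp only [List.mem_cons, List.not_mem_nil, or_false] at this
        rcases this with h | h | h | h
        · exact Or.inl ⟨_, h⟩
        · exact Or.inl ⟨_, h⟩
        · exact Or.inr ⟨_, h⟩
        · exact Or.inr ⟨_, h⟩
      rcases hb with ⟨b, rfl⟩ | ⟨b, rfl⟩
      · rw [ek, hs, hcq, hrl _ _ _ ho] at ht'
        rwa [ek]
      · rw [ei, hhq] at ht'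
        simp at ht'
    · rw [← Bool.not_eq_true, ei, hhq]
      simp
  rw [← Bool.not_eq_true, ei] at key
  exact key ⟨rfl, hh, h⟩

/-- Step 8: the register is equal to the value of the holder. -/
theorem step8 {q : ℕ} (hq : q < d.m) (h : rl x (x.getD 0 false) true (d.out q) = false) :
    x.getD (d.cp q) false = false := by
  have hx := len hmin
  by_contra hc
  rw [Bool.not_eq_false] at hc
  have hcl := cp_len hq
  have hm := hok.mu q hq
  have ho := hok.out q hq
  have hs : (x.modify (d.cp q) not).getD 0 false = x.getD 0 false := by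
    rw [getD_modify (by omega), if_neg (by unfold Dat.cp; omega)]
  have hcq : (x.modify (d.cp q) not).getD (d.cp q) false = false := by
    rw [getD_modify (by omega), if_pos rfl, hc]; rfl
  have hhq : (x.modify (d.cp q) not).getD (d.hp q) false = x.getD (d.hp q) false := by
    rw [getD_modify (by omega), if_neg (by unfold Dat.cp Dat.hp; omega)]
  have hrl : ∀ b r i, i < d.N → rl (x.modify (d.cp q) not) b r i = rl x b r i := fun b r i hi =>
    rl_flipo (by omega) (Or.inr (by unfold Dat.cp; omega)) hi
  have key : (d.bc q).eval x = false := by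
    refine reg hmin hq (Or.inl rfl) hok (P := [d.bk false q, d.bk true q, d.bi false q,
      d.bi true q, d.ba q, d.bt false q, d.bt true q]) (S := [d.bh q]) rfl ?_ ?_
    · intro t ht ht'
      have hb : (∃ b, t = d.bk b q) ∨ (∃ b, t = d.bi b q) ∨ t = d.ba q ∨ ∃ b, t = d.bt b q := by
        simp only [List.mem_cons, List.not_mem_nil, or_false] at ht
        rcases ht with h | h | h | h | h | h | h
        · exact Or.inl ⟨_, h⟩
        · exact Or.inl ⟨_, h⟩
        · exact Or.inr (Or.inl ⟨_, h⟩)
        · exact Or.inr (Or.inl ⟨_, h⟩)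
        · tauto
        · exact Or.inr (Or.inr (Or.inr ⟨_, h⟩))
        · exact Or.inr (Or.inr (Or.inr ⟨_, h⟩))
      rcases hb with ⟨b, rfl⟩ | ⟨b, rfl⟩ | rfl | ⟨b, rfl⟩
      · rw [ek, hs, hrl _ _ _ ho] at ht'
        rw [← ht'.1, h] at ht'
        simp at ht'
      · rw [ei, hs, hhq, hrl _ _ _ hm] at ht'
        rwa [ei]
      · rw [ea, hcq] at ht'
        simp at ht'
      · rw [et, hs, hhq, hrl _ _ _ ho] at ht'
        rwa [et]
    · rw [← Bool.not_eq_true, ec, hcq]
      simp
  rw [← Bool.not_eq_true, ec] at key
  exact key hc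

/-- Step 9: markers only at ones. -/
theorem step9 {q : ℕ} (hq : q < d.m) (h : rl x (x.getD 0 false) true (d.out q) = false) :
    x.getD (d.hp q) false = false := by
  have hx := len hmin
  by_contra hh
  rw [Bool.not_eq_false] at hh
  have hc := step8 hmin hok hq h
  have hcl := hp_len hq
  have hm := hok.mu q hq
  have ho := hok.out q hq
  have hs : (x.modify (d.hp q) not).getD 0 false = x.getD 0 false := by
    rw [getD_modify (by omega), if_neg (by unfold Dat.hp; omega)]
  have hhq : (x.modify (d.hp q) not).getD (d.hp q) false = false := by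
    rw [getD_modify (by omega), if_pos rfl, hh]; rfl
  have hcq : (x.modify (d.hp q) not).getD (d.cp q) false = false := by
    rw [getD_modify (by omega), if_neg (by unfold Dat.cp Dat.hp; omega), hc]
  have hrl : ∀ b r i, i < d.N → rl (x.modify (d.hp q) not) b r i = rl x b r i := fun b r i hi =>
    rl_flipo (by omega) (Or.inr (by unfold Dat.hp; omega)) hi
  have key : (d.bh q).eval x = false := by
    refine reg hmin hq (Or.inr rfl) hok (P := [d.bk false q, d.bk true q, d.bi false q,
      d.bi true q, d.ba q, d.bt false q, d.bt true q, d.bc q]) (S := []) rfl ?_ ?_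
    · intro t ht ht'
      have hb : (∃ b, t = d.bk b q) ∨ (∃ b, t = d.bi b q) ∨ t = d.ba q ∨ (∃ b, t = d.bt b q) ∨
          t = d.bc q := by
        simp only [List.mem_cons, List.not_mem_nil, or_false] at ht
        rcases ht with h | h | h | h | h | h | h | h
        · exact Or.inl ⟨_, h⟩
        · exact Or.inl ⟨_, h⟩
        · exact Or.inr (Or.inl ⟨_, h⟩)
        · exact Or.inr (Or.inl ⟨_, h⟩)
        · tauto
        · exact Or.inr (Or.inr (Or.inr (Or.inl ⟨_, h⟩)))
        · exact Or.inr (Or.inr (Or.inr (Or.inl ⟨_, h⟩)))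
        · tauto
      rcases hb with ⟨b, rfl⟩ | ⟨b, rfl⟩ | rfl | ⟨b, rfl⟩ | rfl
      · rw [ek, hs, hcq, hrl _ _ _ ho] at ht'
        rw [ek]
        exact ⟨ht'.1, hc, ht'.2.2⟩
      · rw [ei, hhq] at ht'
        simp at ht'
      · rw [ea, hcq] at ht'
        simp at ht'
      · rw [et, hhq] at ht'
        simp at ht'
      · rw [ec, hcq] at ht'
        simp at ht'
    · rw [← Bool.not_eq_true, eh, hhq]
      simp
  rw [← Bool.not_eq_true, eh] at key
  exact key hh

/-- Step 10: a legal marker is set. -/
theorem step10 {q : ℕ} (hq : q < d.m) (h : rl x (x.getD 0 false) true (d.out q) = true)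
    (hmu : rl x (x.getD 0 false) true (d.mu q) = false) :
    x.getD (d.hp q) false = true := by
  have hx := len hmin
  by_contra hh
  rw [Bool.not_eq_true] at hh
  have hc := step6 hmin hok hq h
  have hcl := hp_len hq
  have hm := hok.mu q hq
  have ho := hok.out q hq
  have hs : (x.modify (d.hp q) not).getD 0 false = x.getD 0 false := by
    rw [getD_modify (by omega), if_neg (by unfold Dat.hp; omega)]
  have hhq : (x.modify (d.hp q) not).getD (d.hp q) false = true := by
    rw [getD_modify (by omega), if_pos rfl, hh]; rfl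
  have hcq : (x.modify (d.hp q) not).getD (d.cp q) false = true := by
    rw [getD_modify (by omega), if_neg (by unfold Dat.cp Dat.hp; omega), hc]
  have hrl : ∀ b r i, i < d.N → rl (x.modify (d.hp q) not) b r i = rl x b r i := fun b r i hi =>
    rl_flipo (by omega) (Or.inr (by unfold Dat.hp; omega)) hi
  have key : (d.ba q).eval x = false := by
    refine reg hmin hq (Or.inr rfl) hok (P := [d.bk false q, d.bk true q, d.bi false q,
      d.bi true q]) (S := [d.bt false q, d.bt true q, d.bc q, d.bh q]) rfl ?_ ?_
    · intro t ht ht'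
      have hb : (∃ b, t = d.bk b q) ∨ (∃ b, t = d.bi b q) := by
        simp only [List.mem_cons, List.not_mem_nil, or_false] at ht
        rcases ht with h | h | h | h
        · exact Or.inl ⟨_, h⟩
        · exact Or.inl ⟨_, h⟩
        · exact Or.inr ⟨_, h⟩
        · exact Or.inr ⟨_, h⟩
      rcases hb with ⟨b, rfl⟩ | ⟨b, rfl⟩
      · rw [ek, hcq] at ht'
        simp at ht'
      · rw [ei, hs, hrl _ _ _ hm] at ht'
        rw [← ht'.1, hmu] at ht'
        simp at ht'
    · rw [← Bool.not_eq_true, ea, hhq]
      simp
  rw [← Bool.not_eq_true, ea] at key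
  exact key ⟨hc, hh⟩

/-- Step 11: there is no place where the holder should change. -/
theorem step11 {q : ℕ} (hq : q < d.m)
    (hlt : ∀ r < q, rl x (x.getD 0 false) true (d.out r) = rl x (!(x.getD 0 false)) true (d.out r) ∧
      (rl x (x.getD 0 false) true (d.out r) = true → rl x (x.getD 0 false) true (d.mu r) = true))
    (h1 : rl x (x.getD 0 false) true (d.out q) = true)
    (h2 : rl x (!(x.getD 0 false)) true (d.out q) = false)
    (h3 : rl x (x.getD 0 false) true (d.mu q) = false)
    (h4 : rl x (!(x.getD 0 false)) true (d.mu q) = false) : False := by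
  have hx := len hmin
  have hh := step10 hmin hok hq h1 h3
  have hc := step6 hmin hok hq h1
  have hl : 0 < x.length := by rw [hx]; unfold Dat.len; omega
  have hs : (x.modify 0 not).getD 0 false = !(x.getD 0 false) := by
    rw [getD_modify hl, if_pos rfl]
  have ho : ∀ k, k ≠ 0 → (x.modify 0 not).getD k false = x.getD k false := fun k hk => by
    rw [getD_modify hl, if_neg hk]
  have hcp : ∀ r, d.cp r ≠ 0 := fun r => by unfold Dat.cp; omega
  have hhp : ∀ r, d.hp r ≠ 0 := fun r => by unfold Dat.hp; omega
  have hrl : ∀ b r i, rl (x.modify 0 not) b r i = rl x b r i := fun b r i =>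
    ho _ (pos_ne_zero b r i)
  -- the two blocks
  have hbs : ∀ b, (x.modify 0 not).getD 0 false = b → b = !(x.getD 0 false) := fun b hb => by
    rw [← hb, hs]
  have key : (d.bt (x.getD 0 false) q).eval x = false := by
    by_contra hcon
    rw [Bool.not_eq_false] at hcon
    obtain ⟨R, hR⟩ := range_flatMap_split d.g2 hq
    obtain ⟨M1, M2, hM⟩ : ∃ M1 M2, [d.bt false q, d.bt true q] =
        M1 ++ d.bt (x.getD 0 false) q :: M2 :=
      List.append_of_mem (by cases x.getD 0 false <;> simp)
    refine not_better hmin (k := 0) (by unfold Dat.len; omega) (better_of (x := x)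
      (P := d.L1 ++ ((List.range q).flatMap d.g2 ++ ([d.bk false q, d.bk true q, d.bi false q,
        d.bi true q, d.ba q] ++ M1)))
      (S := M2 ++ ([d.bc q, d.bh q] ++ (R ++ (d.L3 ++ (d.L4 ++ d.L5)))))
      (o := d.bt (x.getD 0 false) q) ?_ ?_ ?_ hcon)
    · unfold Dat.all
      rw [show d.L2 = _ from hR]
      have : d.g2 q = [d.bk false q, d.bk true q, d.bi false q, d.bi true q, d.ba q] ++
          ([d.bt false q, d.bt true q] ++ [d.bc q, d.bh q]) := rfl
      rw [this, hM]
      simp only [List.append_assoc, List.cons_append]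
    · intro t ht ht'
      rcases List.mem_append.1 ht with ht | ht
      · unfold Dat.L1 at ht
        obtain ⟨j, hj, ht⟩ := List.mem_flatMap.1 ht
        have hjN := List.mem_range.1 hj
        rcases mem_g1 ht with ⟨b', ht⟩ | ⟨b', rfl⟩
        · rcases mem_mono ht with rfl | ⟨_, α, β, rfl⟩
          · rwa [eP, hrl, hrl, ← eP] at ht'
          · rwa [eK, hrl, hrl, hrl, ← eK] at ht'
        · rw [eU, hrl, hrl] at ht'
          have := defd hmin hok b' j hjN
          rw [ht'.2.1, ht'.2.2] at this
          simp at this
      rcases List.mem_append.1 ht with ht | ht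
      · obtain ⟨r, hr, ht⟩ := List.mem_flatMap.1 ht
        have hr := List.mem_range.1 hr
        have hrm : r < d.m := by omega
        -- no marker here
        have hhr : x.getD (d.hp r) false = false := by
          by_contra hcon'
          rw [Bool.not_eq_false] at hcon'
          have e1 := step7 hmin hok hrm hcon'
          cases hv : rl x (x.getD 0 false) true (d.out r)
          · rw [step9 hmin hok hrm hv] at hcon'
            exact absurd hcon' (by simp)
          · rw [(hlt r hr).2 hv] at e1
            exact absurd e1 (by simp)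
        rcases mem_g2 ht with ⟨b', rfl⟩ | ⟨b', rfl⟩ | rfl | ⟨b', rfl⟩ | rfl | rfl
        · rw [ek, ho _ (hcp r), hrl] at ht'
          exfalso
          have hb := hbs _ ht'.1
          rw [hb, ← (hlt r hr).1] at ht'
          rw [step6 hmin hok hrm ht'.2.2] at ht'
          simp at ht'
        · rw [ei, ho _ (hhp r), hhr] at ht'
          simp at ht'
        · rw [ea, ho _ (hcp r), ho _ (hhp r)] at ht'
          rwa [ea]
        · rw [et, ho _ (hhp r), hhr] at ht'
          simp at ht'
        · rw [ec, ho _ (hcp r)] at ht'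
          rwa [ec]
        · rw [eh, ho _ (hhp r)] at ht'
          rwa [eh]
      rcases List.mem_append.1 ht with ht | ht
      · have hb : (∃ b, t = d.bk b q) ∨ (∃ b, t = d.bi b q) ∨ t = d.ba q := by
          simp only [List.mem_cons, List.not_mem_nil, or_false] at ht
          rcases ht with h | h | h | h | h
          · exact Or.inl ⟨_, h⟩
          · exact Or.inl ⟨_, h⟩
          · exact Or.inr (Or.inl ⟨_, h⟩)
          · exact Or.inr (Or.inl ⟨_, h⟩)
          · exact Or.inr (Or.inr h)
        rcases hb with ⟨b', rfl⟩ | ⟨b', rfl⟩ | rfl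
        · rw [ek, ho _ (hcp q), hc] at ht'
          simp at ht'
        · rw [ei, hrl] at ht'
          have hb := hbs _ ht'.1
          rw [hb, h4] at ht'
          simp at ht'
        · rw [ea, ho _ (hcp q), ho _ (hhp q)] at ht'
          rwa [ea]
      · have : t ∈ [d.bt false q, d.bt true q] := by rw [hM]; simp [ht]
        have hb : ∃ b, t = d.bt b q := by
          simp only [List.mem_cons, List.not_mem_nil, or_false] at this
          rcases this with h | h <;> exact ⟨_, h⟩
        obtain ⟨b', rfl⟩ := hb
        rw [et, hrl] at ht'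
        have hb := hbs _ ht'.1
        rw [hb, h2] at ht'
        simp at ht'
    · rw [← Bool.not_eq_true, et, hs]
      cases x.getD 0 false <;> simp
  rw [← Bool.not_eq_true, et] at key
  exact key ⟨rfl, hh, h1⟩

/-- The local minima of the map. -/
theorem locMin : ∃ v w : ℕ → Bool,
    (∀ i < d.N, v i = rl x (x.getD 0 false) true i) ∧
    (∀ i, d.n ≤ i → i < d.N → v i = (d.gate i).2.2.ev (v (d.gate i).1) (v (d.gate i).2.1)) ∧
    (∀ i, d.n ≤ i → i < d.N → w i = (d.gate i).2.2.ev (w (d.gate i).1) (w (d.gate i).2.1)) ∧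
    (∀ i < d.n, w i = v (d.nx i)) ∧
    ∀ q < d.m, (∀ r < q, v (d.out r) = w (d.out r) ∧ (v (d.out r) = true → v (d.mu r) = true)) →
      v (d.out q) = true → w (d.out q) = false → v (d.mu q) = false → w (d.mu q) = false →
      False := by
  have hdef' : ∀ b i, i < d.N → ∀ r, rl x b r i = true ↔ rl x b true i = r := by
    intro b i hi r
    have := defd hmin hok b i hi
    cases r
    · rw [this]; cases rl x b true i <;> simp
    · exact Iff.rfl
  have hgate : ∀ b i, d.n ≤ i → i < d.N → rl x b true i =
      (d.gate i).2.2.ev (rl x b true (d.gate i).1) (rl x b true (d.gate i).2.1) := by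
    intro b i hn hi
    have ha := hok.ref1 i hn hi
    have hb := hok.ref2 i hn hi
    have h1 := step1 hmin hi (bK_mem (d := d) (b := b) hn (rl x b true (d.gate i).1)
      (rl x b true (d.gate i).2.1))
    rw [← Bool.not_eq_true, eK, hdef' b _ (by omega), hdef' b _ (by omega), hdef' b i hi] at h1
    revert h1
    generalize (d.gate i).2.2.ev (rl x b true (d.gate i).1) (rl x b true (d.gate i).2.1) = e
    cases rl x b true i <;> cases e <;> simp
  refine ⟨rl x (x.getD 0 false) true, rl x (!(x.getD 0 false)) true, fun _ _ => rfl,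
    hgate _, hgate _, ?_, fun q hq h0 h1 h2 h3 h4 => step11 hmin hok hq h0 h1 h2 h3 h4⟩
  intro i hi
  have h1 := step3 hmin hok (b := x.getD 0 false) (i := i)
    (r := rl x (!(x.getD 0 false)) true i) hi
  rw [← Bool.not_eq_true, eW, hdef' _ i (by have := hok.le; omega), hdef' _ _ (hok.nx i hi)] at h1
  revert h1
  generalize rl x (!(x.getD 0 false)) true i = p
  generalize rl x (x.getD 0 false) true (d.nx i) = q
  cases p <;> cases q <;> simp

end

end Pool.Agent.Helper80K4
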