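import Pool.Agent.Helper80K4.Upper

/-!
# The equivalences
-/

namespace Pool.Agent.Helper80K4

open Pool.Agent.NPC

theorem index_inj : ∀ l l' : List Bool, l.length = l'.length → index l = index l' → l = l'
  | [], [], _, _ => rfl
  | [], _ :: _, h, _ => by simp at h
  | _ :: _, [], h, _ => by simp at h
  | b :: l, b' :: l', h, h' => by
    have hl : l.length = l'.length := by simpa using h
    rw [index, index] at h'
    have h1 := Bool.toNat_le b
    have h2 := Bool.toNat_le b'
    have hb : b = b' := by
      cases b <;> cases b' <;> simp at h' ⊢ <;> omega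
    subst hb
    rw [index_inj l l' hl (by omega)]

/-- the size of a truth table -/
def tsz (k j : ℕ) : ℕ := (pw (k + 1)).getD j 1

theorem tsz_eq {k j : ℕ} (h : j ≤ k) : tsz k j = 2 ^ j := by
  unfold tsz pw
  rw [getD_map_lt _ _ (by simpa using (by omega : j < k + 1)) 0,
    List.getD_eq_getElem _ _ (by simpa using (by omega : j < k + 1)), List.getElem_range]

theorem tsz_le (k j : ℕ) : tsz k j ≤ 2 ^ k := by
  by_cases h : j ≤ k
  · rw [tsz_eq h]
    exact Nat.pow_le_pow_right (by omega) h
  · unfold tsz
    rw [List.getD_eq_default _ _ (by unfold pw; simp; omega)]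
    exact Nat.one_le_two_pow

/-- the truth table of an AND of literals -/
def toBit (k : ℕ) (T : Cj) : Bit :=
  (T.map fun p => p.1, (List.range (tsz k T.length)).map fun t =>
    decide (t = index (T.map fun p => p.2)))

theorem toBit_eval {k : ℕ} {T : Cj} (hT : T.length ≤ k) (x : List Bool) :
    (toBit k T).eval x = conj x T := by
  have e1 : index ((T.map fun p => p.1).map fun i => x.getD i false) < tsz k T.length := by
    rw [tsz_eq hT]
    have := index_lt ((T.map fun p => p.1).map fun i => x.getD i false)
    simpa using this
  unfold toBit Bit.eval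
  simp only
  rw [getD_map_lt _ _ (by simpa using e1) 0, List.getD_eq_getElem _ _ (by simpa using e1),
    List.getElem_range, Bool.eq_iff_iff, decide_eq_true_eq]
  unfold conj
  rw [List.all_eq_true]
  constructor
  · intro h p hp
    have h1 := index_inj _ _ (by simp) h
    rw [List.map_map] at h1
    have := List.map_inj_left.1 h1 p hp
    simpa using this
  · intro h
    congr 1
    rw [List.map_map]
    refine List.map_congr_left fun p hp => ?_
    have := h p hp
    simpa using this

/-- Maps given by ANDs of `k` literals have locality `k`. -/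
theorem conj_of_local {k : ℕ} (h : LocalFlip k) : ConjFlip k := by
  refine Solvable.of_red (γ := List Unit × List Cj) (data := fun M : ConjMap =>
    (List.replicate M.inputs (), M.outs)) (fun _ => rfl) h
    (red := fun c => (⟨c.1.length, c.2.map (toBit k)⟩ : LocalMap)) (post := fun _ y => y)
    ?_ (by fun_prop) ?_ ?_
  · have hn : UPoly (fun c : List Unit × List Cj => c.1.length) := UPoly.length (by fun_prop)
    have ho : Poly (fun c : List Unit × List Cj => c.2.map (toBit k)) := by
      refine NPC.Poly.map (F := fun _ T => toBit k T) (by fun_prop) ?_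
      have h1 : Poly (fun p : (List Unit × List Cj) × Cj => tsz k p.2.length) := by
        unfold tsz
        fun_prop
      have h2 : UPoly (fun p : (List Unit × List Cj) × Cj => tsz k p.2.length) :=
        UPoly.of_le h1 (UPoly.const (2 ^ k)) fun p => tsz_le _ _
      have h3 : Poly (fun p : (List Unit × List Cj) × Cj => index (p.2.map fun q => q.2)) := by
        have h4 : Poly (fun p : (List Unit × List Cj) × Cj => valB (p.2.map fun q => q.2)) :=
          NPC.Poly.valBits (by fun_prop)
        refine h4.congr fun p => ?_
        generalize (p.2.map fun q => q.2) = l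
        induction l with
        | nil => rfl
        | cons b l ih =>
          rw [valB, index, ih]
          cases b <;> rfl
      unfold toBit
      refine Poly.pair (by fun_prop) ?_
      refine NPC.Poly.map (F := fun (p : (List Unit × List Cj) × Cj) t =>
        decide (t = index (p.2.map fun q => q.2))) h2.range ?_
      exact Poly.decide_eq (by fun_prop) (h3.comp (by fun_prop))
    exact Poly.of_toT ((Poly.toT' (Poly.pair hn ho)).congr fun _ => rfl)
  · intro M hM T hT
    simp only at hT
    obtain ⟨T', hT', rfl⟩ := List.mem_map.1 hT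
    obtain ⟨h1, h2⟩ := hM T' hT'
    unfold toBit
    simp only [List.length_map, List.length_range, List.length_replicate]
    refine ⟨h1, tsz_eq h1, ?_⟩
    intro i hi
    obtain ⟨p, hp, rfl⟩ := List.mem_map.1 hi
    exact h2 p hp
  · intro M hM y hy
    simp only [List.length_replicate] at hy
    have e : ∀ x, LocalMap.eval ⟨M.inputs, M.outs.map (toBit k)⟩ x = M.eval x := by
      intro x
      unfold LocalMap.eval ConjMap.eval
      rw [List.map_map]
      refine List.map_congr_left fun T hT => ?_
      exact toBit_eval (hM T hT).1 x
    refine ⟨hy.1, fun i hi => ?_⟩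
    have := hy.2 i hi
    rwa [e, e] at this

theorem conj_mono {k l : ℕ} (hkl : k ≤ l) (h : ConjFlip l) : ConjFlip k := by
  obtain ⟨f, hf, hf'⟩ := h
  exact ⟨f, hf, fun M hM => hf' M fun T hT => ⟨(hM T hT).1.trans hkl, (hM T hT).2⟩⟩

/-- The main theorem. -/
theorem main : (∀ k, 3 ≤ k → (ConjFlip k ↔ CircuitFlip) ∧ (LocalFlip k ↔ CircuitFlip)) ∧
    ∀ k ≤ 2, LocalFlip k := by
  refine ⟨fun k hk => ?_, fun k hk => easy hk⟩
  have h1 : CircuitFlip → LocalFlip k := upper (by omega)
  have h2 : LocalFlip k → ConjFlip k := conj_of_local
  have h3 : ConjFlip k → CircuitFlip := fun h => hard (conj_mono hk h)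
  exact ⟨⟨h3, fun h => h2 (h1 h)⟩, ⟨fun h => h3 (h2 h), h1⟩⟩

end Pool.Agent.Helper80K4
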