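import Pool.Agent.Helper80K4.LocMin

/-!
# Values of circuits, and the circuit which finds an improving neighbour
-/

namespace Pool.Agent.Helper80K4

/-! ### Nodes of a circuit -/

theorem foldl_prefix (gs : List Gate) (x : List Bool) :
    ∃ w, gs.foldl (fun v g => v ++ [g.eval v]) x = x ++ w ∧ w.length = gs.length := by
  induction gs generalizing x with
  | nil => exact ⟨[], by simp⟩
  | cons g gs ih =>
    obtain ⟨w, hw, hl⟩ := ih (x ++ [g.eval x])
    refine ⟨g.eval x :: w, ?_, by simp [hl]⟩
    rw [List.foldl_cons, hw]
    simp

theorem nodes_getD_lt {C : Circuit} {x : List Bool} {j : ℕ} (hj : j < x.length) :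
    (C.nodes x).getD j false = x.getD j false := by
  obtain ⟨w, hw, _⟩ := foldl_prefix C.gates x
  unfold Circuit.nodes
  rw [hw, List.getD_append _ _ _ _ hj]

theorem eval_congr {g : Gate} {v w : List Bool}
    (h : ∀ a ∈ g.reads, v.getD a false = w.getD a false) : g.eval v = g.eval w := by
  cases g with
  | and a b =>
    have h1 := h a (by simp [Gate.reads])
    have h2 := h b (by simp [Gate.reads])
    simp only [Gate.eval, h1, h2]
  | or a b =>
    have h1 := h a (by simp [Gate.reads])
    have h2 := h b (by simp [Gate.reads])
    simp only [Gate.eval, h1, h2]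
  | not a =>
    have h1 := h a (by simp [Gate.reads])
    simp only [Gate.eval, h1]

theorem nodes_getD_gate {C : Circuit} (hC : C.Valid) {x : List Bool} (hx : x.length = C.inputs)
    {i : ℕ} {g : Gate} (hi : C.gates[i]? = some g) :
    (C.nodes x).getD (C.inputs + i) false = g.eval (C.nodes x) := by
  obtain ⟨hil, hig⟩ := List.getElem?_eq_some_iff.1 hi
  have e1 : C.gates = C.gates.take i ++ g :: C.gates.drop (i + 1) := by
    rw [← hig, List.getElem_cons_drop, List.take_append_drop]
  obtain ⟨w, hw, hwl⟩ := foldl_prefix (C.gates.take i) x
  obtain ⟨A, hA⟩ : ∃ A, A = (C.gates.take i).foldl (fun v g => v ++ [g.eval v]) x := ⟨_, rfl⟩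
  have hAl : A.length = C.inputs + i := by
    rw [hA, hw, List.length_append, hwl, hx, List.length_take]
    omega
  obtain ⟨w', hw', _⟩ := foldl_prefix (C.gates.drop (i + 1)) (A ++ [g.eval A])
  have e2 : C.nodes x = A ++ ([g.eval A] ++ w') := by
    unfold Circuit.nodes
    rw [e1, List.foldl_append, ← hA, List.foldl_cons, hw', List.append_assoc]
  have e3 : g.eval (C.nodes x) = g.eval A := by
    refine eval_congr fun a ha => ?_
    have := hC.1 i g hi a ha
    rw [e2, List.getD_append _ _ _ _ (by omega)]
  rw [e3, e2, ← hAl, List.getD_append_right _ _ _ _ le_rfl]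
  simp

/-! ### Codes of gates -/

/-- the truth table of a kind of gates -/
def ktt (k : ℕ) : TT :=
  if k = 0 then (false, false, false, true)
  else if k = 1 then (false, true, true, true) else (true, true, false, false)

/-- the gate, with renamed references -/
def cv (τ : ℕ → ℕ) (c : ℕ × ℕ × ℕ) : ℕ × ℕ × TT :=
  (τ c.2.1, τ (if c.1 = 2 then c.2.1 else c.2.2), ktt c.1)

/-- the value of a gate, for values given by a function -/
def gv (w : ℕ → Bool) (c : ℕ × ℕ × TT) : Bool := c.2.2.ev (w c.1) (w c.2.1)

theorem gv_cv {g : Gate} {v : List Bool} {w : ℕ → Bool} {τ : ℕ → ℕ}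
    (h : ∀ a ∈ g.reads, w (τ a) = v.getD a false) : gv w (cv τ g.code) = g.eval v := by
  cases g with
  | and a b =>
    have h1 := h a (by simp [Gate.reads])
    have h2 := h b (by simp [Gate.reads])
    simp only [gv, cv, Gate.code, Gate.eval, ktt, TT.ev, OfNat.zero_ne_ofNat, if_true, if_false, h1, h2]
    cases v.getD a false <;> cases v.getD b false <;> rfl
  | or a b =>
    have h1 := h a (by simp [Gate.reads])
    have h2 := h b (by simp [Gate.reads])
    simp only [gv, cv, Gate.code, Gate.eval, ktt, TT.ev, OfNat.one_ne_ofNat, one_ne_zero, if_true,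
      if_false, h1, h2]
    cases v.getD a false <;> cases v.getD b false <;> rfl
  | not a =>
    have h1 := h a (by simp [Gate.reads])
    simp only [gv, cv, Gate.code, Gate.eval, ktt, TT.ev, OfNat.ofNat_ne_zero, OfNat.ofNat_ne_one,
      if_true, if_false, h1]
    cases v.getD a false <;> rfl

/-- the codes of the gates -/
def codes (C : Circuit) : List (ℕ × ℕ × ℕ) := C.gates.map Gate.code

theorem codes_getD {C : Circuit} {i : ℕ} {g : Gate} (hi : C.gates[i]? = some g) :
    (codes C).getD i (0, 0, 0) = g.code := by
  unfold codes
  rw [List.getD_eq_getElem?_getD, List.getElem?_map, hi]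
  rfl

/-- A copy of the circuit computes the values of the nodes. -/
theorem copy_sem {C : Circuit} (hC : C.Valid) {x : List Bool} (hx : x.length = C.inputs)
    {w : ℕ → Bool} {τ : ℕ → ℕ} (h1 : ∀ j < C.inputs, w (τ j) = x.getD j false)
    (h2 : ∀ i < C.gates.length, w (τ (C.inputs + i)) = gv w (cv τ ((codes C).getD i (0, 0, 0)))) :
    ∀ j < C.inputs + C.gates.length, w (τ j) = (C.nodes x).getD j false := by
  intro j
  induction j using Nat.strong_induction_on with
  | _ j ih =>
  intro hj
  by_cases hjn : j < C.inputs
  · rw [h1 j hjn, nodes_getD_lt (by omega)]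
  · obtain ⟨i, rfl⟩ : ∃ i, j = C.inputs + i := ⟨j - C.inputs, by omega⟩
    have hi : i < C.gates.length := by omega
    have hig : C.gates[i]? = some C.gates[i] := List.getElem?_eq_getElem hi
    rw [h2 i hi, nodes_getD_gate hC hx hig, codes_getD hig]
    refine gv_cv fun a ha => ?_
    have := hC.1 i _ hig a ha
    exact ih a this (by omega)

/-! ### The circuit which finds an improving neighbour -/

section build

variable (n : ℕ) (G : List (ℕ × ℕ × ℕ)) (O : List ℕ)

/-- the length of a block -/
def bl : ℕ := G.length + 4 * O.length + 4

/-- the start of the block `t` -/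
def bs (t : ℕ) : ℕ := n + G.length + 1 + t * bl G O

/-- the references in the block `t` -/
def tau (K t j : ℕ) : ℕ := if j < n then (if j = t then K else j) else K + 1 + (j - n)

/-- the gate in the block `t` starting at `K` at the place `u` -/
def bg (t K u : ℕ) : ℕ × ℕ × TT :=
  if u = 0 then (t, t, (true, true, false, false))
  else if u ≤ G.length then cv (tau n K t) (G.getD (u - 1) (0, 0, 0))
  else if u ≤ G.length + 4 * O.length then
    (if (u - 1 - G.length) % 4 = 0 then
      (K + 1 + (O.getD ((u - 1 - G.length) / 4) 0 - n), O.getD ((u - 1 - G.length) / 4) 0,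
        (false, true, false, false))
    else if (u - 1 - G.length) % 4 = 1 then
      (K + 1 + (O.getD ((u - 1 - G.length) / 4) 0 - n), O.getD ((u - 1 - G.length) / 4) 0,
        (true, true, false, true))
    else if (u - 1 - G.length) % 4 = 2 then
      (K + u - 1, if (u - 1 - G.length) / 4 = 0 then n + G.length else K + u - 3,
        (false, false, false, true))
    else (K + u - 3, K + u - 1, (false, true, true, true)))
  else if u = G.length + 4 * O.length + 1 then
    (if O.length = 0 then n + G.length else K + u - 1, if t = 0 then n + G.length else K - 1,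
      (false, false, true, false))
  else if u = G.length + 4 * O.length + 2 then (t, K + u - 1, (false, true, true, false))
  else (if O.length = 0 then n + G.length else K + u - 3, if t = 0 then n + G.length else K - 1,
      (false, true, true, true))

/-- the node which gives the next vector -/
def nxn (j : ℕ) : ℕ := bs n G O j + (G.length + 4 * O.length + 2)

/-- the references in the last block, which starts at `Q` -/
def tau2 (Q j : ℕ) : ℕ := if j < n then nxn n G O j else Q + (j - n)

/-- the gates of the last block, which starts at `Q` -/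
def fg (Q u : ℕ) : ℕ × ℕ × TT :=
  if u < G.length then cv (tau2 n G O Q) (G.getD u (0, 0, 0))
  else if (u - G.length) % 5 = 0 then
    (O.getD (O.length - 1 - (u - G.length) / 5) 0,
      Q + (O.getD (O.length - 1 - (u - G.length) / 5) 0 - n), (false, false, true, false))
  else if (u - G.length) % 5 = 1 then
    (if (u - G.length) / 5 = 0 then n + G.length else Q + u - 3, Q + u - 1,
      (false, true, false, false))
  else if (u - G.length) % 5 = 2 then
    (O.getD (O.length - 1 - (u - G.length) / 5) 0,
      Q + (O.getD (O.length - 1 - (u - G.length) / 5) 0 - n), (false, true, true, false))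
  else if (u - G.length) % 5 = 3 then
    (if (u - G.length) / 5 = 0 then n + G.length else Q + u - 5, Q + u - 1,
      (false, true, true, true))
  else (O.getD (O.length - 1 - (u - G.length) / 5) 0, Q + u - 3, (false, false, true, false))

/-- the gates -/
def gt (i : ℕ) : ℕ × ℕ × TT :=
  if i < n + G.length then cv (fun j => j) (G.getD (i - n) (0, 0, 0))
  else if i = n + G.length then (0, 0, (false, false, false, false))
  else if i < bs n G O n then bg n G O ((i - (n + G.length + 1)) / bl G O)
    (bs n G O ((i - (n + G.length + 1)) / bl G O)) ((i - (n + G.length + 1)) % bl G O)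
  else fg n G O (bs n G O n) (i - bs n G O n)

/-- the data -/
def dat : Dat where
  n := n
  N := bs n G O n + (G.length + 5 * O.length)
  m := O.length
  gate := gt n G O
  out := fun r => O.getD (O.length - 1 - r) 0
  mu := fun r => bs n G O n + (G.length + 5 * r + 4)
  nx := nxn n G O

end build

section

variable {n : ℕ} {G : List (ℕ × ℕ × ℕ)} {O : List ℕ}

theorem bl_pos : 0 < bl G O := by unfold bl; omega

theorem bs_succ (t : ℕ) : bs n G O (t + 1) = bs n G O t + bl G O := by
  unfold bs; ring

theorem bs_mono {s t : ℕ} (h : s ≤ t) : bs n G O s ≤ bs n G O t := by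
  unfold bs
  have := Nat.mul_le_mul_right (bl G O) h
  omega

theorem bs_ge (t : ℕ) : n + G.length + 1 ≤ bs n G O t := by unfold bs; omega

theorem gt_block {t u : ℕ} (ht : t < n) (hu : u < bl G O) :
    gt n G O (bs n G O t + u) = bg n G O t (bs n G O t) u := by
  have e1 : bs n G O t + u - (n + G.length + 1) = u + t * bl G O := by unfold bs; omega
  have e2 : (u + t * bl G O) / bl G O = t := by
    rw [Nat.add_mul_div_right _ _ bl_pos, Nat.div_eq_of_lt hu, zero_add]
  have e3 : (u + t * bl G O) % bl G O = u := by
    rw [Nat.add_mul_mod_self_right, Nat.mod_eq_of_lt hu]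
  have h1 := bs_mono (n := n) (G := G) (O := O) (show t + 1 ≤ n from ht)
  rw [bs_succ] at h1
  have h2 := bs_ge (n := n) (G := G) (O := O) t
  unfold gt
  rw [if_neg (by omega), if_neg (by omega), if_pos (by omega), e1, e2, e3]

theorem gt_last (u : ℕ) : gt n G O (bs n G O n + u) = fg n G O (bs n G O n) u := by
  have h2 := bs_ge (n := n) (G := G) (O := O) n
  unfold gt
  rw [if_neg (by omega), if_neg (by omega), if_neg (by omega), Nat.add_sub_cancel_left]

/-- each node beyond the first ones is in a block -/
theorem exists_block {i : ℕ} (h1 : n + G.length < i) (h2 : i < bs n G O n) :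
    ∃ t u, t < n ∧ u < bl G O ∧ i = bs n G O t + u := by
  refine ⟨(i - (n + G.length + 1)) / bl G O, (i - (n + G.length + 1)) % bl G O, ?_,
    Nat.mod_lt _ bl_pos, ?_⟩
  · rw [Nat.div_lt_iff_lt_mul bl_pos]
    unfold bs at h2
    omega
  · have := Nat.div_add_mod' (i - (n + G.length + 1)) (bl G O)
    unfold bs
    omega

end

/-- the references of the codes -/
theorem cv_ref {C : Circuit} (hC : C.Valid) {τ : ℕ → ℕ} {i B : ℕ} (hi : i < C.gates.length)
    (h : ∀ j < C.inputs + i, τ j < B) :
    (cv τ ((codes C).getD i (0, 0, 0))).1 < B ∧ (cv τ ((codes C).getD i (0, 0, 0))).2.1 < B := by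
  have hig : C.gates[i]? = some C.gates[i] := List.getElem?_eq_getElem hi
  rw [codes_getD hig]
  have h1 := hC.1 i _ hig
  generalize C.gates[i] = g at h1
  cases g with
  | and a b =>
    have ha := h1 a (by simp [Gate.reads])
    have hb := h1 b (by simp [Gate.reads])
    simp only [cv, Gate.code]
    exact ⟨h _ ha, h _ hb⟩
  | or a b =>
    have ha := h1 a (by simp [Gate.reads])
    have hb := h1 b (by simp [Gate.reads])
    simp only [cv, Gate.code]
    exact ⟨h _ ha, h _ hb⟩
  | not a =>
    have ha := h1 a (by simp [Gate.reads])
    simp only [cv, Gate.code]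
    exact ⟨h _ ha, h _ ha⟩

theorem codes_length (C : Circuit) : (codes C).length = C.gates.length := by
  unfold codes; simp

/-- the data of a circuit -/
def datC (C : Circuit) : Dat := dat C.inputs (codes C) C.outputs

theorem out_getD {C : Circuit} (hC : C.Valid) {j : ℕ} (hj : j < C.outputs.length) :
    C.inputs ≤ C.outputs.getD j 0 ∧ C.outputs.getD j 0 < C.inputs + C.gates.length := by
  rw [List.getD_eq_getElem _ _ hj]
  exact hC.2 _ (List.getElem_mem _)

theorem datC_refs {C : Circuit} (hC : C.Valid) (hn : 0 < C.inputs) {i : ℕ} (h1 : C.inputs ≤ i)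
    (h2 : i < (datC C).N) : ((datC C).gate i).1 < i ∧ ((datC C).gate i).2.1 < i := by
  have hcl := codes_length C
  by_cases h3 : i < C.inputs + (codes C).length
  · have e : (datC C).gate i = cv (fun j => j) ((codes C).getD (i - C.inputs) (0, 0, 0)) := by
      change gt _ _ _ _ = _
      unfold gt
      rw [if_pos h3]
    rw [e]
    exact cv_ref hC (by omega) (fun j hj => by omega)
  by_cases h4 : i = C.inputs + (codes C).length
  · have e : (datC C).gate i = (0, 0, (false, false, false, false)) := by
      change gt _ _ _ _ = _
      unfold gt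
      rw [if_neg h3, if_pos h4]
    rw [e]
    simp only
    omega
  by_cases h5 : i < bs C.inputs (codes C) C.outputs C.inputs
  · obtain ⟨t, u, ht, hu, rfl⟩ := exists_block (n := C.inputs) (G := codes C) (O := C.outputs)
      (by omega) h5
    have hK := bs_ge (n := C.inputs) (G := codes C) (O := C.outputs) t
    have e : (datC C).gate (bs C.inputs (codes C) C.outputs t + u) = _ := gt_block ht hu
    rw [e]
    clear e
    generalize bs C.inputs (codes C) C.outputs t = K at hK
    have hu' : u < (codes C).length + 4 * C.outputs.length + 4 := hu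
    unfold bg
    split_ifs with c1 c2 c3 c4 c5 c6 c7 c8 c9 c10 c11 c12 c13 c14 c15
    all_goals first
      | (simp only; omega)
      | skip
    · refine cv_ref hC (by omega) fun j hj => ?_
      unfold tau
      split_ifs <;> omega
    · have := out_getD hC (j := (u - 1 - (codes C).length) / 4) (by omega)
      simp only
      omega
    · have := out_getD hC (j := (u - 1 - (codes C).length) / 4) (by omega)
      simp only
      omega
  · obtain ⟨u, rfl⟩ : ∃ u, i = bs C.inputs (codes C) C.outputs C.inputs + u :=
      ⟨i - bs C.inputs (codes C) C.outputs C.inputs, by omega⟩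
    have hK := bs_ge (n := C.inputs) (G := codes C) (O := C.outputs) C.inputs
    have e : (datC C).gate (bs C.inputs (codes C) C.outputs C.inputs + u) = _ := gt_last u
    have h2' : bs C.inputs (codes C) C.outputs C.inputs + u <
        bs C.inputs (codes C) C.outputs C.inputs + ((codes C).length + 5 * C.outputs.length) := h2
    rw [e]
    clear e
    have hnx : ∀ j < C.inputs, nxn C.inputs (codes C) C.outputs j <
        bs C.inputs (codes C) C.outputs C.inputs := by
      intro j hj
      have h6 := bs_mono (n := C.inputs) (G := codes C) (O := C.outputs)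
        (show j + 1 ≤ C.inputs from hj)
      rw [bs_succ] at h6
      have h7 : bl (codes C) C.outputs = (codes C).length + 4 * C.outputs.length + 4 := rfl
      unfold nxn
      omega
    unfold fg
    split_ifs with c1 c2 c3 c4 c5 c6 c7
    all_goals first
      | (simp only; omega)
      | skip
    · refine cv_ref hC (by omega) fun j hj => ?_
      unfold tau2
      split_ifs with c8
      · have := hnx j c8
        omega
      · omega
    · have := out_getD hC (j := C.outputs.length - 1 - (u - (codes C).length) / 5) (by omega)
      simp only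
      omega
    · have := out_getD hC (j := C.outputs.length - 1 - (u - (codes C).length) / 5) (by omega)
      simp only
      omega
    · have := out_getD hC (j := C.outputs.length - 1 - (u - (codes C).length) / 5) (by omega)
      simp only
      omega

theorem datC_ok {C : Circuit} (hC : C.Valid) (hn : 0 < C.inputs) : (datC C).Ok where
  le := by
    have := bs_ge (n := C.inputs) (G := codes C) (O := C.outputs) C.inputs
    change C.inputs ≤ bs _ _ _ _ + _
    omega
  ref1 := fun i h1 h2 => (datC_refs hC hn h1 h2).1
  ref2 := fun i h1 h2 => (datC_refs hC hn h1 h2).2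
  out := by
    intro r hr
    have hr' : r < C.outputs.length := hr
    have h1 := out_getD hC (j := C.outputs.length - 1 - r) (by omega)
    have := bs_ge (n := C.inputs) (G := codes C) (O := C.outputs) C.inputs
    have := codes_length C
    change C.outputs.getD _ _ < bs _ _ _ _ + _
    omega
  mu := by
    intro r hr
    have hr' : r < C.outputs.length := hr
    change bs _ _ _ _ + _ < bs _ _ _ _ + _
    omega
  nx := by
    intro i hi
    change bs _ _ _ _ + _ < bs _ _ _ _ + _
    have h1 := bs_mono (n := C.inputs) (G := codes C) (O := C.outputs)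
      (show i + 1 ≤ C.inputs from hi)
    rw [bs_succ] at h1
    have h2 : bl (codes C) C.outputs = (codes C).length + 4 * C.outputs.length + 4 := rfl
    omega

end Pool.Agent.Helper80K4
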