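import Pool.Agent.Helper80K4.Sem

/-!
# The circuit which finds an improving neighbour is correct
-/

namespace Pool.Agent.Helper80K4

/-- the cost of the first `j` bits -/
def pc (y : List Bool) (j : ℕ) : ℕ := ∑ i ∈ Finset.range j, (y.getD i false).toNat * 2 ^ (i + 1)

theorem pc_succ (y : List Bool) (j : ℕ) :
    pc y (j + 1) = pc y j + (y.getD j false).toNat * 2 ^ (j + 1) := by
  unfold pc
  rw [Finset.sum_range_succ]

theorem pc_lt (y : List Bool) (j : ℕ) : pc y j < 2 ^ (j + 1) := by
  induction j with
  | zero => simp [pc]
  | succ j ih =>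
    rw [pc_succ, pow_succ 2 (j + 1)]
    have := Bool.toNat_le (y.getD j false)
    have h2 : 0 < 2 ^ (j + 1) := by positivity
    nlinarith

theorem cmp_step (y y' : List Bool) (j : ℕ) (p : Bool) (hp : p = decide (pc y' j < pc y j)) :
    ((!(y'.getD j false) && y.getD j false) || ((!(y'.getD j false) || y.getD j false) && p)) =
      decide (pc y' (j + 1) < pc y (j + 1)) := by
  have h1 := pc_lt y j
  have h2 := pc_lt y' j
  rw [pc_succ, pc_succ, hp]
  cases y'.getD j false <;> cases y.getD j false
  · simp
  · simp only [Bool.not_false, Bool.and_true, Bool.or_true, Bool.true_and, Bool.true_or]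
    symm
    rw [decide_eq_true_eq]
    simp only [Bool.toNat_false, Bool.toNat_true]
    omega
  · simp only [Bool.not_true, Bool.false_and, Bool.or_false, Bool.toNat_false, Bool.toNat_true]
    symm
    rw [decide_eq_false_iff_not]
    omega
  · simp

theorem getD_map_lt {α β : Type} (f : α → β) (l : List α) {j : ℕ} (hj : j < l.length) (d : α)
    (e : β) : (l.map f).getD j e = f (l.getD j d) := by
  simp [List.getD_eq_getElem?_getD, List.getElem?_eq_getElem hj]

section

variable {C : Circuit} (hC : C.Valid) {v : ℕ → Bool}
  (hv : ∀ i, C.inputs ≤ i → i < (datC C).N → v i = gv v ((datC C).gate i))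

include hC hv

theorem sem_base (j : ℕ) (hj : j < C.inputs + C.gates.length) :
    v j = (C.nodes ((List.range C.inputs).map v)).getD j false := by
  have hcl := codes_length C
  have hN := bs_ge (n := C.inputs) (G := codes C) (O := C.outputs) C.inputs
  refine copy_sem hC (by simp) (w := v) (τ := fun j => j) ?_ ?_ j hj
  · intro j hj
    rw [List.getD_eq_getElem?_getD, List.getElem?_map, List.getElem?_range hj]
    rfl
  · intro i hi
    rw [hv (C.inputs + i) (by omega) (by change _ < bs _ _ _ _ + _; omega)]
    congr 1
    change gt _ _ _ _ = _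
    unfold gt
    rw [if_pos (by omega), Nat.add_sub_cancel_left]

omit hC in
theorem sem_false : v (C.inputs + (codes C).length) = false := by
  have hN := bs_ge (n := C.inputs) (G := codes C) (O := C.outputs) C.inputs
  rw [hv _ (by omega) (by change _ < bs _ _ _ _ + _; omega)]
  change gv v (gt _ _ _ _) = _
  unfold gt
  rw [if_neg (by omega), if_pos rfl]
  simp only [gv, TT.ev]
  cases v 0 <;> rfl

omit hC in
/-- the equation of a node of a block -/
theorem sem_blk {t u : ℕ} (ht : t < C.inputs) (hu : u < bl (codes C) C.outputs) :
    v (bs C.inputs (codes C) C.outputs t + u) =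
      gv v (bg C.inputs (codes C) C.outputs t (bs C.inputs (codes C) C.outputs t) u) := by
  have hK := bs_ge (n := C.inputs) (G := codes C) (O := C.outputs) t
  have h1 := bs_mono (n := C.inputs) (G := codes C) (O := C.outputs) (show t + 1 ≤ C.inputs from ht)
  rw [bs_succ] at h1
  rw [hv _ (by omega) (by change _ < bs _ _ _ _ + _; omega)]
  congr 1
  exact gt_block ht hu

omit hC in
theorem sem_not {t : ℕ} (ht : t < C.inputs) :
    v (bs C.inputs (codes C) C.outputs t) = !(v t) := by
  have := sem_blk hv ht (u := 0) bl_pos
  rw [Nat.add_zero] at this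
  rw [this]
  unfold bg
  rw [if_pos rfl]
  simp only [gv, TT.ev]
  cases v t <;> rfl

theorem sem_copy {t : ℕ} (ht : t < C.inputs) (j : ℕ) (hj : j < C.inputs + C.gates.length) :
    v (tau C.inputs (bs C.inputs (codes C) C.outputs t) t j) =
      (C.nodes (((List.range C.inputs).map v).modify t not)).getD j false := by
  have hcl := codes_length C
  refine copy_sem hC (by simp) (w := v)
    (τ := tau C.inputs (bs C.inputs (codes C) C.outputs t) t) ?_ ?_ j hj
  · intro j hj
    rw [getD_modify (by simpa using ht), List.getD_eq_getElem?_getD, List.getElem?_map,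
      List.getElem?_range hj]
    unfold tau
    rw [if_pos hj]
    by_cases h : j = t
    · rw [if_pos h, if_pos h, sem_not hv ht, h]
      rfl
    · rw [if_neg h, if_neg h]
      rfl
  · intro i hi
    have hu : i + 1 < bl (codes C) C.outputs := by unfold bl; omega
    have := sem_blk hv ht hu
    have e : tau C.inputs (bs C.inputs (codes C) C.outputs t) t (C.inputs + i) =
        bs C.inputs (codes C) C.outputs t + (i + 1) := by
      unfold tau
      rw [if_neg (by omega)]
      omega
    rw [e, this]
    congr 1
    unfold bg
    rw [if_neg (by omega), if_pos (by omega), Nat.add_sub_cancel]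

/-- the output vector -/
theorem sem_out (j : ℕ) (hj : j < C.outputs.length) :
    v (C.outputs.getD j 0) = (C.eval ((List.range C.inputs).map v)).getD j false := by
  rw [sem_base hC hv _ (out_getD hC hj).2]
  unfold Circuit.eval
  rw [getD_map_lt _ _ hj 0]

/-- the output vector of a neighbour -/
theorem sem_out' {t : ℕ} (ht : t < C.inputs) (j : ℕ) (hj : j < C.outputs.length) :
    v (bs C.inputs (codes C) C.outputs t + 1 + (C.outputs.getD j 0 - C.inputs)) =
      (C.eval (((List.range C.inputs).map v).modify t not)).getD j false := by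
  have h0 := out_getD hC hj
  have := sem_copy hC hv ht _ h0.2
  unfold tau at this
  rw [if_neg (by omega)] at this
  rw [this]
  unfold Circuit.eval
  rw [getD_map_lt _ _ hj 0]

/-- the comparison -/
theorem sem_cmp {t : ℕ} (ht : t < C.inputs) (j : ℕ) (hj : j ≤ C.outputs.length) :
    v (if j = 0 then C.inputs + (codes C).length else
      bs C.inputs (codes C) C.outputs t + ((codes C).length + 4 * j)) =
      decide (pc (C.eval (((List.range C.inputs).map v).modify t not)) j <
        pc (C.eval ((List.range C.inputs).map v)) j) := by
  induction j with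
  | zero =>
    rw [if_pos rfl, sem_false hv]
    simp [pc]
  | succ j ih =>
    have hj' : j < C.outputs.length := by omega
    have ih := ih (by omega)
    have hp := sem_out hC hv j hj'
    have hp' := sem_out' hC hv ht j hj'
    rw [if_neg (by omega)]
    obtain ⟨g, hg⟩ : ∃ g, g = (codes C).length := ⟨_, rfl⟩
    obtain ⟨m, hm⟩ : ∃ m, m = C.outputs.length := ⟨_, rfl⟩
    have hbl : bl (codes C) C.outputs = g + 4 * m + 4 := by rw [hg, hm]; rfl
    have hb : ∀ u, u < g + 4 * m + 4 → _ := fun u hu => sem_blk hv ht (u := u) (by rw [hbl]; exact hu)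
    rw [← hg] at ih ⊢
    rw [← hm] at hj' hj
    have q : ∀ r < 4, (g + 1 + 4 * j + r - 1 - g) / 4 = j ∧ (g + 1 + 4 * j + r - 1 - g) % 4 = r := by
      intro r hr; omega
    have b0 := hb (g + 1 + 4 * j + 0) (by omega)
    have b1 := hb (g + 1 + 4 * j + 1) (by omega)
    have b2 := hb (g + 1 + 4 * j + 2) (by omega)
    have b3 := hb (g + 1 + 4 * j + 3) (by omega)
    unfold bg at b0 b1 b2 b3
    rw [← hg, ← hm] at b0 b1 b2 b3
    rw [if_neg (by omega), if_neg (by omega), if_pos (by omega), (q 0 (by omega)).1,
      (q 0 (by omega)).2, if_pos rfl] at b0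
    rw [if_neg (by omega), if_neg (by omega), if_pos (by omega), (q 1 (by omega)).1,
      (q 1 (by omega)).2, if_neg (by omega), if_pos rfl] at b1
    rw [if_neg (by omega), if_neg (by omega), if_pos (by omega), (q 2 (by omega)).1,
      (q 2 (by omega)).2, if_neg (by omega), if_neg (by omega), if_pos rfl] at b2
    rw [if_neg (by omega), if_neg (by omega), if_pos (by omega),
      (q 3 (by omega)).2, if_neg (by omega), if_neg (by omega), if_neg (by omega)] at b3
    generalize hK : bs C.inputs (codes C) C.outputs t = K at *
    have e1 : K + (g + 4 * (j + 1)) = K + (g + 1 + 4 * j + 3) := by omega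
    have e2 : K + (g + 1 + 4 * j + 3) - 3 = K + (g + 1 + 4 * j + 0) := by omega
    have e3 : K + (g + 1 + 4 * j + 3) - 1 = K + (g + 1 + 4 * j + 2) := by omega
    have e4 : K + (g + 1 + 4 * j + 2) - 1 = K + (g + 1 + 4 * j + 1) := by omega
    have e5 : (if j = 0 then C.inputs + g else K + (g + 1 + 4 * j + 2) - 3) =
        if j = 0 then C.inputs + g else K + (g + 4 * j) := by
      split_ifs
      · rfl
      · omega
    rw [e2, e3] at b3
    rw [e4, e5] at b2
    have f0 : v (K + (g + 1 + 4 * j + 0)) = (!(v (K + 1 + (C.outputs.getD j 0 - C.inputs))) &&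
        v (C.outputs.getD j 0)) := by
      rw [b0]
      simp only [gv, TT.ev]
      cases v (K + 1 + (C.outputs.getD j 0 - C.inputs)) <;> cases v (C.outputs.getD j 0) <;> rfl
    have f1 : v (K + (g + 1 + 4 * j + 1)) = (!(v (K + 1 + (C.outputs.getD j 0 - C.inputs))) ||
        v (C.outputs.getD j 0)) := by
      rw [b1]
      simp only [gv, TT.ev]
      cases v (K + 1 + (C.outputs.getD j 0 - C.inputs)) <;> cases v (C.outputs.getD j 0) <;> rfl
    have f2 : v (K + (g + 1 + 4 * j + 2)) = (v (K + (g + 1 + 4 * j + 1)) &&
        v (if j = 0 then C.inputs + g else K + (g + 4 * j))) := by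
      rw [b2]
      simp only [gv, TT.ev]
      cases v (K + (g + 1 + 4 * j + 1)) <;>
        cases v (if j = 0 then C.inputs + g else K + (g + 4 * j)) <;> rfl
    have f3 : v (K + (g + 1 + 4 * j + 3)) = (v (K + (g + 1 + 4 * j + 0)) ||
        v (K + (g + 1 + 4 * j + 2))) := by
      rw [b3]
      simp only [gv, TT.ev]
      cases v (K + (g + 1 + 4 * j + 0)) <;> cases v (K + (g + 1 + 4 * j + 2)) <;> rfl
    rw [e1, f3, f2, f1, f0, hp, hp']
    exact cmp_step _ _ j _ ih

/-- the final comparison -/
theorem sem_L {t : ℕ} (ht : t < C.inputs) :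
    v (if C.outputs.length = 0 then C.inputs + (codes C).length else
      bs C.inputs (codes C) C.outputs t + ((codes C).length + 4 * C.outputs.length)) =
      decide (cost (C.eval (((List.range C.inputs).map v).modify t not)) <
        cost (C.eval ((List.range C.inputs).map v))) := by
  rw [sem_cmp hC hv ht _ le_rfl]
  have e : ∀ x, pc (C.eval x) C.outputs.length = cost (C.eval x) := by
    intro x
    unfold pc cost Circuit.eval
    rw [List.length_map]
  rw [e, e]

/-- an earlier improvement has been found -/
theorem sem_F (t : ℕ) (ht : t ≤ C.inputs) :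
    v (if t = 0 then C.inputs + (codes C).length else bs C.inputs (codes C) C.outputs t - 1) = true ↔
      ∃ s < t, cost (C.eval (((List.range C.inputs).map v).modify s not)) <
        cost (C.eval ((List.range C.inputs).map v)) := by
  induction t with
  | zero =>
    rw [if_pos rfl, sem_false hv]
    simp
  | succ t ih =>
    have ih := ih (by omega)
    rw [if_neg (by omega), bs_succ]
    have hL := sem_L hC hv (show t < C.inputs by omega)
    have hb := sem_blk hv (show t < C.inputs by omega)
      (u := (codes C).length + 4 * C.outputs.length + 3) (by unfold bl; omega)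
    have e1 : bs C.inputs (codes C) C.outputs t + bl (codes C) C.outputs - 1 =
      bs C.inputs (codes C) C.outputs t + ((codes C).length + 4 * C.outputs.length + 3) := by
      unfold bl; omega
    rw [e1, hb]
    unfold bg
    rw [if_neg (by omega), if_neg (by omega), if_neg (by omega), if_neg (by omega),
      if_neg (by omega)]
    have e2 : (if C.outputs.length = 0 then C.inputs + (codes C).length else
        bs C.inputs (codes C) C.outputs t + ((codes C).length + 4 * C.outputs.length + 3) - 3) =
        (if C.outputs.length = 0 then C.inputs + (codes C).length else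
        bs C.inputs (codes C) C.outputs t + ((codes C).length + 4 * C.outputs.length)) := by
      split_ifs
      · rfl
      · omega
    rw [e2]
    simp only [gv, TT.ev]
    rw [hL]
    constructor
    · intro h
      by_cases h1 : cost (C.eval (((List.range C.inputs).map v).modify t not)) <
        cost (C.eval ((List.range C.inputs).map v))
      · exact ⟨t, by omega, h1⟩
      · rw [decide_eq_false h1] at h
        obtain ⟨s, hs, hs'⟩ := ih.1 (by
          revert h
          cases v (if t = 0 then C.inputs + (codes C).length else
            bs C.inputs (codes C) C.outputs t - 1) <;> simp)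
        exact ⟨s, by omega, hs'⟩
    · rintro ⟨s, hs, hs'⟩
      by_cases hst : s = t
      · subst hst
        rw [decide_eq_true hs']
        simp
      · have h2 := ih.2 ⟨s, by omega, hs'⟩
        rw [h2]
        simp

/-- the next vector -/
theorem sem_next (t : ℕ) (ht : t < C.inputs) :
    v ((datC C).nx t) = (v t ^^
      (decide (cost (C.eval (((List.range C.inputs).map v).modify t not)) <
        cost (C.eval ((List.range C.inputs).map v))) &&
      !(decide (∃ s < t, cost (C.eval (((List.range C.inputs).map v).modify s not)) <
        cost (C.eval ((List.range C.inputs).map v)))))) := by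
  have hF := sem_F hC hv t (by omega)
  have hL := sem_L hC hv ht
  have h1 := sem_blk hv ht (u := (codes C).length + 4 * C.outputs.length + 1) (by unfold bl; omega)
  have h2 := sem_blk hv ht (u := (codes C).length + 4 * C.outputs.length + 2) (by unfold bl; omega)
  have e1 : (datC C).nx t = bs C.inputs (codes C) C.outputs t +
      ((codes C).length + 4 * C.outputs.length + 2) := rfl
  unfold bg at h1 h2
  rw [if_neg (by omega), if_neg (by omega), if_neg (by omega), if_pos (by omega)] at h1
  rw [if_neg (by omega), if_neg (by omega), if_neg (by omega), if_neg (by omega),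
    if_pos (by omega)] at h2
  have e2 : (if C.outputs.length = 0 then C.inputs + (codes C).length else
      bs C.inputs (codes C) C.outputs t + ((codes C).length + 4 * C.outputs.length + 1) - 1) =
      (if C.outputs.length = 0 then C.inputs + (codes C).length else
      bs C.inputs (codes C) C.outputs t + ((codes C).length + 4 * C.outputs.length)) := by
    split_ifs
    · rfl
    · omega
  have e3 : bs C.inputs (codes C) C.outputs t + ((codes C).length + 4 * C.outputs.length + 2) - 1 =
    bs C.inputs (codes C) C.outputs t + ((codes C).length + 4 * C.outputs.length + 1) := by omega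
  rw [e2] at h1
  rw [e3] at h2
  rw [e1, h2]
  simp only [gv, TT.ev]
  rw [h1]
  simp only [gv, TT.ev]
  rw [hL]
  have hF' : v (if t = 0 then C.inputs + (codes C).length else
      bs C.inputs (codes C) C.outputs t - 1) =
      decide (∃ s < t, cost (C.eval (((List.range C.inputs).map v).modify s not)) <
        cost (C.eval ((List.range C.inputs).map v))) := by
    rw [Bool.eq_iff_iff, hF, decide_eq_true_eq]
  rw [hF']
  cases v t <;> cases decide (cost (C.eval (((List.range C.inputs).map v).modify t not)) <
    cost (C.eval ((List.range C.inputs).map v))) <;>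
    cases decide (∃ s < t, cost (C.eval (((List.range C.inputs).map v).modify s not)) <
        cost (C.eval ((List.range C.inputs).map v))) <;> rfl

/-- the next vector -/
theorem sem_nxt (j : ℕ) (hj : j < C.inputs + C.gates.length) :
    v (tau2 C.inputs (codes C) C.outputs (bs C.inputs (codes C) C.outputs C.inputs) j) =
      (C.nodes ((List.range C.inputs).map fun i => v ((datC C).nx i))).getD j false := by
  have hcl := codes_length C
  have hQ := bs_ge (n := C.inputs) (G := codes C) (O := C.outputs) C.inputs
  refine copy_sem hC (by simp) (w := v)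
    (τ := tau2 C.inputs (codes C) C.outputs (bs C.inputs (codes C) C.outputs C.inputs)) ?_ ?_ j hj
  · intro j hj
    rw [List.getD_eq_getElem?_getD, List.getElem?_map, List.getElem?_range hj]
    unfold tau2
    rw [if_pos hj]
    rfl
  · intro i hi
    have e : tau2 C.inputs (codes C) C.outputs (bs C.inputs (codes C) C.outputs C.inputs)
        (C.inputs + i) = bs C.inputs (codes C) C.outputs C.inputs + i := by
      unfold tau2
      rw [if_neg (by omega), Nat.add_sub_cancel_left]
    rw [e, hv _ (by omega) (by change _ < bs _ _ _ _ + _; omega)]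
    congr 1
    change gt _ _ _ _ = _
    rw [gt_last]
    unfold fg
    rw [if_pos (by omega)]

omit hC in
/-- the equation of a node of the last block -/
theorem sem_last {u : ℕ} (hu : u < (codes C).length + 5 * C.outputs.length) :
    v (bs C.inputs (codes C) C.outputs C.inputs + u) =
      gv v (fg C.inputs (codes C) C.outputs (bs C.inputs (codes C) C.outputs C.inputs) u) := by
  have hQ := bs_ge (n := C.inputs) (G := codes C) (O := C.outputs) C.inputs
  rw [hv _ (by omega) (by change _ < bs _ _ _ _ + _; omega)]
  congr 1
  exact gt_last u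

theorem sem_mu (q : ℕ) (hq : q ≤ C.outputs.length) :
    (v (if q = 0 then C.inputs + (codes C).length else
      bs C.inputs (codes C) C.outputs C.inputs + ((codes C).length + 5 * q - 2)) = true ↔
      ∃ r < q, v ((datC C).out r) ≠ (C.eval ((List.range C.inputs).map
        fun i => v ((datC C).nx i))).getD (C.outputs.length - 1 - r) false) ∧
    (q < C.outputs.length → (v ((datC C).mu q) = true ↔ v ((datC C).out q) = true ∧
      ((∃ r < q, v ((datC C).out r) ≠ (C.eval ((List.range C.inputs).map
        fun i => v ((datC C).nx i))).getD (C.outputs.length - 1 - r) false) ∨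
        (C.eval ((List.range C.inputs).map
        fun i => v ((datC C).nx i))).getD (C.outputs.length - 1 - q) false = true))) := by
  obtain ⟨Y, hY⟩ : ∃ Y, Y = C.eval ((List.range C.inputs).map fun i => v ((datC C).nx i)) :=
    ⟨_, rfl⟩
  rw [← hY]
  have hcl := codes_length C
  have hQ := bs_ge (n := C.inputs) (G := codes C) (O := C.outputs) C.inputs
  -- the outputs for the next vector
  have hV' : ∀ r < C.outputs.length,
      v (bs C.inputs (codes C) C.outputs C.inputs +
        (C.outputs.getD (C.outputs.length - 1 - r) 0 - C.inputs)) =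
        Y.getD (C.outputs.length - 1 - r) false := by
    intro r hr
    have h0 := out_getD hC (j := C.outputs.length - 1 - r) (by omega)
    have := sem_nxt hC hv _ h0.2
    unfold tau2 at this
    rw [if_neg (by omega)] at this
    rw [this, hY]
    unfold Circuit.eval
    rw [getD_map_lt _ _ (by omega) 0]
  obtain ⟨g, hg⟩ : ∃ g, g = (codes C).length := ⟨_, rfl⟩
  obtain ⟨m, hm⟩ : ∃ m, m = C.outputs.length := ⟨_, rfl⟩
  have hl := fun u hu => sem_last hv (u := u) hu
  have ho : ∀ r, (datC C).out r = C.outputs.getD (m - 1 - r) 0 := fun r => by rw [hm]; rfl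
  have hmu : ∀ r, (datC C).mu r = bs C.inputs (codes C) C.outputs C.inputs + (g + 5 * r + 4) :=
    fun r => by rw [hg]; rfl
  rw [← hm] at hV' hq ⊢
  rw [← hg, ← hm] at hl
  rw [← hg] at ⊢
  generalize hQQ : bs C.inputs (codes C) C.outputs C.inputs = Q at *
  -- the equations of a group
  have hgrp : ∀ r < m,
      v (Q + (g + 5 * r + 0)) = (v (C.outputs.getD (m - 1 - r) 0) && !(Y.getD (m - 1 - r) false)) ∧
      v (Q + (g + 5 * r + 1)) = (!(v (if r = 0 then C.inputs + g else Q + (g + 5 * r - 2))) &&
        v (Q + (g + 5 * r + 0))) ∧
      v (Q + (g + 5 * r + 2)) = (v (C.outputs.getD (m - 1 - r) 0) ^^ (Y.getD (m - 1 - r) false)) ∧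
      v (Q + (g + 5 * r + 3)) = (v (if r = 0 then C.inputs + g else Q + (g + 5 * r - 2)) ||
        v (Q + (g + 5 * r + 2))) ∧
      v (Q + (g + 5 * r + 4)) = (v (C.outputs.getD (m - 1 - r) 0) &&
        !(v (Q + (g + 5 * r + 1)))) := by
    intro r hr
    have hq' : ∀ e < 5, (g + 5 * r + e - g) / 5 = r ∧ (g + 5 * r + e - g) % 5 = e := by
      intro e he; omega
    have b0 := hl (g + 5 * r + 0) (by omega)
    have b1 := hl (g + 5 * r + 1) (by omega)
    have b2 := hl (g + 5 * r + 2) (by omega)
    have b3 := hl (g + 5 * r + 3) (by omega)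
    have b4 := hl (g + 5 * r + 4) (by omega)
    unfold fg at b0 b1 b2 b3 b4
    rw [← hg, ← hm] at b0 b1 b2 b3 b4
    rw [if_neg (by omega), (hq' 0 (by omega)).1, (hq' 0 (by omega)).2, if_pos rfl] at b0
    rw [if_neg (by omega), (hq' 1 (by omega)).1, (hq' 1 (by omega)).2, if_neg (by omega),
      if_pos rfl] at b1
    rw [if_neg (by omega), (hq' 2 (by omega)).1, (hq' 2 (by omega)).2, if_neg (by omega),
      if_neg (by omega), if_pos rfl] at b2
    rw [if_neg (by omega), (hq' 3 (by omega)).1, (hq' 3 (by omega)).2, if_neg (by omega),
      if_neg (by omega), if_neg (by omega), if_pos rfl] at b3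
    rw [if_neg (by omega), (hq' 4 (by omega)).1, (hq' 4 (by omega)).2, if_neg (by omega),
      if_neg (by omega), if_neg (by omega), if_neg (by omega)] at b4
    have e1 : Q + (g + 5 * r + 1) - 1 = Q + (g + 5 * r + 0) := by omega
    have e2 : (if r = 0 then C.inputs + g else Q + (g + 5 * r + 1) - 3) =
        if r = 0 then C.inputs + g else Q + (g + 5 * r - 2) := by
      split_ifs
      · rfl
      · omega
    have e3 : Q + (g + 5 * r + 3) - 1 = Q + (g + 5 * r + 2) := by omega
    have e4 : (if r = 0 then C.inputs + g else Q + (g + 5 * r + 3) - 5) =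
        if r = 0 then C.inputs + g else Q + (g + 5 * r - 2) := by
      split_ifs
      · rfl
      · omega
    have e5 : Q + (g + 5 * r + 4) - 3 = Q + (g + 5 * r + 1) := by omega
    rw [e1, e2] at b1
    rw [e3, e4] at b3
    rw [e5] at b4
    have hVr := hV' r hr
    refine ⟨?_, ?_, ?_, ?_, ?_⟩
    · rw [b0]
      simp only [gv, TT.ev]
      rw [hVr]
      cases v (C.outputs.getD (m - 1 - r) 0) <;> cases Y.getD (m - 1 - r) false <;> rfl
    · rw [b1]
      simp only [gv, TT.ev]
      cases v (if r = 0 then C.inputs + g else Q + (g + 5 * r - 2)) <;>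
        cases v (Q + (g + 5 * r + 0)) <;> rfl
    · rw [b2]
      simp only [gv, TT.ev]
      rw [hVr]
      cases v (C.outputs.getD (m - 1 - r) 0) <;> cases Y.getD (m - 1 - r) false <;> rfl
    · rw [b3]
      simp only [gv, TT.ev]
      cases v (if r = 0 then C.inputs + g else Q + (g + 5 * r - 2)) <;>
        cases v (Q + (g + 5 * r + 2)) <;> rfl
    · rw [b4]
      simp only [gv, TT.ev]
      cases v (C.outputs.getD (m - 1 - r) 0) <;> cases v (Q + (g + 5 * r + 1)) <;> rfl
  have hF := sem_false (C := C) hv
  rw [← hg] at hF
  -- the chain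
  have hchain : ∀ q ≤ m, (v (if q = 0 then C.inputs + g else Q + (g + 5 * q - 2)) = true ↔
      ∃ r < q, v ((datC C).out r) ≠ Y.getD (m - 1 - r) false) := by
    intro q hq
    induction q with
    | zero =>
      rw [if_pos rfl, hF]
      simp
    | succ q ih =>
      have ih := ih (by omega)
      obtain ⟨_, _, h2, h3, _⟩ := hgrp q (by omega)
      rw [if_neg (by omega)]
      have e : Q + (g + 5 * (q + 1) - 2) = Q + (g + 5 * q + 3) := by omega
      rw [e, h3, Bool.or_eq_true]
      rw [h2]
      refine (or_congr_left ih).trans ?_
      have hx : ((v (C.outputs.getD (m - 1 - q) 0) ^^ Y.getD (m - 1 - q) false) = true) ↔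
          v ((datC C).out q) ≠ Y.getD (m - 1 - q) false := by
        rw [ho]
        cases v (C.outputs.getD (m - 1 - q) 0) <;> cases Y.getD (m - 1 - q) false <;> simp
      rw [hx]
      constructor
      · rintro (⟨r, hr, h⟩ | h)
        · exact ⟨r, by omega, h⟩
        · exact ⟨q, by omega, h⟩
      · rintro ⟨r, hr, h⟩
        by_cases hrq : r = q
        · rw [hrq] at h; exact Or.inr h
        · exact Or.inl ⟨r, by omega, h⟩
  refine ⟨hchain q hq, fun hqm => ?_⟩
  obtain ⟨h0, h1, _, _, h4⟩ := hgrp q hqm
  have hc := hchain q hq
  rw [hmu, h4, h1, h0, ← hc, ho]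
  cases v (C.outputs.getD (m - 1 - q) 0) <;> cases Y.getD (m - 1 - q) false <;>
    cases v (if q = 0 then C.inputs + g else Q + (g + 5 * q - 2)) <;> simp

end

/-- lexicographic comparison -/
theorem mv_le_of (m : ℕ) (A B : ℕ → Bool)
    (h : ∀ q < m, (∀ r < q, A r = B r) → A q = true → B q = false → False) :
    mv ((List.range m).map A) ≤ mv ((List.range m).map B) := by
  induction m generalizing A B with
  | zero => exact le_rfl
  | succ m ih =>
    rw [List.range_succ_eq_map, List.map_cons, List.map_cons, List.map_map, List.map_map, mv, mv]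
    simp only [List.length_map, List.length_range]
    have ha := mv_lt ((List.range m).map (A ∘ Nat.succ))
    rw [List.length_map, List.length_range] at ha
    by_cases h0 : A 0 = B 0
    · have := ih (A ∘ Nat.succ) (B ∘ Nat.succ) (by
        intro q hq hr h1 h2
        refine h (q + 1) (by omega) ?_ h1 h2
        intro r hr'
        cases r with
        | zero => exact h0
        | succ r => exact hr r (by omega))
      rw [h0]
      omega
    · cases hA : A 0 <;> cases hB : B 0
      · rw [hA, hB] at h0; exact absurd rfl h0
      · simp only [Bool.toNat_false, Bool.toNat_true]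
        omega
      · exact (h 0 (by omega) (by intro r hr; omega) hA hB).elim
      · rw [hA, hB] at h0; exact absurd rfl h0

theorem out_getD' {C : Circuit} (hC : C.Valid) {v : ℕ → Bool}
    (hv : ∀ i, C.inputs ≤ i → i < (datC C).N → v i = gv v ((datC C).gate i)) {r : ℕ}
    (hr : r < C.outputs.length) : v ((datC C).out r) =
      (C.eval ((List.range C.inputs).map v)).getD (C.outputs.length - 1 - r) false := by
  rw [← sem_out hC hv _ (by omega)]
  rfl

theorem mv_out {C : Circuit} (hC : C.Valid) {v : ℕ → Bool}
    (hv : ∀ i, C.inputs ≤ i → i < (datC C).N → v i = gv v ((datC C).gate i)) :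
    cost (C.eval ((List.range C.inputs).map v)) =
      2 * mv ((List.range C.outputs.length).map fun r => v ((datC C).out r)) := by
  have e : (List.range C.outputs.length).map (fun r => v ((datC C).out r)) =
      (C.eval ((List.range C.inputs).map v)).reverse := by
    have hl : (C.eval ((List.range C.inputs).map v)).length = C.outputs.length := by
      unfold Circuit.eval; simp
    refine List.ext_getElem (by simp [hl]) fun r h1 h2 => ?_
    have hr : r < C.outputs.length := by simpa using h1
    rw [List.getElem_map, List.getElem_range, List.getElem_reverse, out_getD' hC hv hr,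
      List.getD_eq_getElem _ _ (by omega)]
    congr 1
    omega
  rw [e, ← cost_reverse, List.reverse_reverse]

/-- The conclusion: the inputs of the holder are a local minimum. -/
theorem sem_main {C : Circuit} (hC : C.Valid) {v w : ℕ → Bool}
    (hv : ∀ i, C.inputs ≤ i → i < (datC C).N → v i = gv v ((datC C).gate i))
    (hw : ∀ i, C.inputs ≤ i → i < (datC C).N → w i = gv w ((datC C).gate i))
    (hvw : ∀ i < C.inputs, w i = v ((datC C).nx i))
    (hno : ∀ q < (datC C).m, (∀ r < q, v ((datC C).out r) = w ((datC C).out r) ∧
      (v ((datC C).out r) = true → v ((datC C).mu r) = true)) →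
      v ((datC C).out q) = true → w ((datC C).out q) = false → v ((datC C).mu q) = false →
      w ((datC C).mu q) = false → False) :
    IsLocalMin C.inputs C.eval ((List.range C.inputs).map v) := by
  classical
  have hnext : (List.range C.inputs).map w =
      (List.range C.inputs).map fun i => v ((datC C).nx i) :=
    List.map_congr_left fun i hi => hvw i (List.mem_range.1 hi)
  have hout : ∀ r < C.outputs.length, (C.eval ((List.range C.inputs).map
      fun i => v ((datC C).nx i))).getD (C.outputs.length - 1 - r) false =
      w ((datC C).out r) := by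
    intro r hr
    rw [out_getD' hC hw hr, hnext]
  have hle : mv ((List.range C.outputs.length).map fun r => v ((datC C).out r)) ≤
      mv ((List.range C.outputs.length).map fun r => w ((datC C).out r)) := by
    refine mv_le_of _ _ _ fun q hq heq h1 h2 => ?_
    refine hno q hq ?_ h1 h2 ?_ ?_
    · intro r hr
      refine ⟨heq r hr, fun h3 => ?_⟩
      refine ((sem_mu hC hv r (by omega)).2 (by omega)).2 ⟨h3, Or.inr ?_⟩
      rw [hout r (by omega), ← heq r hr]
      exact h3
    · rw [← Bool.not_eq_true, (sem_mu hC hv q (by omega)).2 hq]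
      rintro ⟨_, h3 | h3⟩
      · obtain ⟨r, hr, h4⟩ := h3
        rw [hout r (by omega)] at h4
        exact h4 (heq r hr)
      · rw [hout q hq, h2] at h3
        exact absurd h3 (by simp)
    · rw [← Bool.not_eq_true, (sem_mu hC hw q (by omega)).2 hq]
      rintro ⟨h3, _⟩
      rw [h2] at h3
      exact absurd h3 (by simp)
  refine ⟨by simp, ?_⟩
  by_contra hcon
  push Not at hcon
  obtain ⟨X, hX⟩ : ∃ X, X = (List.range C.inputs).map v := ⟨_, rfl⟩
  have hcon' : ∃ t, t < C.inputs ∧ cost (C.eval (X.modify t not)) < cost (C.eval X) := by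
    rw [hX]; exact hcon
  obtain ⟨t, ht, hmin⟩ : ∃ t, (t < C.inputs ∧ cost (C.eval (X.modify t not)) < cost (C.eval X)) ∧
      ∀ s < t, ¬ (s < C.inputs ∧ cost (C.eval (X.modify s not)) < cost (C.eval X)) :=
    ⟨Nat.find hcon', Nat.find_spec hcon', fun s hs => Nat.find_min hcon' hs⟩
  have hW : (List.range C.inputs).map w = X.modify t not := by
    refine List.ext_getElem? fun i => ?_
    rw [List.getElem?_modify, List.getElem?_map, hX, List.getElem?_map]
    by_cases hi : i < C.inputs
    · rw [List.getElem?_range hi]
      simp only [Option.map_some, Option.map_eq_map, Option.some.injEq]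
      rw [hvw i hi, sem_next hC hv i hi, ← hX]
      rcases lt_trichotomy i t with h | h | h
      · rw [if_neg (by omega), decide_eq_false (p := cost (C.eval (X.modify i not)) <
          cost (C.eval X)) (fun h' => hmin i h ⟨hi, h'⟩)]
        simp
      · subst h
        rw [if_pos rfl, decide_eq_true ht.2, decide_eq_false]
        · simp
        · rintro ⟨s, hs, hs'⟩
          exact hmin s hs ⟨by omega, hs'⟩
      · rw [if_neg (by omega), decide_eq_true (p := ∃ s < i, cost (C.eval (X.modify s not)) <
          cost (C.eval X)) ⟨t, h, ht.2⟩]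
        simp
    · rw [List.getElem?_eq_none (by simpa using hi)]
      rfl
  have e1 := mv_out hC hv
  have e2 := mv_out hC hw
  rw [hW] at e2
  rw [← hX] at e1
  have := ht.2
  omega

end Pool.Agent.Helper80K4
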