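import Pool.Agent.Helper80K4.Hard
import Pool.Agent.Helper80K4.Easy

/-!
# Circuits for maps given by truth tables
-/

namespace Pool.Agent.Helper80K4

open Pool.Agent.NPC

/-- the powers of two -/
def pw (k : ℕ) : List ℕ := (List.range k).map fun u => 2 ^ u

/-- a binary digit -/
def tbit (k t u : ℕ) : Bool := decide (t / (pw k).getD u 1 % 2 = 1)

theorem tbit_eq {k t u : ℕ} (hu : u < k) : tbit k t u = decide (t / 2 ^ u % 2 = 1) := by
  unfold tbit pw
  rw [getD_map_lt _ _ (by simpa using hu) 0, List.getD_eq_getElem _ _ (by simpa using hu),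
    List.getElem_range]

theorem index_lt (l : List Bool) : index l < 2 ^ l.length := by
  induction l with
  | nil => simp [index]
  | cons b l ih =>
    rw [index, List.length_cons, pow_succ]
    have := Bool.toNat_le b
    omega

theorem index_iff (l : List Bool) (t : ℕ) (ht : t < 2 ^ l.length) :
    (∀ u < l.length, l.getD u false = decide (t / 2 ^ u % 2 = 1)) ↔ t = index l := by
  induction l generalizing t with
  | nil => simp at ht; simp [index, ht]
  | cons b l ih =>
    rw [List.length_cons, pow_succ] at ht
    have ih := ih (t / 2) (by omega)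
    constructor
    · intro h
      have h0 := h 0 (by simp)
      have h1 : t / 2 = index l := ih.1 fun u hu => by
        have := h (u + 1) (by simpa using hu)
        rw [List.getD_cons_succ, pow_succ', ← Nat.div_div_eq_div_mul] at this
        exact this
      rw [index]
      simp only [List.getD_cons_zero, pow_zero, Nat.div_one] at h0
      cases b
      · have : ¬ (t % 2 = 1) := fun h' => by simp [h'] at h0
        simp only [Bool.toNat_false]
        omega
      · have : t % 2 = 1 := by simpa using h0.symm
        simp only [Bool.toNat_true]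
        omega
    · intro h u hu
      rw [index] at h
      have h2 : t / 2 = index l := by
        have := Bool.toNat_le b
        omega
      cases u with
      | zero =>
        simp only [List.getD_cons_zero, pow_zero, Nat.div_one]
        cases b
        · simp only [Bool.toNat_false] at h
          have : ¬ (t % 2 = 1) := by omega
          simp [this]
        · simp only [Bool.toNat_true] at h
          have : t % 2 = 1 := by omega
          simp [this]
      | succ u =>
        rw [List.getD_cons_succ, pow_succ', ← Nat.div_div_eq_div_mul]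
        exact ih.2 h2 u (by simpa using hu)

section build

variable (k n : ℕ) (o : List Bit)

/-- the start of a row -/
def rs (j t : ℕ) : ℕ := 2 * n + 4 + (j * 2 ^ k + t) * (k + 1)

/-- the literal number `u` of the row `t` of the bit `T` -/
def lt' (T : Bit) (t u : ℕ) : ℕ :=
  if u < T.1.length then
    (if tbit k t u = true then T.1.getD u 0 else n + 1 + T.1.getD u 0) else 2 * n + 3

/-- the constant for the row `t` of the bit `T` -/
def ct (T : Bit) (t : ℕ) : ℕ := if T.2.getD t false = true then 2 * n + 3 else 2 * n + 2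

/-- the gate number `u` in the row `t` of the bit number `j`, the row starting at `K` -/
def rg (j t K u : ℕ) : Gate :=
  if u < k then
    Gate.and (if u = 0 then ct n (o.getD j ([], [])) t else K + u - 1)
      (lt' k n (o.getD j ([], [])) t u)
  else Gate.or (K + u - 1) (if t = 0 then 2 * n + 2 else K - 1)

/-- the gate of the node `i` -/
def ug (i : ℕ) : Gate :=
  if i < 2 * n + 2 then Gate.not (i - (n + 1))
  else if i = 2 * n + 2 then Gate.and n (2 * n + 1)
  else if i = 2 * n + 3 then Gate.or n (2 * n + 1)
  else rg k n o ((i - (2 * n + 4)) / (k + 1) / 2 ^ k) ((i - (2 * n + 4)) / (k + 1) % 2 ^ k)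
    (rs k n ((i - (2 * n + 4)) / (k + 1) / 2 ^ k) ((i - (2 * n + 4)) / (k + 1) % 2 ^ k))
    ((i - (2 * n + 4)) % (k + 1))

/-- the circuit -/
def ucirc : Circuit where
  inputs := n + 1
  gates := (List.range (n + 3 + o.length * 2 ^ k * (k + 1))).map fun g => ug k n o (n + 1 + g)
  outputs := (List.range o.length).map fun j => rs k n j (2 ^ k - 1) + k

end build

section

variable {k n : ℕ} {o : List Bit}

theorem ug_row {j t u : ℕ} (ht : t < 2 ^ k) (hu : u < k + 1) :
    ug k n o (rs k n j t + u) = rg k n o j t (rs k n j t) u := by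
  have e1 : rs k n j t + u - (2 * n + 4) = u + (j * 2 ^ k + t) * (k + 1) := by unfold rs; omega
  have e2 : (u + (j * 2 ^ k + t) * (k + 1)) / (k + 1) = t + j * 2 ^ k := by
    rw [Nat.add_mul_div_right _ _ (by omega), Nat.div_eq_of_lt hu, zero_add, add_comm]
  have e3 : (u + (j * 2 ^ k + t) * (k + 1)) % (k + 1) = u := by
    rw [Nat.add_mul_mod_self_right, Nat.mod_eq_of_lt hu]
  have e4 : (t + j * 2 ^ k) / 2 ^ k = j := by
    rw [Nat.add_mul_div_right _ _ (by positivity), Nat.div_eq_of_lt ht, zero_add]
  have e5 : (t + j * 2 ^ k) % 2 ^ k = t := by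
    rw [Nat.add_mul_mod_self_right, Nat.mod_eq_of_lt ht]
  unfold ug
  rw [if_neg (by unfold rs; omega), if_neg (by unfold rs; omega), if_neg (by unfold rs; omega),
    e1, e2, e3, e4, e5]

theorem rs_succ (j t : ℕ) : rs k n j (t + 1) = rs k n j t + (k + 1) := by
  unfold rs; ring

theorem rs_lt {j t u : ℕ} (hj : j < o.length) (ht : t < 2 ^ k) (hu : u < k + 1) :
    rs k n j t + u < n + 1 + (n + 3 + o.length * 2 ^ k * (k + 1)) := by
  unfold rs
  have h1 : j * 2 ^ k + t + 1 ≤ o.length * 2 ^ k := by
    have : (j + 1) * 2 ^ k ≤ o.length * 2 ^ k := Nat.mul_le_mul_right _ hj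
    rw [add_mul, one_mul] at this
    omega
  have h2 := Nat.mul_le_mul_right (k + 1) h1
  rw [add_mul _ 1, one_mul] at h2
  omega

/-- each later node is in a row -/
theorem exists_row {i : ℕ} (h1 : 2 * n + 4 ≤ i)
    (h2 : i < n + 1 + (n + 3 + o.length * 2 ^ k * (k + 1))) :
    ∃ j t u, j < o.length ∧ t < 2 ^ k ∧ u < k + 1 ∧ i = rs k n j t + u := by
  have h2k : 0 < 2 ^ k := by positivity
  refine ⟨(i - (2 * n + 4)) / (k + 1) / 2 ^ k, (i - (2 * n + 4)) / (k + 1) % 2 ^ k,
    (i - (2 * n + 4)) % (k + 1), ?_, Nat.mod_lt _ h2k, Nat.mod_lt _ (by omega), ?_⟩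
  · rw [Nat.div_lt_iff_lt_mul h2k, Nat.div_lt_iff_lt_mul (by omega)]
    omega
  · unfold rs
    have e1 := Nat.div_add_mod' ((i - (2 * n + 4)) / (k + 1)) (2 ^ k)
    have e2 := Nat.div_add_mod' (i - (2 * n + 4)) (k + 1)
    rw [e1]
    omega

theorem ucirc_gate {i : ℕ} (h1 : n + 1 ≤ i)
    (h2 : i < n + 1 + (n + 3 + o.length * 2 ^ k * (k + 1))) :
    (ucirc k n o).gates[i - (n + 1)]? = some (ug k n o i) := by
  unfold ucirc
  simp only
  rw [List.getElem?_map, List.getElem?_range (by omega)]
  simp only [Option.map_some, Option.some.injEq]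
  congr 1
  omega

theorem reads_lt {T : Bit} (hT : ∀ i ∈ T.1, i < n) {u : ℕ} (hu : u < T.1.length) :
    T.1.getD u 0 < n := by
  rw [List.getD_eq_getElem _ _ hu]
  exact hT _ (List.getElem_mem _)

theorem ug_reads (hk : 1 ≤ k) (ho : ∀ T ∈ o, ∀ i ∈ T.1, i < n) {i : ℕ} (h1 : n + 1 ≤ i)
    (h2 : i < n + 1 + (n + 3 + o.length * 2 ^ k * (k + 1))) : ∀ a ∈ (ug k n o i).reads, a < i := by
  by_cases c1 : i < 2 * n + 2
  · unfold ug
    rw [if_pos c1]
    intro a ha
    simp only [Gate.reads, List.mem_cons, List.not_mem_nil, or_false] at ha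
    omega
  by_cases c2 : i = 2 * n + 2
  · unfold ug
    rw [if_neg c1, if_pos c2]
    intro a ha
    simp only [Gate.reads, List.mem_cons, List.not_mem_nil, or_false] at ha
    omega
  by_cases c3 : i = 2 * n + 3
  · unfold ug
    rw [if_neg c1, if_neg c2, if_pos c3]
    intro a ha
    simp only [Gate.reads, List.mem_cons, List.not_mem_nil, or_false] at ha
    omega
  obtain ⟨j, t, u, hj, ht, hu, rfl⟩ := exists_row (k := k) (n := n) (o := o) (by omega) h2
  rw [ug_row ht hu]
  have hT := ho (o.getD j ([], [])) (by
    rw [List.getD_eq_getElem _ _ hj]; exact List.getElem_mem _)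
  have hK : 2 * n + 4 ≤ rs k n j t := by unfold rs; omega
  unfold rg
  split_ifs with d1 d2 d3
  · intro a ha
    simp only [Gate.reads, List.mem_cons, List.not_mem_nil, or_false] at ha
    rcases ha with rfl | rfl
    · unfold ct; split_ifs <;> omega
    · unfold lt'
      split_ifs with d4 d5
      · have := reads_lt hT d4; omega
      · have := reads_lt hT d4; omega
      · omega
  · intro a ha
    simp only [Gate.reads, List.mem_cons, List.not_mem_nil, or_false] at ha
    rcases ha with rfl | rfl
    · omega
    · unfold lt'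
      split_ifs with d4 d5
      · have := reads_lt hT d4; omega
      · have := reads_lt hT d4; omega
      · omega
  · intro a ha
    simp only [Gate.reads, List.mem_cons, List.not_mem_nil, or_false] at ha
    omega
  · intro a ha
    simp only [Gate.reads, List.mem_cons, List.not_mem_nil, or_false] at ha
    omega

theorem ucirc_valid (hk : 1 ≤ k) (ho : ∀ T ∈ o, ∀ i ∈ T.1, i < n) : (ucirc k n o).Valid := by
  constructor
  · intro i g hg a ha
    have hi : i < n + 3 + o.length * 2 ^ k * (k + 1) := by
      have := (List.getElem?_eq_some_iff.1 hg).1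
      simpa [ucirc] using this
    have := ucirc_gate (k := k) (n := n) (o := o) (i := n + 1 + i) (by omega) (by omega)
    rw [Nat.add_sub_cancel_left, hg] at this
    have hgg : g = ug k n o (n + 1 + i) := by simpa using this
    rw [hgg] at ha
    exact ug_reads (i := n + 1 + i) hk ho (by omega) (by omega) a ha
  · intro q hq
    unfold ucirc at hq ⊢
    simp only [List.mem_map, List.mem_range] at hq
    obtain ⟨j, hj, rfl⟩ := hq
    have := rs_lt (k := k) (n := n) (o := o) hj (t := 2 ^ k - 1) (u := k)
      (by have : 0 < 2 ^ k := by positivity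
          omega) (by omega)
    simp only [List.length_map, List.length_range]
    refine ⟨by unfold rs; omega, this⟩

/-- the equations of the nodes -/
theorem ucirc_eq (hk : 1 ≤ k) (ho : ∀ T ∈ o, ∀ i ∈ T.1, i < n) {x : List Bool}
    (hx : x.length = n + 1) {i : ℕ} (h1 : n + 1 ≤ i)
    (h2 : i < n + 1 + (n + 3 + o.length * 2 ^ k * (k + 1))) :
    ((ucirc k n o).nodes x).getD i false = (ug k n o i).eval ((ucirc k n o).nodes x) := by
  have := nodes_getD_gate (ucirc_valid hk ho) (x := x) hx (ucirc_gate h1 h2)
  have e : (ucirc k n o).inputs + (i - (n + 1)) = i := by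
    change n + 1 + _ = _
    omega
  rwa [e] at this

variable (hk : 1 ≤ k) (ho : ∀ T ∈ o, ∀ i ∈ T.1, i < n) {x : List Bool} (hx : x.length = n + 1)

include hk ho hx

theorem u_not {i : ℕ} (hi : i < n + 1) :
    ((ucirc k n o).nodes x).getD (n + 1 + i) false = !(x.getD i false) := by
  rw [ucirc_eq hk ho hx (by omega) (by omega)]
  unfold ug
  rw [if_pos (by omega), Nat.add_sub_cancel_left]
  simp only [Gate.eval]
  rw [nodes_getD_lt (by omega)]

theorem u_zero : ((ucirc k n o).nodes x).getD (2 * n + 2) false = false := by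
  rw [ucirc_eq hk ho hx (by omega) (by omega)]
  unfold ug
  rw [if_neg (by omega), if_pos rfl]
  simp only [Gate.eval]
  have := u_not hk ho hx (i := n) (by omega)
  rw [show n + 1 + n = 2 * n + 1 by omega] at this
  rw [this, nodes_getD_lt (by omega)]
  cases x.getD n false <;> rfl

theorem u_one : ((ucirc k n o).nodes x).getD (2 * n + 3) false = true := by
  rw [ucirc_eq hk ho hx (by omega) (by omega)]
  unfold ug
  rw [if_neg (by omega), if_neg (by omega), if_pos rfl]
  simp only [Gate.eval]
  have := u_not hk ho hx (i := n) (by omega)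
  rw [show n + 1 + n = 2 * n + 1 by omega] at this
  rw [this, nodes_getD_lt (by omega)]
  cases x.getD n false <;> rfl

theorem u_lit {j t u : ℕ} (hj : j < o.length) (hu : u < k) :
    ((ucirc k n o).nodes x).getD (lt' k n (o.getD j ([], [])) t u) false = true ↔
      (u < (o.getD j ([], [])).1.length →
        x.getD ((o.getD j ([], [])).1.getD u 0) false = decide (t / 2 ^ u % 2 = 1)) := by
  have hT := ho (o.getD j ([], [])) (by
    rw [List.getD_eq_getElem _ _ hj]; exact List.getElem_mem _)
  unfold lt'
  split_ifs with d1 d2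
  · have h1 := reads_lt hT d1
    rw [tbit_eq hu, decide_eq_true_eq] at d2
    rw [nodes_getD_lt (by omega), decide_eq_true d2]
    exact ⟨fun h _ => h, fun h => h d1⟩
  · have h1 := reads_lt hT d1
    rw [tbit_eq hu, decide_eq_true_eq] at d2
    rw [u_not hk ho hx (by omega), decide_eq_false d2, Bool.not_eq_true']
    exact ⟨fun h _ => h, fun h => h d1⟩
  · rw [u_one hk ho hx]
    exact ⟨fun _ h => absurd h d1, fun _ => rfl⟩

theorem u_const {j t : ℕ} :
    ((ucirc k n o).nodes x).getD (ct n (o.getD j ([], [])) t) false =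
      (o.getD j ([], [])).2.getD t false := by
  unfold ct
  split_ifs with d1
  · rw [u_one hk ho hx, d1]
  · rw [u_zero hk ho hx]
    rw [Bool.not_eq_true] at d1
    exact d1.symm

/-- the chain of a row -/
theorem u_chain {j t : ℕ} (hj : j < o.length) (ht : t < 2 ^ k) (u : ℕ) (hu : u < k) :
    ((ucirc k n o).nodes x).getD (rs k n j t + u) false = true ↔
      (o.getD j ([], [])).2.getD t false = true ∧ ∀ u' ≤ u, u' < (o.getD j ([], [])).1.length →
        x.getD ((o.getD j ([], [])).1.getD u' 0) false = decide (t / 2 ^ u' % 2 = 1) := by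
  induction u with
  | zero =>
    rw [ucirc_eq hk ho hx (by unfold rs; omega) (rs_lt hj ht (by omega)), ug_row ht (by omega)]
    unfold rg
    rw [if_pos hu, if_pos rfl]
    simp only [Gate.eval]
    rw [Bool.and_eq_true, u_const hk ho hx, u_lit hk ho hx hj hu]
    refine and_congr_right fun _ => ⟨fun h u' hu' => ?_, fun h => h 0 le_rfl⟩
    obtain rfl : u' = 0 := by omega
    exact h
  | succ u ih =>
    have ih := ih (by omega)
    rw [ucirc_eq hk ho hx (by unfold rs; omega) (rs_lt hj ht (by omega)), ug_row ht (by omega)]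
    unfold rg
    rw [if_pos hu, if_neg (by omega)]
    simp only [Gate.eval]
    have e : rs k n j t + (u + 1) - 1 = rs k n j t + u := by omega
    rw [e, Bool.and_eq_true, ih, u_lit hk ho hx hj hu, and_assoc]
    refine and_congr_right fun _ => ⟨fun h u' hu' => ?_, fun h => ⟨fun u' hu' => h u' (by omega),
      h (u + 1) le_rfl⟩⟩
    by_cases h' : u' = u + 1
    · rw [h']; exact h.2
    · exact h.1 u' (by omega)

/-- the disjunction of the rows -/
theorem u_or {j : ℕ} (hj : j < o.length) (hjl : (o.getD j ([], [])).1.length ≤ k) (t : ℕ)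
    (ht : t < 2 ^ k) :
    ((ucirc k n o).nodes x).getD (rs k n j t + k) false = true ↔
      ∃ t' ≤ t, (o.getD j ([], [])).2.getD t' false = true ∧
        ∀ u < (o.getD j ([], [])).1.length,
          x.getD ((o.getD j ([], [])).1.getD u 0) false = decide (t' / 2 ^ u % 2 = 1) := by
  have hrow : ∀ t < 2 ^ k, ((ucirc k n o).nodes x).getD (rs k n j t + k - 1) false = true ↔
      (o.getD j ([], [])).2.getD t false = true ∧ ∀ u < (o.getD j ([], [])).1.length,
          x.getD ((o.getD j ([], [])).1.getD u 0) false = decide (t / 2 ^ u % 2 = 1) := by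
    intro t ht
    have := u_chain hk ho hx hj ht (k - 1) (by omega)
    rw [show rs k n j t + (k - 1) = rs k n j t + k - 1 by omega] at this
    rw [this]
    refine and_congr_right fun _ => ⟨fun h u hu => h u (by omega) hu, fun h u _ hu => h u hu⟩
  induction t with
  | zero =>
    rw [ucirc_eq hk ho hx (by unfold rs; omega) (rs_lt hj ht (by omega)), ug_row ht (by omega)]
    unfold rg
    rw [if_neg (by omega), if_pos rfl]
    simp only [Gate.eval]
    rw [u_zero hk ho hx, Bool.or_false, hrow 0 ht]
    constructor
    · intro h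
      exact ⟨0, le_rfl, h⟩
    · rintro ⟨t', ht', h⟩
      obtain rfl : t' = 0 := by omega
      exact h
  | succ t ih =>
    have ih := ih (by omega)
    rw [ucirc_eq hk ho hx (by unfold rs; omega) (rs_lt hj ht (by omega)), ug_row ht (by omega)]
    unfold rg
    rw [if_neg (by omega), if_neg (by omega)]
    simp only [Gate.eval]
    have e : rs k n j (t + 1) - 1 = rs k n j t + k := by rw [rs_succ]; omega
    rw [e, Bool.or_eq_true, hrow (t + 1) ht]
    refine (or_congr_right ih).trans ?_
    constructor
    · rintro (h | ⟨t', ht', h⟩)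
      · exact ⟨t + 1, le_rfl, h⟩
      · exact ⟨t', by omega, h⟩
    · rintro ⟨t', ht', h⟩
      by_cases h' : t' = t + 1
      · rw [h'] at h; exact Or.inl h
      · exact Or.inr ⟨t', by omega, h⟩

/-- the value of an output -/
theorem u_out {j : ℕ} (hj : j < o.length) (hjl : (o.getD j ([], [])).1.length ≤ k)
    (hjt : (o.getD j ([], [])).2.length = 2 ^ (o.getD j ([], [])).1.length) :
    ((ucirc k n o).nodes x).getD (rs k n j (2 ^ k - 1) + k) false =
      (o.getD j ([], [])).eval x := by
  have h2k : 0 < 2 ^ k := by positivity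
  have h := u_or hk ho hx hj hjl (2 ^ k - 1) (by omega)
  obtain ⟨T, hT⟩ : ∃ T, T = o.getD j ([], []) := ⟨_, rfl⟩
  rw [← hT] at h hjl hjt ⊢
  rw [Bool.eq_iff_iff, h]
  unfold Bit.eval
  have hidx := index_lt (T.1.map fun i => x.getD i false)
  rw [List.length_map] at hidx
  have hle : 2 ^ T.1.length ≤ 2 ^ k := Nat.pow_le_pow_right (by omega) hjl
  have key : ∀ t < 2 ^ T.1.length, (∀ u < T.1.length,
      x.getD (T.1.getD u 0) false = decide (t / 2 ^ u % 2 = 1)) ↔
      t = index (T.1.map fun i => x.getD i false) := by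
    intro t ht
    rw [← index_iff _ _ (by rw [List.length_map]; exact ht), List.length_map]
    refine forall₂_congr fun u hu => ?_
    rw [getD_map_lt _ _ hu 0]
  constructor
  · rintro ⟨t, ht, h1, h2⟩
    have ht' : t < 2 ^ T.1.length := by
      by_contra hcon
      rw [List.getD_eq_default _ _ (by omega)] at h1
      exact absurd h1 (by simp)
    rw [(key t ht').1 h2] at h1
    exact h1
  · intro h1
    exact ⟨_, by omega, h1, (key _ hidx).2 rfl⟩

end

/-- the circuit computes the map -/
theorem ucirc_eval {k : ℕ} (hk : 1 ≤ k) {M : LocalMap} (hM : LocalMap.Valid k M) {x : List Bool}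
    (hx : x.length = M.inputs + 1) :
    (ucirc k M.inputs M.outs).eval x = M.eval (x.take M.inputs) := by
  obtain ⟨n, o⟩ := M
  simp only at hx ⊢
  have ho : ∀ T ∈ o, ∀ i ∈ T.1, i < n := fun T hT => (hM T hT).2.2
  unfold Circuit.eval LocalMap.eval
  refine List.ext_getElem (by simp [ucirc]) fun j h1 h2 => ?_
  have hj : j < o.length := by simpa using h2
  simp only [List.getElem_map]
  have hmem : o.getD j ([], []) ∈ o := by
    rw [List.getD_eq_getElem _ _ hj]; exact List.getElem_mem _
  have hv := hM _ hmem
  have h3 := u_out hk ho hx hj hv.1 hv.2.1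
  have h4 : (ucirc k n o).outputs[j]'(by simpa using h1) = rs k n j (2 ^ k - 1) + k := by
    unfold ucirc
    simp
  rw [h4, h3, List.getD_eq_getElem _ _ hj]
  unfold Bit.eval
  congr 2
  refine List.map_congr_left fun i hi => ?_
  have hi' : i < n := hv.2.2 i (by rw [List.getD_eq_getElem _ _ hj]; exact hi)
  rw [List.getD_eq_getElem?_getD, List.getD_eq_getElem?_getD, List.getElem?_take_of_lt hi']

/-! ### Polynomial time -/

section

variable {α : Type} [TEnc α]

theorem poly_and {f g : α → ℕ} (hf : Poly f) (hg : Poly g) :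
    Poly (fun a => Gate.and (f a) (g a)) :=
  Poly.of_toT ((Poly.toT' (Poly.pair (NPC.Poly.const 0) (Poly.pair hf hg))).congr fun _ => rfl)

theorem poly_or {f g : α → ℕ} (hf : Poly f) (hg : Poly g) :
    Poly (fun a => Gate.or (f a) (g a)) :=
  Poly.of_toT ((Poly.toT' (Poly.pair (NPC.Poly.const 1) (Poly.pair hf hg))).congr fun _ => rfl)

theorem poly_not {f : α → ℕ} (hf : Poly f) :
    Poly (fun a => Gate.not (f a)) :=
  Poly.of_toT ((Poly.toT' (Poly.pair (NPC.Poly.const 2) (Poly.pair hf
    (NPC.Poly.const 0)))).congr fun _ => rfl)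

theorem poly_tbit {k : ℕ} {t u : α → ℕ} (ht : Poly t) (hu : Poly u) :
    Poly (fun a => tbit k (t a) (u a)) := by
  unfold tbit
  fun_prop

theorem poly_rs {k : ℕ} {n j t : α → ℕ} (hn : Poly n) (hj : Poly j) (ht : Poly t) :
    Poly (fun a => rs k (n a) (j a) (t a)) := by
  unfold rs
  have h := NPC.Poly.const (α := α) (2 ^ k)
  generalize 2 ^ k = S at h
  fun_prop

theorem poly_lt' {k : ℕ} {n t u : α → ℕ} {T : α → Bit} (hn : Poly n) (hT : Poly T) (ht : Poly t)
    (hu : Poly u) : Poly (fun a => lt' k (n a) (T a) (t a) (u a)) := by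
  have h := poly_tbit (k := k) ht hu
  unfold lt'
  exact Poly.ite (by fun_prop) (Poly.ite (Poly.decide_bool h) (by fun_prop) (by fun_prop))
    (by fun_prop)

theorem poly_ct {n t : α → ℕ} {T : α → Bit} (hn : Poly n) (hT : Poly T) (ht : Poly t) :
    Poly (fun a => ct (n a) (T a) (t a)) := by
  unfold ct
  fun_prop

theorem poly_rg {k : ℕ} {n j t K u : α → ℕ} {o : α → List Bit} (hn : Poly n) (ho : Poly o)
    (hj : Poly j) (ht : Poly t) (hK : Poly K) (hu : Poly u) :
    Poly (fun a => rg k (n a) (o a) (j a) (t a) (K a) (u a)) := by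
  have hT : Poly (fun a => (o a).getD (j a) ([], [])) := by fun_prop
  have h1 := poly_lt' (k := k) hn hT ht hu
  have h2 := poly_ct hn hT ht
  unfold rg
  refine Poly.ite (by fun_prop) (poly_and (Poly.ite (by fun_prop) h2 (by fun_prop)) h1)
    (poly_or (by fun_prop) (by fun_prop))

theorem poly_ug {k : ℕ} {n i : α → ℕ} {o : α → List Bit} (hn : Poly n) (ho : Poly o)
    (hi : Poly i) : Poly (fun a => ug k (n a) (o a) (i a)) := by
  unfold ug
  have hS := NPC.Poly.const (α := α) (2 ^ k)
  have hw : Poly (fun a => (i a - (2 * n a + 4)) / (k + 1)) := by fun_prop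
  have hj := Poly.div hw hS
  have ht := Poly.mod hw hS
  refine Poly.ite (by fun_prop) (poly_not (by fun_prop)) (Poly.ite (by fun_prop)
    (poly_and (by fun_prop) (by fun_prop)) (Poly.ite (by fun_prop)
    (poly_or (by fun_prop) (by fun_prop)) ?_))
  exact poly_rg hn ho hj ht (poly_rs hn hj ht) (by fun_prop)

theorem poly_ucirc {k : ℕ} {n : α → ℕ} {o : α → List Bit} (hn : UPoly n) (ho : Poly o) :
    Poly (fun a => ucirc k (n a) (o a)) := by
  have hN : UPoly (fun a => n a + 3 + (o a).length * 2 ^ k * (k + 1)) :=
    (hn.add (UPoly.const 3)).add (((UPoly.length ho).mul (UPoly.const _)).mul (UPoly.const _))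
  have h1 : Poly (fun a => (List.range (n a + 3 + (o a).length * 2 ^ k * (k + 1))).map
      fun g => ug k (n a) (o a) (n a + 1 + g)) := by
    refine NPC.Poly.map (F := fun a g => ug k (n a) (o a) (n a + 1 + g)) hN.range ?_
    have hn0 := hn.toPoly
    exact poly_ug (by fun_prop) (by fun_prop) (by fun_prop)
  have h2 : Poly (fun a => (List.range (o a).length).map fun j => rs k (n a) j (2 ^ k - 1) + k) := by
    refine NPC.Poly.map (F := fun a j => rs k (n a) j (2 ^ k - 1) + k) (UPoly.length ho).range ?_
    have hn' : Poly (fun p : α × ℕ => n p.1) := hn.toPoly.comp (by fun_prop)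
    exact Poly.add (poly_rs hn' (by fun_prop) (NPC.Poly.const _)) (NPC.Poly.const _)
  have h3 : Poly (fun a => List.replicate (n a + 1) ()) := hn.add (UPoly.const 1)
  exact Poly.of_toT ((Poly.toT' (Poly.pair h3 (Poly.pair h1 h2))).congr fun _ => rfl)

end

/-- Maps of bounded locality reduce to circuits. -/
theorem upper {k : ℕ} (hk : 1 ≤ k) (h : CircuitFlip) : LocalFlip k := by
  refine Solvable.of_red (γ := List Unit × List Bit) toT_lmap h
    (red := fun c => ucirc k c.1.length c.2)
    (post := fun c y => (List.range c.1.length).map fun i => y.getD i false) ?_ ?_ ?_ ?_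
  · exact poly_ucirc (UPoly.length (by fun_prop)) (by fun_prop)
  · refine NPC.Poly.map (F := fun (p : (List Unit × List Bit) × List Bool) i => p.2.getD i false)
      (UPoly.length (by fun_prop)).range (by fun_prop)
  · intro M hM
    simp only [List.length_replicate]
    exact ucirc_valid hk fun T hT => (hM T hT).2.2
  · intro M hM y hy
    simp only [List.length_replicate] at hy ⊢
    have hyl : y.length = M.inputs + 1 := hy.1
    have e : ((List.range M.inputs).map fun i => y.getD i false) = y.take M.inputs := by
      refine List.ext_getElem (by simp [hyl]) fun i h1 h2 => ?_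
      have hi : i < M.inputs := by simpa using h1
      rw [List.getElem_map, List.getElem_range, List.getElem_take,
        List.getD_eq_getElem _ _ (by omega)]
    rw [e]
    refine ⟨by simp [hyl], fun i hi => ?_⟩
    have h1 := hy.2 i (show i < M.inputs + 1 by omega)
    rw [ucirc_eval hk hM hyl, ucirc_eval hk hM (by simp [hyl])] at h1
    have e2 : (y.modify i not).take M.inputs = (y.take M.inputs).modify i not := by
      refine List.ext_getElem? fun j => ?_
      by_cases hj : j < M.inputs
      · rw [List.getElem?_take_of_lt hj, List.getElem?_modify, List.getElem?_modify,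
          List.getElem?_take_of_lt hj]
      · rw [List.getElem?_eq_none (by simp; omega), List.getElem?_eq_none (by simp; omega)]
    rwa [e2] at h1

end Pool.Agent.Helper80K4
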